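import Pool.Agent.Lib.PPart.Dual

/-!
# Incomplete squares sit at crossing elements
-/

namespace Pool.PPart

open Finset Classical OrderDual

variable {P : Type*} {α : Type*} [PartialOrder P] [LinearOrder α]

/-- the reversed labelling -/
def neg (ω : P → α) : P → αᵒᵈ := fun x => toDual (ω x)

theorem neg_strict {ω : P → α} {x y : P} : StrictCover (neg ω) x y ↔ WeakCover ω x y := Iff.rfl

theorem neg_weak {ω : P → α} {x y : P} : WeakCover (neg ω) x y ↔ StrictCover ω x y := Iff.rfl

/-- local conditions on a subset -/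
structure GoodOn (ω : P → α) (S : P → Prop) : Prop where
  ls : ∀ a b y, S a → S b → S y → StrictCover ω a y → StrictCover ω b y → a = b
  us : ∀ x a b, S x → S a → S b → StrictCover ω x a → StrictCover ω x b → a = b
  lw : ∀ a b y, S a → S b → S y → WeakCover ω a y → WeakCover ω b y → a = b
  uw : ∀ x a b, S x → S a → S b → WeakCover ω x a → WeakCover ω x b → a = b
  sw : ∀ x y w, S x → S y → S w → StrictCover ω x y → WeakCover ω y w →
    ∃ z, WeakCover ω x z ∧ StrictCover ω z w
  ws : ∀ x y w, S x → S y → S w → WeakCover ω x y → StrictCover ω y w →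
    ∃ z, StrictCover ω x z ∧ WeakCover ω z w

theorem GoodOn.lift_low [Finite P] {ω : P → α} (hω : Function.Injective ω) {S : P → Prop}
    (hS : GoodOn ω S) (hlow : ∀ x y, x ≤ y → S y → S x) {u t v : P} (hv : S v)
    (h : StrictCover ω u t) (htv : t ≤ v) : ∃ s, StrictCover ω s v ∧ u ≤ s := by
  induction v using WellFoundedLT.induction with
  | ind v ih =>
    rcases htv.eq_or_lt with h1 | h1
    · subst h1; exact ⟨u, h, le_rfl⟩
    · obtain ⟨v₁, h2, h3⟩ := exists_le_covBy_of_lt h1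
      have hv₁ : S v₁ := hlow _ _ h3.le hv
      obtain ⟨s, hs1, hs2⟩ := ih v₁ h3.lt hv₁ h2
      rcases strict_or_weak hω h3 with h4 | h4
      · exact ⟨v₁, h4, hs2.trans hs1.1.le⟩
      · obtain ⟨z, hz1, hz2⟩ := hS.sw s v₁ v (hlow _ _ hs1.1.le hv₁) hv₁ hv hs1 h4
        exact ⟨z, hz2, hs2.trans hz1.1.le⟩

theorem GoodOn.strict_above [Finite P] {ω : P → α} (hω : Function.Injective ω) {S : P → Prop}
    (hS : GoodOn ω S) {x p q : P} (hc : ∀ z, x ≤ z → z ≤ q → S z) (hxp : x ≤ p)
    (h : StrictCover ω p q) : ∃ v, StrictCover ω x v ∧ v ≤ q := by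
  induction x using WellFoundedGT.induction with
  | ind x ih =>
    rcases hxp.eq_or_lt with h1 | h1
    · subst h1; exact ⟨q, h, le_rfl⟩
    · obtain ⟨x₁, h2, h3⟩ := exists_covBy_le_of_lt h1
      rcases strict_or_weak hω h2 with h4 | h4
      · exact ⟨x₁, h4, h3.trans h.1.le⟩
      · obtain ⟨v, hv1, hv2⟩ := ih x₁ h2.lt (fun z hz hz' => hc z (h2.le.trans hz) hz') h3
        have hxq : x ≤ q := hxp.trans h.1.le
        obtain ⟨z, hz1, hz2⟩ := hS.ws x x₁ v (hc x le_rfl hxq) (hc x₁ h2.le (hv1.1.le.trans hv2))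
          (hc v (h2.le.trans hv1.1.le) hv2) h4 hv1
        exact ⟨z, hz1, hz2.1.le.trans hv2⟩

variable [Fintype P]

theorem U_up {ω : P → α} {x y : P} (h : x ≤ y) (hx : x ∈ U ω) : y ∈ U ω := by
  rw [mem_U] at hx ⊢
  intro a ha
  exact hx a (ha.mono h le_rfl)

/-- a non-maximal element is outside `U` or outside `U'` -/
theorem not_mem_U_or {ω : P → α} (hω : Function.Injective ω) {v v' : P} (h : v < v') :
    v ∉ U ω ∨ v ∉ U (neg ω) := by
  obtain ⟨t, h1, _⟩ := exists_covBy_le_of_lt h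
  rcases strict_or_weak hω h1 with h4 | h4
  · left
    intro h5
    rw [mem_U] at h5
    exact h5 t h4.prec
  · right
    intro h5
    rw [mem_U] at h5
    exact h5 t (neg_strict.2 h4).prec

theorem not_mem_J_or {ω : P → α} (hω : Function.Injective ω) {v v' : P} (h : v' < v) :
    v ∉ J ω ∨ v ∉ J (neg ω) := by
  obtain ⟨t, _, h1⟩ := exists_le_covBy_of_lt h
  rcases strict_or_weak hω h1 with h4 | h4
  · left
    intro h5
    rw [mem_J] at h5
    exact h5 t h4.prec
  · right
    intro h5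
    rw [mem_J] at h5
    exact h5 t (neg_strict.2 h4).prec

/-- the standing assumptions of the induction -/
structure Setup (ω : P → α) : Prop where
  inj : Function.Injective ω
  sym : Sym ω
  R : GoodOn ω (fun x => x ∉ U ω)
  R' : GoodOn ω (fun x => x ∉ U (neg ω))
  Q : GoodOn ω (fun x => x ∉ J ω)
  Q' : GoodOn ω (fun x => x ∉ J (neg ω))

/-- a good lower set containing a given non-maximal element -/
theorem Setup.low {ω : P → α} (h : Setup ω) {v v' : P} (hv : v < v') :
    ∃ S : P → Prop, GoodOn ω S ∧ (∀ x y, x ≤ y → S y → S x) ∧ S v := by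
  rcases not_mem_U_or h.inj hv with h1 | h1
  · exact ⟨_, h.R, fun x y hxy hy hx => hy (U_up hxy hx), h1⟩
  · exact ⟨_, h.R', fun x y hxy hy hx => hy (U_up hxy hx), h1⟩

theorem Setup.high {ω : P → α} (h : Setup ω) {v v' : P} (hv : v' < v) :
    ∃ S : P → Prop, GoodOn ω S ∧ (∀ x y, x ≤ y → S x → S y) ∧ S v := by
  rcases not_mem_J_or h.inj hv with h1 | h1
  · exact ⟨_, h.Q, fun x y hxy hx hy => hx (J_low ω y hy x hxy), h1⟩
  · exact ⟨_, h.Q', fun x y hxy hx hy => hx (J_low _ y hy x hxy), h1⟩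

/-- **Lemma C** -/
theorem Setup.lemmaC {ω : P → α} (h : Setup ω) {x y w : P} (hxy : StrictCover ω x y)
    (hyw : WeakCover ω y w) (hfail : ¬ ∃ z, WeakCover ω x z ∧ StrictCover ω z w) :
    y ∉ U ω := by
  intro hyU
  -- `x` is minimal
  have hmin : ∀ a, a ≤ x → a = x := by
    intro a ha
    by_contra hne
    obtain ⟨S, hS, hup, hSx⟩ := h.high (lt_of_le_of_ne ha hne)
    have hSy := hup _ _ hxy.1.le hSx
    exact hfail (hS.sw x y w hSx hSy (hup _ _ hyw.1.le hSy) hxy hyw)
  have hyJ : y ∉ J ω := fun h1 => (mem_J.1 h1) x hxy.prec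
  -- (b)
  have hb : ∀ v v', v < v' → StrictCover ω x v → ∀ a, Prec ω a v → a = x := by
    intro v v' hv hxv a ha
    obtain ⟨S, hS, hlow, hSv⟩ := h.low hv
    obtain ⟨u, t, h1, h2, h3⟩ := ha.exists_cover
    obtain ⟨s, hs1, hs2⟩ := hS.lift_low h.inj hlow hSv h2 h3
    have h4 := hS.ls s x v (hlow _ _ hs1.1.le hSv) (hlow _ _ hxv.1.le hSv) hSv hs1 hxv
    rw [h4] at hs2
    exact hmin a (h1.trans hs2)
  have hb' : ∀ v v', v < v' → StrictCover ω x v → ∀ z, z ≤ v → z ∉ J ω → z = v := by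
    intro v v' hv hxv z hzv hz
    rw [mem_J] at hz
    push Not at hz
    obtain ⟨a, ha⟩ := hz
    have h1 := hb v v' hv hxv a (ha.mono le_rfl hzv)
    subst h1
    by_contra hne
    exact hxv.1.2 ha.lt (lt_of_le_of_ne hzv hne)
  -- (c)
  have hc : ∀ u, Prec ω x u → u ∈ U ω := by
    intro u hu
    by_contra huU
    obtain ⟨p, q, h1, h2, h3⟩ := hu.exists_cover
    have hqU : q ∉ U ω := fun h4 => huU (U_up h3 h4)
    obtain ⟨v, hv1, hv2⟩ := h.R.strict_above h.inj (x := x) (p := p) (q := q)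
      (fun z _ hz hzU => hqU (U_up hz hzU)) h1 h2
    have hvU : v ∉ U ω := fun h4 => hqU (U_up hv2 h4)
    have hvy : v ≠ y := by rintro rfl; exact hvU hyU
    have hvJ : v ∉ J ω := fun h5 => (mem_J.1 h5) x hv1.prec
    obtain ⟨v', hvv'⟩ : ∃ v', v < v' := by
      rw [mem_U] at hvU
      push Not at hvU
      obtain ⟨a, ha⟩ := hvU
      exact ⟨a, ha.lt⟩
    set A : Finset P := insert y (insert v (J ω)) with hA
    have hAlow : IsLow A := by
      intro a ha z hz
      simp only [hA, Finset.mem_insert] at ha ⊢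
      by_cases hzJ : z ∈ J ω
      · exact Or.inr (Or.inr hzJ)
      · rcases ha with rfl | rfl | ha
        · exact Or.inl (hb' a w hyw.1.lt hxy z hz hzJ)
        · exact Or.inr (Or.inl (hb' a v' hvv' hv1 z hz hzJ))
        · exact absurd (J_low ω a ha z hz) hzJ
    have hcard : A.card = (J ω).card + 2 := by
      rw [hA, Finset.card_insert_of_notMem, Finset.card_insert_of_notMem hvJ]
      simp only [Finset.mem_insert, not_or]
      exact ⟨hvy.symm, hyJ⟩
    have hD : Dn ω A ⊆ {x} := by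
      intro a ha
      rw [mem_Dn] at ha
      obtain ⟨b, hb1, hb2⟩ := ha
      rw [Finset.mem_singleton]
      simp only [hA, Finset.mem_insert] at hb1
      rcases hb1 with rfl | rfl | hb1
      · exact hb b w hyw.1.lt hxy a hb2
      · exact hb b v' hvv' hv1 a hb2
      · exact absurd hb2 ((mem_J.1 hb1) a)
    have h6 := card_le h.sym A hAlow
    have h7 := Finset.card_le_card hD
    rw [Finset.card_singleton] at h7
    omega
  -- (d)
  have hxU : x ∉ U ω := fun h1 => (mem_U.1 h1) y hxy.prec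
  set E : Finset Pᵒᵈ := univ.filter (fun v : Pᵒᵈ => x ≤ ofDual v ∨ ofDual v ∈ U ω) with hE
  have hElow : IsLow E := by
    intro a ha b hab
    simp only [hE, Finset.mem_filter, Finset.mem_univ, true_and] at ha ⊢
    have hab' : ofDual a ≤ ofDual b := hab
    rcases ha with ha | ha
    · exact Or.inl (ha.trans hab')
    · exact Or.inr (U_up hab' ha)
  have hEJ : J (dn ω) ⊆ E := by
    intro a ha
    simp only [hE, Finset.mem_filter, Finset.mem_univ, true_and]
    exact Or.inr ((mem_J_dn (x := ofDual a)).1 ha)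
  have hEfull : FullAtt (dn ω) E := by
    refine ⟨hElow, hEJ, ?_⟩
    intro B hBE hB hJB
    apply star_two (sym_dn h.sym) B hB hJB
    intro a ha b hb' haJ hab
    have hab' : Prec ω (ofDual b) (ofDual a) := dn_prec.1 hab
    have haU : ofDual a ∉ U ω := fun h1 => haJ ((mem_J_dn (x := ofDual a)).2 h1)
    have hb1 := hBE hb'
    simp only [hE, Finset.mem_filter, Finset.mem_univ, true_and] at hb1
    rcases hb1 with hb1 | hb1
    · exact haU (hc _ (hab'.mono hb1 le_rfl))
    · exact (mem_U.1 hb1) _ hab'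
  have hxE : toDual x ∈ E := by simp [hE]
  have hxJ : toDual x ∉ J (dn ω) := fun h1 => hxU (mem_J_dn.1 h1)
  obtain ⟨t, _, hun⟩ := hEfull.existsUnique hxE hxJ
  have hPr : ∀ b, Prec ω x b → (∀ v, x < v → ¬ Prec ω v b) → toDual b = t := by
    intro b hb1 hb2
    apply hun
    refine ⟨dn_prec.2 hb1, ?_⟩
    intro v hv hv'
    exact hb2 (ofDual v) hv (dn_prec.1 hv')
  have hty : toDual y = t := by
    apply hPr y hxy.prec
    intro v hv hv'
    exact hxy.1.2 hv hv'.lt
  have huniq : ∀ v, StrictCover ω x v → v = y := by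
    intro v hv
    have : toDual v = t := by
      apply hPr v hv.prec
      intro v' hv' hv''
      exact hv.1.2 hv' hv''.lt
    exact toDual.injective (this.trans hty.symm)
  -- (d3)
  have hd3 : ∀ b b', b < b' → Prec ω x b → y ≤ b := by
    intro b b' hbb' hxb
    obtain ⟨S, hS, hlow, hSb⟩ := h.low hbb'
    obtain ⟨p, q, h1, h2, h3⟩ := hxb.exists_cover
    obtain ⟨v, hv1, hv2⟩ := hS.strict_above h.inj (x := x) (p := p) (q := q)
      (fun z _ hz => hlow _ _ (hz.trans h3) hSb) h1 h2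
    rw [huniq v hv1] at hv2
    exact hv2.trans h3
  -- (d4)
  obtain ⟨u, hxu, huw⟩ : ∃ u, x < u ∧ Prec ω u w := by
    by_contra hcon
    push Not at hcon
    have := hPr w (hxy.prec.mono le_rfl hyw.1.le) hcon
    exact hyw.1.ne (toDual.injective (hty.trans this.symm))
  obtain ⟨p, q, h1, h2, h3⟩ := huw.exists_cover
  have hxp : x < p := lt_of_lt_of_le hxu h1
  rcases h3.eq_or_lt with h4 | h4
  swap
  · have h5 := hd3 q w h4 (h2.prec.mono hxp.le le_rfl)
    rcases h5.eq_or_lt with h6 | h6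
    · subst h6
      exact hxy.1.2 hxp h2.1.lt
    · exact hyw.1.2 h6 h4
  subst h4
  -- (d5)
  have hpy : p ≠ y := by
    rintro rfl
    exact h2.not_weak hyw
  by_cases hcov : x ⋖ p
  · rcases strict_or_weak h.inj hcov with h5 | h5
    · exact hpy (huniq p h5)
    · exact hfail ⟨p, h5, h2⟩
  · obtain ⟨t₁, h5, h6⟩ := exists_le_covBy_of_lt hxp
    have h7 : x < t₁ := by
      rcases h5.eq_or_lt with h8 | h8
      · subst h8; exact absurd h6 hcov
      · exact h8
    rcases strict_or_weak h.inj h6 with h8 | h8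
    · have h9 := hd3 p q h2.1.lt (h8.prec.mono h7.le le_rfl)
      rcases h9.eq_or_lt with h10 | h10
      · exact hpy h10.symm
      · exact hyw.1.2 h10 h2.1.lt
    · obtain ⟨S, hS, hup, hSt⟩ := h.high h7
      obtain ⟨z, hz1, hz2⟩ := hS.ws t₁ p q hSt (hup _ _ h8.1.le hSt)
        (hup _ _ h2.1.le (hup _ _ h8.1.le hSt)) h8 h2
      have h9 := hd3 z q hz2.1.lt (hz1.prec.mono h7.le le_rfl)
      rcases h9.eq_or_lt with h10 | h10
      · subst h10
        exact hxy.1.2 h7 hz1.1.lt
      · exact hyw.1.2 h10 hz2.1.lt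

end Pool.PPart
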