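import Pool.Agent.Lib.PPart.Plane

/-!
# Good labelled posets are skew shapes
-/

namespace Pool.PPart

open Finset Classical Relation

variable {P : Type*} {α : Type*} [PartialOrder P] [LinearOrder α] [Fintype P]

/-- adjacency in the Hasse diagram -/
def Adj (a b : P) : Prop := a ⋖ b ∨ b ⋖ a

omit [Fintype P] in
theorem Adj.symm {a b : P} (h : Adj a b) : Adj b a := Or.symm h

omit [Fintype P] in
theorem conn_symm {a b : P} (h : ReflTransGen Adj a b) : ReflTransGen Adj b a := by
  induction h with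
  | refl => exact ReflTransGen.refl
  | tail _ h2 ih => exact ih.head h2.symm

/-- connectedness -/
def connSetoid (P : Type*) [PartialOrder P] : Setoid P where
  r a b := ReflTransGen Adj a b
  iseqv := ⟨fun _ => ReflTransGen.refl,
    fun h => conn_symm h, fun h h' => h.trans h'⟩

theorem exists_comp (P : Type*) [PartialOrder P] [Fintype P] :
    ∃ k : P → ℕ, ∀ x y, k x = k y ↔ ReflTransGen Adj x y := by
  have : Fintype (Quotient (connSetoid P)) := Fintype.ofFinite _
  refine ⟨fun x => (Fintype.equivFin (Quotient (connSetoid P)) (Quotient.mk _ x) : ℕ), ?_⟩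
  intro x y
  constructor
  · intro h
    have h1 := (Fintype.equivFin (Quotient (connSetoid P))).injective (Fin.ext h)
    exact Quotient.exact h1
  · intro h
    have : (Quotient.mk (connSetoid P) x) = Quotient.mk _ y := Quotient.sound h
    simp only
    rw [this]

omit [Fintype P] in
theorem conn_of_le [Finite P] {x y : P} (h : x ≤ y) : ReflTransGen Adj x y := by
  induction y using WellFoundedLT.induction with
  | ind y ih =>
    rcases h.eq_or_lt with h | h
    · subst h; exact ReflTransGen.refl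
    · obtain ⟨y₁, h1, h2⟩ := exists_le_covBy_of_lt h
      exact (ih y₁ h2.lt h1).tail (Or.inl h2)

/-- final coordinates -/
theorem exists_coord {ω : P → α} (hω : Function.Injective ω) (hg : Good ω) :
    ∃ ρ γ : P → ℕ,
      (∀ x y, x ≤ y ↔ ρ x ≤ ρ y ∧ γ x ≤ γ y) ∧
      (∀ x y, ρ x = ρ y → γ x < γ y → ω x < ω y) ∧
      (∀ x y, γ x = γ y → ρ x < ρ y → ω y < ω x) ∧
      (∀ x y a b, ρ x ≤ a → a ≤ ρ y → γ x ≤ b → b ≤ γ y → ∃ z, ρ z = a ∧ γ z = b) := by
  obtain ⟨r, c, hr1, hr2⟩ := exists_pot hω hg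
  have hp : Pot ω r c := ⟨hr1, hr2⟩
  obtain ⟨k, hk⟩ := exists_comp P
  obtain ⟨M, hM⟩ : ∃ M : ℕ, ∀ x, |r x| ≤ M ∧ |c x| ≤ M := by
    refine ⟨∑ x, (|r x| + |c x|).toNat, fun x => ?_⟩
    have h1 : (|r x| + |c x|).toNat ≤ ∑ x, (|r x| + |c x|).toNat :=
      Finset.single_le_sum (f := fun x => (|r x| + |c x|).toNat) (fun _ _ => Nat.zero_le _)
        (Finset.mem_univ x)
    have h2 : ((|r x| + |c x|).toNat : ℤ) = |r x| + |c x| :=
      Int.toNat_of_nonneg (add_nonneg (abs_nonneg _) (abs_nonneg _))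
    have h3 := abs_nonneg (r x)
    have h4 := abs_nonneg (c x)
    have h5 : ((|r x| + |c x|).toNat : ℤ) ≤ ((∑ x, (|r x| + |c x|).toNat : ℕ) : ℤ) := by
      exact_mod_cast h1
    constructor <;> omega
  obtain ⟨m, hm⟩ : ∃ m : ℕ, ∀ x, k x ≤ m :=
    ⟨∑ x, k x, fun x => Finset.single_le_sum (fun _ _ => Nat.zero_le _) (Finset.mem_univ x)⟩
  set K : ℤ := 2 * M + 1 with hK
  -- integer coordinates
  set R : P → ℤ := fun x => r x + K * k x + M with hR
  set C : P → ℤ := fun x => c x + K * (m - k x) + M with hC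
  have hRnn : ∀ x, 0 ≤ R x := by
    intro x
    have h1 := (abs_le.1 (hM x).1).1
    have h2 : 0 ≤ K * k x := by positivity
    simp only [hR]; omega
  have hCnn : ∀ x, 0 ≤ C x := by
    intro x
    have h1 := (abs_le.1 (hM x).2).1
    have h3 : (0 : ℤ) ≤ m - k x := by have := hm x; omega
    have h2 : 0 ≤ K * (m - k x) := by positivity
    simp only [hC]; omega
  have hkle : ∀ x y, x ≤ y → k x = k y := fun x y h => (hk x y).2 (conn_of_le h)
  have hle : ∀ x y, x ≤ y ↔ R x ≤ R y ∧ C x ≤ C y := by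
    intro x y
    constructor
    · intro h
      have h1 := hp.mono hω h
      have h2 := hkle x y h
      simp only [hR, hC, h2]
      constructor <;> omega
    · rintro ⟨h1, h2⟩
      simp only [hR, hC] at h1 h2
      have hx := hM x
      have hy := hM y
      rw [abs_le, abs_le] at hx hy
      have hkk : k x = k y := by
        rcases lt_trichotomy (k x) (k y) with h | h | h
        · exfalso
          have h3 : (k x : ℤ) + 1 ≤ k y := by exact_mod_cast h
          have h4 : K * ((k x : ℤ) + 1) ≤ K * k y := by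
            apply mul_le_mul_of_nonneg_left h3; positivity
          nlinarith
        · exact h
        · exfalso
          have h3 : (k y : ℤ) + 1 ≤ k x := by exact_mod_cast h
          have h4 : K * ((k y : ℤ) + 1) ≤ K * k x := by
            apply mul_le_mul_of_nonneg_left h3; positivity
          nlinarith
      rw [hkk] at h1 h2
      have hrel := hp.rel_of_conn hω hg ((hk x y).1 hkk)
      exact hp.le_of_rel hω hrel (by omega) (by omega)
  refine ⟨fun x => (R x).toNat, fun x => (C x).toNat, ?_, ?_, ?_, ?_⟩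
  · intro x y
    rw [hle x y]
    have := hRnn x
    have := hRnn y
    have := hCnn x
    have := hCnn y
    simp only
    constructor
    · rintro ⟨h1, h2⟩; constructor <;> omega
    · rintro ⟨h1, h2⟩; constructor <;> omega
  · intro x y h1 h2
    have h3 := hRnn x
    have h4 := hRnn y
    have h5 := hCnn x
    have h6 := hCnn y
    simp only at h1 h2
    have h7 : R x = R y := by omega
    have h8 : C x < C y := by omega
    have h9 : x ≤ y := (hle x y).2 ⟨h7.le, h8.le⟩
    have h10 := hkle x y h9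
    simp only [hR, h10] at h7
    have h11 := ne_label (hp.D4 hω h9 (by omega))
    refine lt_of_le_of_ne h11 (hω.ne ?_)
    rintro rfl
    omega
  · intro x y h1 h2
    have h3 := hRnn x
    have h4 := hRnn y
    have h5 := hCnn x
    have h6 := hCnn y
    simp only at h1 h2
    have h7 : C x = C y := by omega
    have h8 : R x < R y := by omega
    have h9 : x ≤ y := (hle x y).2 ⟨h8.le, h7.le⟩
    have h10 := hkle x y h9
    simp only [hC, h10] at h7
    have h11 := ne_label (hp.D3 hω h9 (by omega))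
    refine lt_of_le_of_ne h11 (hω.ne ?_)
    rintro rfl
    omega
  · intro x y a b h1 h2 h3 h4
    have h5 := hRnn x
    have h6 := hRnn y
    have h7 := hCnn x
    have h8 := hCnn y
    simp only at h1 h2 h3 h4
    have h9 : x ≤ y := (hle x y).2 ⟨by omega, by omega⟩
    have h10 := hkle x y h9
    have hRy : R y = r y + K * k x + M := by simp only [hR, h10]
    have hCy : C y = c y + K * (m - k x) + M := by simp only [hC, h10]
    have hRx : R x = r x + K * k x + M := rfl
    have hCx : C x = c x + K * (m - k x) + M := rfl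
    obtain ⟨z, hz1, hz2, hz3, hz4⟩ := hp.convex hω hg h9 (a - K * k x - M)
      (b - K * (m - k x) - M) (by omega) (by omega) (by omega) (by omega)
    have h11 := hkle x z hz1
    refine ⟨z, ?_, ?_⟩
    · have : R z = a := by simp only [hR, hz3, ← h11]; ring
      simp only [this]; exact Int.toNat_natCast a
    · have : C z = b := by simp only [hC, hz4, ← h11]; ring
      simp only [this]; exact Int.toNat_natCast b

/-- **Good labelled posets are skew shapes.** -/
theorem skew_of_good {ω : P → α} (hω : Function.Injective ω) (hg : Good ω) : IsSkewShape ω := by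
  obtain ⟨ρ, γ, hle, hrow, hcol, hconv⟩ := exists_coord hω hg
  -- the image
  let im : Finset (ℕ × ℕ) := univ.image (fun x => (ρ x, γ x))
  have him : ∀ p, p ∈ im ↔ ∃ x, (ρ x, γ x) = p := by intro p; simp [im]
  -- lower closure
  let lo : Finset (ℕ × ℕ) := im.biUnion (fun p => Finset.Iic p)
  have hlo : ∀ p, p ∈ lo ↔ ∃ x, p ≤ (ρ x, γ x) := by
    intro p
    simp only [lo, Finset.mem_biUnion, Finset.mem_Iic]
    constructor
    · rintro ⟨q, hq, hpq⟩
      obtain ⟨x, rfl⟩ := (him q).1 hq
      exact ⟨x, hpq⟩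
    · rintro ⟨x, hx⟩
      exact ⟨_, (him _).2 ⟨x, rfl⟩, hx⟩
  let lam : YoungDiagram := ⟨lo, by
    intro p q hqp hp
    rw [Finset.mem_coe, hlo] at hp ⊢
    obtain ⟨x, hx⟩ := hp
    exact ⟨x, hqp.trans hx⟩⟩
  let mu : YoungDiagram := ⟨lo \ im, by
    intro p q hqp hp
    rw [Finset.mem_coe, Finset.mem_sdiff, hlo] at hp ⊢
    obtain ⟨⟨x, hx⟩, hp2⟩ := hp
    refine ⟨⟨x, hqp.trans hx⟩, fun hq => hp2 ?_⟩
    obtain ⟨y, rfl⟩ := (him q).1 hq
    obtain ⟨z, hz1, hz2⟩ := hconv y x p.1 p.2 hqp.1 hx.1 hqp.2 hx.2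
    rw [him]
    exact ⟨z, by rw [hz1, hz2]⟩⟩
  have hmem : ∀ p : ℕ × ℕ, p ∈ Cells mu lam ↔ p ∈ im := by
    intro p
    have h1 : p ∈ lam ↔ p ∈ lo := Iff.rfl
    have h2 : p ∈ mu ↔ p ∈ lo \ im := Iff.rfl
    simp only [Cells, Set.mem_ofPred_eq, h1, h2, Finset.mem_sdiff, not_and, not_not]
    constructor
    · rintro ⟨h3, h4⟩; exact h4 h3
    · intro h3
      obtain ⟨x, rfl⟩ := (him p).1 h3
      exact ⟨(hlo _).2 ⟨x, le_rfl⟩, fun _ => h3⟩
  let φ0 : P → Cells mu lam := fun x => ⟨(ρ x, γ x), (hmem _).2 ((him _).2 ⟨x, rfl⟩)⟩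
  have hφle : ∀ x y, φ0 x ≤ φ0 y ↔ x ≤ y := by
    intro x y
    rw [hle x y]
    exact Iff.rfl
  have hφsurj : Function.Surjective φ0 := by
    rintro ⟨p, hp⟩
    obtain ⟨x, hx⟩ := (him p).1 ((hmem p).1 hp)
    exact ⟨x, Subtype.ext hx⟩
  have hφinj : Function.Injective φ0 := by
    intro x y hxy
    apply le_antisymm
    · rw [← hφle, hxy]
    · rw [← hφle, hxy]
  let φ : P ≃o Cells mu lam :=
    { Equiv.ofBijective φ0 ⟨hφinj, hφsurj⟩ with
      map_rel_iff' := by intro a b; exact hφle a b }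
  have hφ : ∀ x, (φ x : ℕ × ℕ) = (ρ x, γ x) := fun x => rfl
  -- ranks
  let rk : P → ℕ := fun x => (univ.filter (fun y => ω y < ω x)).card
  have hrk : ∀ x y, ω x < ω y → rk x < rk y := by
    intro x y h
    apply Finset.card_lt_card
    rw [Finset.ssubset_iff_of_subset]
    · exact ⟨x, by simp [h], by simp⟩
    · intro z hz
      simp only [Finset.mem_filter, Finset.mem_univ, true_and] at hz ⊢
      exact hz.trans h
  have hrk' : ∀ x y, rk x < rk y ↔ ω x < ω y := by
    intro x y
    constructor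
    · intro h
      by_contra h'
      rcases (not_lt.1 h').lt_or_eq with h1 | h1
      · exact absurd (hrk y x h1) (by omega)
      · have := hω h1
        subst this
        exact lt_irrefl _ h
    · exact hrk x y
  let τ : Cells mu lam → ℕ := fun q => rk (φ.symm q)
  have hτ : ∀ x, τ (φ x) = rk x := fun x => by simp [τ]
  refine ⟨mu, lam, τ, φ, ?_, ⟨?_, ?_, ?_⟩, ?_, ?_⟩
  · intro p hp
    have h1 : p ∈ lam ↔ p ∈ lo := Iff.rfl
    have h2 : p ∈ mu ↔ p ∈ lo \ im := Iff.rfl
    rw [h2, Finset.mem_sdiff] at hp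
    rw [h1]
    exact hp.1
  · intro p q hpq
    obtain ⟨x, rfl⟩ := φ.surjective p
    obtain ⟨y, rfl⟩ := φ.surjective q
    rw [hτ, hτ] at hpq
    congr 1
    rcases lt_trichotomy (ω x) (ω y) with h | h | h
    · exact absurd (hrk x y h) (by omega)
    · exact hω h
    · exact absurd (hrk y x h) (by omega)
  · intro p q h1 h2
    obtain ⟨x, rfl⟩ := φ.surjective p
    obtain ⟨y, rfl⟩ := φ.surjective q
    rw [hτ, hτ]
    rw [hφ, hφ] at h1 h2
    exact hrk x y (hrow x y h1 h2)
  · intro p q h1 h2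
    obtain ⟨x, rfl⟩ := φ.surjective p
    obtain ⟨y, rfl⟩ := φ.surjective q
    rw [hτ, hτ]
    rw [hφ, hφ] at h1 h2
    exact hrk y x (hcol x y h1 h2)
  · intro x y
    unfold StrictCover
    rw [hτ, hτ, hrk', apply_covBy_apply_iff]
  · intro x y
    unfold WeakCover
    rw [hτ, hτ, hrk', apply_covBy_apply_iff]

end Pool.PPart
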