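import Pool.Agent.Lib.PPart.Omega
import Pool.Agent.Lib.PPart.LemmaC
import Pool.Agent.Lib.PPart.Shape

/-!
# The main theorem
-/

namespace Pool.PPart

open Finset Classical OrderDual

/-- `y` is a crossing element: it has a strict lower cover, a weak lower cover, a strict upper
cover and a weak upper cover. -/
def IsCrossing {P α : Type*} [PartialOrder P] [LinearOrder α] (ω : P → α) (y : P) : Prop :=
  (∃ a, StrictCover ω a y) ∧ (∃ b, WeakCover ω b y) ∧ (∃ c, StrictCover ω y c) ∧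
    (∃ d, WeakCover ω y d)

/-- Every north-east square at a crossing element is complete: whenever `x ⋖ₛ y ⋖_w w` with `y`
crossing, there is `z` with `x ⋖_w z ⋖ₛ w`. -/
def NEComplete {P α : Type*} [PartialOrder P] [LinearOrder α] (ω : P → α) : Prop :=
  ∀ x y w, IsCrossing ω y → StrictCover ω x y → WeakCover ω y w →
    ∃ z, WeakCover ω x z ∧ StrictCover ω z w

/-- Every south-west square at a crossing element is complete: whenever `x ⋖_w y ⋖ₛ w` with `y`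
crossing, there is `z` with `x ⋖ₛ z ⋖_w w`. -/
def SWComplete {P α : Type*} [PartialOrder P] [LinearOrder α] (ω : P → α) : Prop :=
  ∀ x y w, IsCrossing ω y → WeakCover ω x y → StrictCover ω y w →
    ∃ z, StrictCover ω x z ∧ WeakCover ω z w

section res

variable {P : Type*} {α : Type*} [PartialOrder P] [LinearOrder α]

theorem covBy_res {S : Finset P} (hc : ∀ a b c, a ≤ b → b ≤ c → a ∉ S → c ∉ S → b ∉ S)
    {x y : {x : P // x ∉ S}} : x ⋖ y ↔ x.1 ⋖ y.1 := by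
  constructor
  · intro h
    refine ⟨h.lt, fun c h1 h2 => ?_⟩
    exact h.2 (c := ⟨c, hc x.1 c y.1 h1.le h2.le x.2 y.2⟩) h1 h2
  · intro h
    exact ⟨h.lt, fun c h1 h2 => h.2 (c := c.1) h1 h2⟩

theorem strict_res {ω : P → α} {S : Finset P}
    (hc : ∀ a b c, a ≤ b → b ≤ c → a ∉ S → c ∉ S → b ∉ S) {x y : {x : P // x ∉ S}} :
    StrictCover (res ω S) x y ↔ StrictCover ω x.1 y.1 := by
  unfold StrictCover
  rw [covBy_res hc]
  rfl

theorem weak_res {ω : P → α} {S : Finset P}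
    (hc : ∀ a b c, a ≤ b → b ≤ c → a ∉ S → c ∉ S → b ∉ S) {x y : {x : P // x ∉ S}} :
    WeakCover (res ω S) x y ↔ WeakCover ω x.1 y.1 := by
  unfold WeakCover
  rw [covBy_res hc]
  rfl

theorem Good.goodOn {ω : P → α} {S : Finset P}
    (hc : ∀ a b c, a ≤ b → b ≤ c → a ∉ S → c ∉ S → b ∉ S) (h : Good (res ω S)) :
    GoodOn ω (fun x => x ∉ S) where
  ls a b y ha hb hy h1 h2 := congrArg Subtype.val
    (h.ls ⟨a, ha⟩ ⟨b, hb⟩ ⟨y, hy⟩ ((strict_res hc).2 h1) ((strict_res hc).2 h2))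
  us x a b hx ha hb h1 h2 := congrArg Subtype.val
    (h.us ⟨x, hx⟩ ⟨a, ha⟩ ⟨b, hb⟩ ((strict_res hc).2 h1) ((strict_res hc).2 h2))
  lw a b y ha hb hy h1 h2 := congrArg Subtype.val
    (h.lw ⟨a, ha⟩ ⟨b, hb⟩ ⟨y, hy⟩ ((weak_res hc).2 h1) ((weak_res hc).2 h2))
  uw x a b hx ha hb h1 h2 := congrArg Subtype.val
    (h.uw ⟨x, hx⟩ ⟨a, ha⟩ ⟨b, hb⟩ ((weak_res hc).2 h1) ((weak_res hc).2 h2))
  sw x y w hx hy hw h1 h2 := by
    obtain ⟨z, hz1, hz2⟩ := h.sw ⟨x, hx⟩ ⟨y, hy⟩ ⟨w, hw⟩ ((strict_res hc).2 h1)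
      ((weak_res hc).2 h2)
    exact ⟨z.1, (weak_res hc).1 hz1, (strict_res hc).1 hz2⟩
  ws x y w hx hy hw h1 h2 := by
    obtain ⟨z, hz1, hz2⟩ := h.ws ⟨x, hx⟩ ⟨y, hy⟩ ⟨w, hw⟩ ((weak_res hc).2 h1)
      ((strict_res hc).2 h2)
    exact ⟨z.1, (strict_res hc).1 hz1, (weak_res hc).1 hz2⟩

theorem NEComplete.res {ω : P → α} {S : Finset P}
    (hc : ∀ a b c, a ≤ b → b ≤ c → a ∉ S → c ∉ S → b ∉ S) (h : NEComplete ω) :
    NEComplete (res ω S) := by
  intro x y w ⟨⟨a, ha⟩, ⟨b, hb⟩, ⟨c, hc'⟩, ⟨d, hd⟩⟩ hxy hyw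
  rw [strict_res hc] at ha hc' hxy
  rw [weak_res hc] at hb hd hyw
  obtain ⟨z, hz1, hz2⟩ := h x.1 y.1 w.1 ⟨⟨_, ha⟩, ⟨_, hb⟩, ⟨_, hc'⟩, ⟨_, hd⟩⟩ hxy hyw
  have hzS := hc x.1 z w.1 hz1.1.le hz2.1.le x.2 w.2
  exact ⟨⟨z, hzS⟩, (weak_res hc).2 hz1, (strict_res hc).2 hz2⟩

end res

section du

variable {P : Type*} {α : Type*} [PartialOrder P] [LinearOrder α]

/-- the dual poset with the same labels -/
def du (ω : P → α) : Pᵒᵈ → α := fun x => ω (ofDual x)

theorem du_strict {ω : P → α} {x y : Pᵒᵈ} :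
    StrictCover (du ω) x y ↔ WeakCover ω (ofDual y) (ofDual x) := by
  unfold StrictCover WeakCover du
  rw [ofDual_covBy_ofDual_iff]

theorem du_weak {ω : P → α} {x y : Pᵒᵈ} :
    WeakCover (du ω) x y ↔ StrictCover ω (ofDual y) (ofDual x) := by
  unfold StrictCover WeakCover du
  rw [ofDual_covBy_ofDual_iff]

theorem du_prec {ω : P → α} {x y : Pᵒᵈ} :
    Prec (du ω) x y ↔ Prec (neg ω) (ofDual y) (ofDual x) := by
  constructor
  · rintro ⟨u, v, h1, h2, h3, h4⟩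
    exact ⟨ofDual v, ofDual u, h3, h2, h1, h4⟩
  · rintro ⟨u, v, h1, h2, h3, h4⟩
    exact ⟨toDual v, toDual u, h3, h2, h1, h4⟩

theorem du_neg_prec {ω : P → α} {x y : Pᵒᵈ} :
    Prec (neg (du ω)) x y ↔ Prec ω (ofDual y) (ofDual x) := by
  constructor
  · rintro ⟨u, v, h1, h2, h3, h4⟩
    exact ⟨ofDual v, ofDual u, h3, h2, h1, h4⟩
  · rintro ⟨u, v, h1, h2, h3, h4⟩
    exact ⟨toDual v, toDual u, h3, h2, h1, h4⟩

theorem GoodOn.du {ω : P → α} {S : P → Prop} (h : GoodOn ω S) :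
    GoodOn (du ω) (fun x => S (ofDual x)) where
  ls a b y ha hb hy h1 h2 := h.uw _ _ _ hy ha hb (du_strict.1 h1) (du_strict.1 h2)
  us x a b hx ha hb h1 h2 := h.lw _ _ _ ha hb hx (du_strict.1 h1) (du_strict.1 h2)
  lw a b y ha hb hy h1 h2 := h.us _ _ _ hy ha hb (du_weak.1 h1) (du_weak.1 h2)
  uw x a b hx ha hb h1 h2 := h.ls _ _ _ ha hb hx (du_weak.1 h1) (du_weak.1 h2)
  sw x y w hx hy hw h1 h2 := by
    obtain ⟨z, hz1, hz2⟩ := h.sw _ _ _ hw hy hx (du_weak.1 h2) (du_strict.1 h1)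
    exact ⟨toDual z, du_weak.2 hz2, du_strict.2 hz1⟩
  ws x y w hx hy hw h1 h2 := by
    obtain ⟨z, hz1, hz2⟩ := h.ws _ _ _ hw hy hx (du_strict.1 h2) (du_weak.1 h1)
    exact ⟨toDual z, du_strict.2 hz2, du_weak.2 hz1⟩

variable [Fintype P]

theorem sym_neg' {ω : P → α} (hω : Function.Injective ω) (hs : Sym ω) : Sym (neg ω) :=
  sym_neg hω hs

theorem sym_du {ω : P → α} (hω : Function.Injective ω) (hs : Sym ω) : Sym (du ω) :=
  (sym_dn (sym_neg' hω hs)).congr (OrderIso.refl _) (fun _ _ _ => Iff.rfl)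

theorem mem_U_du {ω : P → α} {x : Pᵒᵈ} : x ∈ U (du ω) ↔ ofDual x ∈ J (neg ω) := by
  rw [mem_U, mem_J]
  exact ⟨fun h a ha => h (toDual a) (du_prec.2 ha), fun h a ha => h (ofDual a) (du_prec.1 ha)⟩

theorem mem_J_du {ω : P → α} {x : Pᵒᵈ} : x ∈ J (du ω) ↔ ofDual x ∈ U (neg ω) := by
  rw [mem_U, mem_J]
  exact ⟨fun h a ha => h (toDual a) (du_prec.2 ha), fun h a ha => h (ofDual a) (du_prec.1 ha)⟩

theorem mem_U_neg_du {ω : P → α} {x : Pᵒᵈ} : x ∈ U (neg (du ω)) ↔ ofDual x ∈ J ω := by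
  rw [mem_U, mem_J]
  exact ⟨fun h a ha => h (toDual a) (du_neg_prec.2 ha),
    fun h a ha => h (ofDual a) (du_neg_prec.1 ha)⟩

theorem mem_J_neg_du {ω : P → α} {x : Pᵒᵈ} : x ∈ J (neg (du ω)) ↔ ofDual x ∈ U ω := by
  rw [mem_U, mem_J]
  exact ⟨fun h a ha => h (toDual a) (du_neg_prec.2 ha),
    fun h a ha => h (ofDual a) (du_neg_prec.1 ha)⟩

theorem Setup.du {ω : P → α} (h : Setup ω) : Setup (du ω) where
  inj := fun _ _ hxy => h.inj hxy
  sym := sym_du h.inj h.sym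
  R := by simpa only [mem_U_du] using h.Q'.du
  R' := by simpa only [mem_U_neg_du] using h.Q.du
  Q := by simpa only [mem_J_du] using h.R'.du
  Q' := by simpa only [mem_J_neg_du] using h.R.du

/-- a failing square has its middle element outside `U`, so it has a strict upper cover -/
theorem Setup.exists_strict_above {ω : P → α} (h : Setup ω) {x y w : P}
    (hxy : StrictCover ω x y) (hyw : WeakCover ω y w)
    (hfail : ¬ ∃ z, WeakCover ω x z ∧ StrictCover ω z w) : ∃ v, StrictCover ω y v := by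
  have h1 := h.lemmaC hxy hyw hfail
  rw [mem_U] at h1
  push Not at h1
  obtain ⟨b, hb⟩ := h1
  obtain ⟨u, v, h2, h3, h4⟩ := hb.exists_cover
  have hyJ : y ∉ J ω := fun h5 => (mem_J.1 h5) x hxy.prec
  obtain ⟨v', hv', _⟩ := h.Q.strict_above h.inj (x := y) (p := u) (q := v)
    (fun z hz _ hzJ => hyJ (J_low ω z hzJ y hz)) h2 h3
  exact ⟨v', hv'⟩

theorem Setup.SW {ω : P → α} (h : Setup ω) (hne : NEComplete ω) : SW ω := by
  intro x y w hxy hyw
  by_contra hfail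
  obtain ⟨c, hc⟩ := h.exists_strict_above hxy hyw hfail
  obtain ⟨b, hb⟩ := h.du.exists_strict_above (x := toDual w) (y := toDual y) (w := toDual x)
    (du_strict.2 hyw) (du_weak.2 hxy) (by
      rintro ⟨z, hz1, hz2⟩
      exact hfail ⟨ofDual z, du_strict.1 hz2, du_weak.1 hz1⟩)
  exact hfail (hne x y w ⟨⟨x, hxy⟩, ⟨ofDual b, du_strict.1 hb⟩, ⟨c, hc⟩, ⟨w, hyw⟩⟩ hxy hyw)

theorem good_of_SW {ω : P → α} (hω : Function.Injective ω) (hs : Sym ω) (hsw : SW ω) :
    Good ω := by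
  obtain ⟨h1, h2, h3⟩ := half_good hω hs hsw
  have hω' : Function.Injective (neg ω) := fun _ _ h => hω (toDual.injective h)
  obtain ⟨h4, h5, _⟩ := half_good hω' (sym_neg' hω hs) (fun x y w hxy hyw => h3 x y w hxy hyw)
  exact ⟨h1, h2, h4, h5, hsw, h3⟩

theorem sym_res_J' {ω : P → α} (hω : Function.Injective ω) (hs : Sym ω) :
    Sym (res ω (J (neg ω))) := by
  have h1 := sym_res_J (sym_neg' hω hs)
  have hinj : Function.Injective (res (neg ω) (J (neg ω))) :=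
    fun _ _ h => Subtype.ext (hω (toDual.injective h))
  exact (sym_neg' hinj h1).congr (OrderIso.refl _) (fun _ _ _ => Iff.rfl)

theorem sym_res_U' {ω : P → α} (hω : Function.Injective ω) (hs : Sym ω) :
    Sym (res ω (U (neg ω))) := by
  have h1 := sym_res_U (sym_neg' hω hs)
  have hinj : Function.Injective (res (neg ω) (U (neg ω))) :=
    fun _ _ h => Subtype.ext (hω (toDual.injective h))
  exact (sym_neg' hinj h1).congr (OrderIso.refl _) (fun _ _ _ => Iff.rfl)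

theorem J_nonempty [Nonempty P] (ω : P → α) : (J ω).Nonempty := by
  obtain ⟨m, _, hm⟩ := (wellFounded_lt (α := P)).has_min Set.univ ⟨Classical.arbitrary P, trivial⟩
  refine ⟨m, mem_J.2 fun a ha => ?_⟩
  exact hm a trivial ha.lt

theorem U_nonempty [Nonempty P] (ω : P → α) : (U ω).Nonempty := by
  obtain ⟨m, _, hm⟩ := (wellFounded_gt (α := P)).has_min Set.univ ⟨Classical.arbitrary P, trivial⟩
  refine ⟨m, mem_U.2 fun a ha => ?_⟩
  exact hm a trivial ha.lt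

omit [PartialOrder P] in
theorem card_res_lt {S : Finset P} (hS : S.Nonempty) :
    Fintype.card {x : P // x ∉ S} < Fintype.card P := by
  obtain ⟨x, hx⟩ := hS
  exact Fintype.card_subtype_lt (x := x) (by simpa using hx)

end du

universe u v

theorem main_good : ∀ (n : ℕ) (P : Type u) [PartialOrder P] [Fintype P] (α : Type v)
    [LinearOrder α] (ω : P → α), Fintype.card P = n → Function.Injective ω → Sym ω →
    NEComplete ω → Good ω := by
  intro n
  induction n using Nat.strong_induction_on with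
  | _ n ih =>
  intro P _ _ α _ ω hn hω hs hne
  rcases isEmpty_or_nonempty P with hP | hP
  · exact ⟨fun a => hP.elim a, fun a => hP.elim a, fun a => hP.elim a, fun a => hP.elim a,
      fun a => hP.elim a, fun a => hP.elim a⟩
  have hresinj : ∀ S : Finset P, Function.Injective (res ω S) :=
    fun S _ _ h => Subtype.ext (hω h)
  have hcJ : ∀ ω' : P → α, ∀ a b c, a ≤ b → b ≤ c → a ∉ J ω' → c ∉ J ω' → b ∉ J ω' :=
    fun ω' a b c hab _ ha _ hb => ha (J_low ω' b hb a hab)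
  have hcJ' : ∀ a b c, a ≤ b → b ≤ c → a ∉ J (neg ω) → c ∉ J (neg ω) → b ∉ J (neg ω) :=
    fun a b c hab _ ha _ hb => ha (J_low _ b hb a hab)
  have hcU : ∀ a b c, a ≤ b → b ≤ c → a ∉ U ω → c ∉ U ω → b ∉ U ω :=
    fun a b c _ hbc _ hc hb => hc (U_up hbc hb)
  have hcU' : ∀ a b c, a ≤ b → b ≤ c → a ∉ U (neg ω) → c ∉ U (neg ω) → b ∉ U (neg ω) :=
    fun a b c _ hbc _ hc hb => hc (U_up hbc hb)
  have hgo : ∀ S : Finset P, S.Nonempty →
      (∀ a b c, a ≤ b → b ≤ c → a ∉ S → c ∉ S → b ∉ S) → Sym (res ω S) →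
      GoodOn ω (fun x => x ∉ S) := by
    intro S hS hc hsym
    exact (ih _ (by rw [← hn]; exact card_res_lt hS) {x : P // x ∉ S} α (res ω S) rfl
      (hresinj S) hsym (hne.res hc)).goodOn hc
  have hsetup : Setup ω :=
    { inj := hω
      sym := hs
      R := hgo _ (U_nonempty ω) hcU (sym_res_U hs)
      R' := hgo _ (U_nonempty (neg ω)) hcU' (sym_res_U' hω hs)
      Q := hgo _ (J_nonempty ω) (hcJ ω) (sym_res_J hs)
      Q' := hgo _ (J_nonempty (neg ω)) hcJ' (sym_res_J' hω hs) }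
  exact good_of_SW hω hs (hsetup.SW hne)

theorem Good.of_neg {P : Type*} {α : Type*} [PartialOrder P] [LinearOrder α] {ω : P → α}
    (h : Good (neg ω)) : Good ω :=
  ⟨h.lw, h.uw, h.ls, h.us, h.ws, h.sw⟩

/-- **Main theorem** -/
theorem main_theorem {P : Type u} [PartialOrder P] [Fintype P] {α : Type v} [LinearOrder α]
    (ω : P → α) (hω : Function.Injective ω) (hsym : IsSymmetric (enumerator ω))
    (h : NEComplete ω ∨ SWComplete ω) : IsSkewShape ω := by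
  have hs := sym_of_isSymmetric hsym
  apply skew_of_good hω
  rcases h with h | h
  · exact main_good _ P α ω rfl hω hs h
  · apply Good.of_neg
    refine main_good _ P αᵒᵈ (neg ω) rfl (fun _ _ h => hω (toDual.injective h))
      (sym_neg' hω hs) ?_
    intro x y w ⟨h1, h2, h3, h4⟩ hxy hyw
    exact h x y w ⟨h2, h1, h4, h3⟩ hxy hyw

end Pool.PPart
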