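import Pool.Agent.Lib.PPart.Defs

/-!
# Counting P-partitions with a prescribed list of contents
-/

namespace Pool.PPart

open Finset Classical

variable {P : Type*} {α : Type*}

/-- fibre cardinality -/
noncomputable def fc [Fintype P] (f : P → ℕ) (i : ℕ) : ℕ :=
  (univ.filter (fun x => f x = i)).card

theorem content_apply [Fintype P] (f : P → ℕ) (i : ℕ) : content f i = fc f i := by
  rw [content, fc, Finsupp.finsetSum_apply, Finset.card_filter]
  simp only [Finsupp.single_apply]

/-- `f` takes the value `i` exactly `L i` times -/
def HasContent [Fintype P] (f : P → ℕ) (L : List ℕ) : Prop := ∀ i, fc f i = L.getD i 0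

theorem hasContent_iff [Fintype P] (f : P → ℕ) (L : List ℕ) :
    HasContent f L ↔ content f = L.toFinsupp := by
  constructor
  · intro h
    ext i
    rw [content_apply, h i, List.toFinsupp_apply]
  · intro h i
    rw [← content_apply, h, List.toFinsupp_apply]

/-- number of `(P, ω)`-partitions with contents `L` -/
noncomputable def N [PartialOrder P] [Fintype P] [LinearOrder α] (ω : P → α) (L : List ℕ) : ℕ :=
  Nat.card {f : P → ℕ // IsPPartition ω f ∧ HasContent f L}

/-- symmetric counts -/
def Sym [PartialOrder P] [Fintype P] [LinearOrder α] (ω : P → α) : Prop :=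
  ∀ L L' : List ℕ, L.Perm L' → N ω L = N ω L'

/-- extend a permutation of `ℕ` by fixing `0` -/
def shiftPerm (σ : Equiv.Perm ℕ) : Equiv.Perm ℕ where
  toFun n := match n with
    | 0 => 0
    | n + 1 => σ n + 1
  invFun n := match n with
    | 0 => 0
    | n + 1 => σ.symm n + 1
  left_inv n := by cases n <;> simp
  right_inv n := by cases n <;> simp

theorem exists_perm {L L' : List ℕ} (h : L.Perm L') :
    ∃ σ : Equiv.Perm ℕ, ∀ i, L'.getD (σ i) 0 = L.getD i 0 := by
  induction h with
  | nil => exact ⟨Equiv.refl _, fun i => rfl⟩
  | cons x _ ih =>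
    obtain ⟨σ, hσ⟩ := ih
    refine ⟨shiftPerm σ, fun i => ?_⟩
    cases i with
    | zero => simp [shiftPerm]
    | succ n => simpa [shiftPerm] using hσ n
  | swap x y l =>
    refine ⟨Equiv.swap 0 1, fun i => ?_⟩
    rcases i with _ | _ | i
    · simp
    · simp
    · rw [Equiv.swap_apply_of_ne_of_ne (by omega) (by omega)]
      simp
  | trans _ _ ih1 ih2 =>
    obtain ⟨σ, hσ⟩ := ih1
    obtain ⟨τ, hτ⟩ := ih2
    exact ⟨σ.trans τ, fun i => by rw [Equiv.trans_apply, hτ, hσ]⟩

theorem toFinsupp_perm {L L' : List ℕ} (h : L.Perm L') :
    ∃ σ : Equiv.Perm ℕ, L'.toFinsupp = L.toFinsupp.mapDomain σ := by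
  obtain ⟨σ, hσ⟩ := exists_perm h
  refine ⟨σ, ?_⟩
  ext i
  obtain ⟨j, rfl⟩ := σ.surjective i
  rw [Finsupp.mapDomain_apply σ.injective, List.toFinsupp_apply, List.toFinsupp_apply, hσ]

theorem N_eq_coeff [PartialOrder P] [Fintype P] [LinearOrder α] (ω : P → α) (L : List ℕ) :
    (N ω L : ℤ) = MvPowerSeries.coeff L.toFinsupp (enumerator ω) := by
  have : (MvPowerSeries.coeff L.toFinsupp (enumerator ω) : ℤ) =
      (Nat.card {f : P → ℕ // IsPPartition ω f ∧ content f = L.toFinsupp} : ℤ) := rfl
  rw [this, N]
  congr 2
  simp only [hasContent_iff]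

theorem sym_of_isSymmetric [PartialOrder P] [Fintype P] [LinearOrder α] {ω : P → α}
    (h : IsSymmetric (enumerator ω)) : Sym ω := by
  intro L L' hL
  obtain ⟨σ, hσ⟩ := toFinsupp_perm hL
  have h1 := h σ L.toFinsupp
  rw [← hσ, ← N_eq_coeff, ← N_eq_coeff] at h1
  exact_mod_cast h1.symm

theorem lt_of_hasContent [Fintype P] {f : P → ℕ} {L : List ℕ} (h : HasContent f L) (x : P) :
    f x < L.length := by
  by_contra hx
  push Not at hx
  have h1 := h (f x)
  rw [List.getD_eq_default _ _ hx, fc, Finset.card_eq_zero] at h1
  have : x ∈ univ.filter (fun y => f y = f x) := by simp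
  rw [h1] at this
  simp at this

instance finite_hasContent [PartialOrder P] [Fintype P] [LinearOrder α] (ω : P → α) (L : List ℕ) :
    Finite {f : P → ℕ // IsPPartition ω f ∧ HasContent f L} := by
  have : Finite (P → Fin L.length) := inferInstance
  refine Finite.of_injective (fun f : {f : P → ℕ // IsPPartition ω f ∧ HasContent f L} =>
    (fun x => (⟨f.1 x, lt_of_hasContent f.2.2 x⟩ : Fin L.length))) ?_
  intro f g hfg
  apply Subtype.ext
  funext x
  have := congrFun hfg x
  simpa using this

theorem sum_fc [Fintype P] (f : P → ℕ) (n : ℕ) (h : ∀ x, f x < n) :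
    ∑ i ∈ range n, fc f i = Fintype.card P := by
  rw [← Finset.card_univ]
  rw [Finset.card_eq_sum_card_fiberwise (f := f) (t := range n)]
  · rfl
  · intro x _
    simpa using h x

/-- the block function of a list: `blk L t` is the index of the block containing `t` -/
def blk : List ℕ → ℕ → ℕ
  | [], _ => 0
  | c :: L, t => if t < c then 0 else blk L (t - c) + 1

theorem blk_mono (L : List ℕ) : Monotone (blk L) := by
  induction L with
  | nil => intro a b _; simp [blk]
  | cons c L ih =>
    intro a b hab
    simp only [blk]
    split_ifs with h1 h2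
    · exact le_rfl
    · omega
    · omega
    · have := ih (show a - c ≤ b - c by omega)
      omega

theorem blk_lt (L : List ℕ) (t : ℕ) (h : t < L.sum) : blk L t < L.length := by
  induction L generalizing t with
  | nil => simp at h
  | cons c L ih =>
    simp only [blk]
    split_ifs with h1
    · simp
    · simp only [List.sum_cons] at h
      have := ih (t - c) (by omega)
      simp only [List.length_cons]
      omega

theorem card_blk (L : List ℕ) (i : ℕ) :
    ((range L.sum).filter (fun t => blk L t = i)).card = L.getD i 0 := by
  induction L generalizing i with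
  | nil => simp
  | cons c L ih =>
    cases i with
    | zero =>
      have : (range (c :: L).sum).filter (fun t => blk (c :: L) t = 0) = range c := by
        ext t
        rw [Finset.mem_filter, Finset.mem_range, Finset.mem_range, List.sum_cons]
        simp only [blk]
        constructor
        · rintro ⟨_, h⟩
          by_contra h'
          simp [h'] at h
        · intro h
          exact ⟨by omega, by simp [h]⟩
      rw [this]
      simp
    | succ n =>
      have : (range (c :: L).sum).filter (fun t => blk (c :: L) t = n + 1) =
          ((range L.sum).filter (fun t => blk L t = n)).map (addLeftEmbedding c) := by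
        ext t
        rw [Finset.mem_filter, Finset.mem_range, List.sum_cons, Finset.mem_map]
        simp only [blk, Finset.mem_filter, Finset.mem_range, addLeftEmbedding_apply]
        constructor
        · rintro ⟨h1, h2⟩
          split_ifs at h2 with h3
          exact ⟨t - c, ⟨by omega, by omega⟩, by omega⟩
        · rintro ⟨a, ⟨h1, h2⟩, rfl⟩
          refine ⟨by omega, ?_⟩
          simp [h2]
      rw [this, Finset.card_map, ih]
      simp

theorem blk_append (L L' : List ℕ) (t : ℕ) :
    blk (L ++ L') t = if t < L.sum then blk L t else blk L' (t - L.sum) + L.length := by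
  induction L generalizing t with
  | nil => simp
  | cons c L ih =>
    simp only [List.cons_append, blk, List.sum_cons, ih, List.length_cons]
    split_ifs <;> try omega
    · rw [show t - c - L.sum = t - (c + L.sum) by omega]
      omega

theorem blk_ones (a t : ℕ) (h : t < a) : blk (List.replicate a 1) t = t := by
  induction a generalizing t with
  | zero => omega
  | succ a ih =>
    simp only [List.replicate_succ, blk]
    split_ifs with h1
    · omega
    · rw [ih (t - 1) (by omega)]
      omega

end Pool.PPart
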