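import Mathlib

/-!
# P-partitions, their enumerators, and skew shapes: definitions
-/

namespace Pool.PPart

open Finset

variable {P : Type*} {α : Type*}

/-- `f` is a `(P, ω)`-partition: it is weakly order preserving, and strictly so on the pairs
`x < y` whose labels decrease. (Values are `0, 1, 2, …`.) -/
def IsPPartition [PartialOrder P] [LinearOrder α] (ω : P → α) (f : P → ℕ) : Prop :=
  ∀ x y : P, x < y → f x ≤ f y ∧ (ω y < ω x → f x < f y)

/-- The exponent vector of the monomial `∏ p, X (f p)`. -/
noncomputable def content [Fintype P] (f : P → ℕ) : ℕ →₀ ℕ :=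
  ∑ p : P, Finsupp.single (f p) 1

/-- The `P`-partition enumerator `K_{P, ω} = ∑ f, ∏ p, X (f p)`, the sum over all
`(P, ω)`-partitions `f`: the coefficient of the monomial with exponent vector `d` is the number
of `(P, ω)`-partitions `f` with `content f = d`. -/
noncomputable def enumerator [PartialOrder P] [Fintype P] [LinearOrder α] (ω : P → α) :
    MvPowerSeries ℕ ℤ :=
  fun d => (Nat.card {f : P → ℕ // IsPPartition ω f ∧ content f = d} : ℤ)

/-- A power series in the variables `X 0, X 1, …` is symmetric if its coefficients are invariant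
under every permutation of the variables. -/
def IsSymmetric (F : MvPowerSeries ℕ ℤ) : Prop :=
  ∀ (σ : Equiv.Perm ℕ) (d : ℕ →₀ ℕ),
    MvPowerSeries.coeff (d.mapDomain σ) F = MvPowerSeries.coeff d F

/-- A strict covering pair: `y` covers `x` and the labels decrease. -/
def StrictCover [PartialOrder P] [LinearOrder α] (ω : P → α) (x y : P) : Prop :=
  x ⋖ y ∧ ω y < ω x

/-- A weak covering pair: `y` covers `x` and the labels increase. -/
def WeakCover [PartialOrder P] [LinearOrder α] (ω : P → α) (x y : P) : Prop :=
  x ⋖ y ∧ ω x < ω y

/-- The cells `(row, column)` of the skew diagram `lam / mu`, ordered by the product order. -/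
def Cells (mu lam : YoungDiagram) : Set (ℕ × ℕ) := {c | c ∈ lam ∧ c ∉ mu}

/-- A column-strict labelling of the skew diagram `lam / mu`: distinct labels, increasing along
each row from left to right and decreasing down each column. -/
def IsColumnStrict {mu lam : YoungDiagram} (τ : Cells mu lam → ℕ) : Prop :=
  Function.Injective τ ∧
  (∀ c d : Cells mu lam, c.1.1 = d.1.1 → c.1.2 < d.1.2 → τ c < τ d) ∧
  (∀ c d : Cells mu lam, c.1.2 = d.1.2 → c.1.1 < d.1.1 → τ d < τ c)

/-- The labelled poset `(P, ω)` is a skew shape with a column-strict labelling: there are a skew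
diagram `lam / mu` with a column-strict labelling `τ` and a poset isomorphism from `P` to its set
of cells which keeps strict covering pairs strict and weak covering pairs weak. -/
def IsSkewShape [PartialOrder P] [LinearOrder α] (ω : P → α) : Prop :=
  ∃ (mu lam : YoungDiagram) (τ : Cells mu lam → ℕ) (φ : P ≃o Cells mu lam),
    mu ≤ lam ∧ IsColumnStrict τ ∧
    (∀ x y : P, StrictCover ω x y ↔ StrictCover τ (φ x) (φ y)) ∧
    (∀ x y : P, WeakCover ω x y ↔ WeakCover τ (φ x) (φ y))

end Pool.PPart
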