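import Pool.Agent.Lib.PPart.Star2

/-!
# Local conditions
-/

namespace Pool.PPart

open Finset Classical

variable {P : Type*} {α : Type*} [PartialOrder P] [LinearOrder α]

/-- local conditions satisfied by skew shapes -/
structure Good (ω : P → α) : Prop where
  ls : ∀ a b y, StrictCover ω a y → StrictCover ω b y → a = b
  us : ∀ x a b, StrictCover ω x a → StrictCover ω x b → a = b
  lw : ∀ a b y, WeakCover ω a y → WeakCover ω b y → a = b
  uw : ∀ x a b, WeakCover ω x a → WeakCover ω x b → a = b
  sw : SW ω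
  ws : WS ω

theorem strict_or_weak {ω : P → α} (hω : Function.Injective ω) {x y : P} (h : x ⋖ y) :
    StrictCover ω x y ∨ WeakCover ω x y := by
  rcases lt_or_gt_of_ne (hω.ne h.ne) with h2 | h2
  · exact Or.inr ⟨h, h2⟩
  · exact Or.inl ⟨h, h2⟩

theorem StrictCover.not_weak {ω : P → α} {x y : P} (h : StrictCover ω x y) : ¬ WeakCover ω x y :=
  fun h' => lt_asymm h.2 h'.2

variable [Fintype P]

theorem fullAtt_univ {ω : P → α} (hω : Function.Injective ω) (hs : Sym ω) (hsw : SW ω) :
    FullAtt ω (univ : Finset P) := by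
  refine ⟨fun _ _ _ _ => Finset.mem_univ _, Finset.subset_univ _, ?_⟩
  intro B _ hB hJ
  have := Finset.card_le_card hJ
  exact star hω hs hsw (B.card - (J ω).card) B hB hJ (by omega)

theorem half_good {ω : P → α} (hω : Function.Injective ω) (hs : Sym ω) (hsw : SW ω) :
    (∀ a b y, StrictCover ω a y → StrictCover ω b y → a = b) ∧
    (∀ x a b, StrictCover ω x a → StrictCover ω x b → a = b) ∧ WS ω := by
  have hF := fullAtt_univ hω hs hsw
  refine ⟨?_, ?_, ?_⟩
  · intro a b y ha hb
    rw [hF.eq_mi (Finset.mem_univ y) ha.pr, hF.eq_mi (Finset.mem_univ y) hb.pr]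
  · intro x a b ha hb
    apply hF.injOn_mi
    · simpa using ha.pr.not_mem_J
    · simpa using hb.pr.not_mem_J
    · rw [← hF.eq_mi (Finset.mem_univ a) ha.pr, ← hF.eq_mi (Finset.mem_univ b) hb.pr]
  · intro x y w hxy hyw
    have h1 : Prec ω x w := hyw.prec.mono hxy.1.le le_rfl
    obtain ⟨z, hzw, hz⟩ := h1.exists_pr
    have hzJ := hz.not_mem_J
    have hxz := hF.eq_mi (Finset.mem_univ z) hz
    have hyw' := hF.eq_mi (Finset.mem_univ w) hyw.pr
    have hxz' : StrictCover ω x z := by
      rw [hxz]; exact hF.strictCover_mi (Finset.mem_univ z) hzJ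
    have hne : z ≠ w := by
      rintro rfl
      exact hxy.1.ne (hxz.trans hyw'.symm)
    have hlt : z < w := lt_of_le_of_ne hzw hne
    have hcov : z ⋖ w := by
      refine ⟨hlt, ?_⟩
      intro t hzt htw
      have htJ : t ∉ J ω := fun h => hzJ (J_low ω t h z hzt.le)
      have h2 := hF.mi_lt hω hsw (Finset.mem_univ t) hzJ hzt
      have h3 := hF.mi_lt hω hsw (Finset.mem_univ w) htJ htw
      rw [← hxz] at h2
      rw [← hyw'] at h3
      exact hxy.1.2 h2 h3
    refine ⟨z, hxz', ?_⟩
    rcases strict_or_weak hω hcov with h4 | h4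
    · have h5 := hF.eq_mi (Finset.mem_univ w) h4.pr
      rw [← hyw'] at h5
      subst h5
      exact absurd hxy hxz'.not_weak
    · exact h4

end Pool.PPart
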