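import Pool.Agent.Lib.PPart.Star3
import Pool.Agent.Lib.PPart.Local

/-!
# Order duals, restriction to `P ∖ J`, transport
-/

namespace Pool.PPart

open Finset Classical OrderDual

variable {P P' : Type*} {α β : Type*} [PartialOrder P] [LinearOrder α] [Fintype P]
  [PartialOrder P'] [LinearOrder β] [Fintype P']

omit [PartialOrder P] [PartialOrder P'] in
theorem fc_comp_equiv (e : P ≃ P') (f : P' → ℕ) (i : ℕ) : fc (fun x => f (e x)) i = fc f i := by
  unfold fc
  refine Finset.card_bij (fun x _ => e x) ?_ ?_ ?_
  · intro a ha
    rw [Finset.mem_filter] at ha ⊢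
    exact ⟨Finset.mem_univ _, ha.2⟩
  · intro a _ b _ h
    exact e.injective h
  · intro b hb
    rw [Finset.mem_filter] at hb
    exact ⟨e.symm b, by rw [Finset.mem_filter]; simpa using hb.2, by simp⟩

/-- transport of the counts along an isomorphism preserving descents -/
theorem N_congr {ω : P → α} {ω' : P' → β} (e : P ≃o P')
    (h : ∀ x y, x < y → (ω y < ω x ↔ ω' (e y) < ω' (e x))) (L : List ℕ) : N ω L = N ω' L := by
  unfold N
  symm
  refine Nat.card_congr
    { toFun := fun f => ⟨fun x => f.1 (e x), ?_, ?_⟩
      invFun := fun f => ⟨fun x => f.1 (e.symm x), ?_, ?_⟩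
      left_inv := fun f => by apply Subtype.ext; funext x; simp
      right_inv := fun f => by apply Subtype.ext; funext x; simp }
  · intro x y hxy
    have h1 := f.2.1 (e x) (e y) (e.strictMono hxy)
    exact ⟨h1.1, fun h2 => h1.2 ((h x y hxy).1 h2)⟩
  · intro i
    have h1 := fc_comp_equiv e.toEquiv f.1 i
    exact h1.trans (f.2.2 i)
  · intro x y hxy
    have h1 := f.2.1 (e.symm x) (e.symm y) (e.symm.strictMono hxy)
    refine ⟨h1.1, fun h2 => h1.2 ?_⟩
    rw [h _ _ (e.symm.strictMono hxy)]
    simpa using h2
  · intro i
    have h1 := fc_comp_equiv e.symm.toEquiv f.1 i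
    exact h1.trans (f.2.2 i)

theorem Sym.congr {ω : P → α} {ω' : P' → β} (hs : Sym ω) (e : P ≃o P')
    (h : ∀ x y, x < y → (ω y < ω x ↔ ω' (e y) < ω' (e x))) : Sym ω' := by
  intro L L' hL
  rw [← N_congr e h, ← N_congr e h]
  exact hs L L' hL

/-- the dual poset with the reversed labelling -/
def dn (ω : P → α) : Pᵒᵈ → αᵒᵈ := fun x => toDual (ω (ofDual x))

omit [Fintype P] in
theorem dn_strict {ω : P → α} {x y : P} :
    StrictCover (dn ω) (toDual x) (toDual y) ↔ StrictCover ω y x := by
  unfold StrictCover dn
  rw [toDual_covBy_toDual_iff, toDual_lt_toDual]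
  rfl

omit [Fintype P] in
theorem dn_weak {ω : P → α} {x y : P} :
    WeakCover (dn ω) (toDual x) (toDual y) ↔ WeakCover ω y x := by
  unfold WeakCover dn
  rw [toDual_covBy_toDual_iff, toDual_lt_toDual]
  rfl

omit [Fintype P] in
theorem dn_prec {ω : P → α} {x y : P} : Prec (dn ω) (toDual x) (toDual y) ↔ Prec ω y x := by
  constructor
  · rintro ⟨u, v, h1, h2, h3, h4⟩
    exact ⟨ofDual v, ofDual u, h3, h2, h1, h4⟩
  · rintro ⟨u, v, h1, h2, h3, h4⟩
    exact ⟨toDual v, toDual u, h3, h2, h1, h4⟩

theorem N_dn (ω : P → α) (L : List ℕ) : N (dn ω) L = N ω L.reverse := by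
  unfold N
  refine Nat.card_congr
    { toFun := fun f => ⟨fun x => L.length - 1 - f.1 (toDual x), ?_, ?_⟩
      invFun := fun f => ⟨fun x => L.length - 1 - f.1 (ofDual x), ?_, ?_⟩
      left_inv := fun f => by
        apply Subtype.ext; funext x
        have := lt_of_hasContent f.2.2 x
        simp only [toDual_ofDual]
        omega
      right_inv := fun f => by
        apply Subtype.ext; funext x
        have := lt_of_hasContent f.2.2 x
        rw [List.length_reverse] at this
        simp only [ofDual_toDual]
        omega }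
  · intro x y hxy
    have h1 := f.2.1 (toDual y) (toDual x) hxy
    have h2 := lt_of_hasContent f.2.2 (toDual x)
    beta_reduce
    refine ⟨by omega, fun h3 => ?_⟩
    have h4 := h1.2 h3
    omega
  · intro i
    by_cases hi : i < L.length
    · have h1 : fc (fun x : P => L.length - 1 - f.1 (toDual x)) i = fc f.1 (L.length - 1 - i) := by
        unfold fc
        refine Finset.card_bij (fun x _ => toDual x) ?_ ?_ ?_
        · intro a ha
          rw [Finset.mem_filter] at ha ⊢
          have h2 := lt_of_hasContent f.2.2 (toDual a)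
          have h3 := ha.2
          beta_reduce at h3
          exact ⟨Finset.mem_univ _, by omega⟩
        · intro a _ b _ h
          exact h
        · intro b hb
          rw [Finset.mem_filter] at hb
          refine ⟨ofDual b, ?_, rfl⟩
          rw [Finset.mem_filter]
          refine ⟨Finset.mem_univ _, ?_⟩
          have := lt_of_hasContent f.2.2 b
          simp only [toDual_ofDual]
          omega
      rw [h1, f.2.2]
      simp only [List.getD_eq_getElem?_getD]
      rw [List.getElem?_reverse hi]
    · rw [List.getD_eq_default _ _ (by rw [List.length_reverse]; omega), fc, Finset.card_eq_zero,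
        Finset.filter_eq_empty_iff]
      intro x _
      have := lt_of_hasContent f.2.2 (toDual x)
      omega
  · intro x y hxy
    have h1 := f.2.1 (ofDual y) (ofDual x) hxy
    have h2 := lt_of_hasContent f.2.2 (ofDual x)
    rw [List.length_reverse] at h2
    beta_reduce
    refine ⟨by omega, fun h3 => ?_⟩
    have h4 := h1.2 h3
    omega
  · intro i
    by_cases hi : i < L.length
    · have h1 : fc (fun x : Pᵒᵈ => L.length - 1 - f.1 (ofDual x)) i =
          fc f.1 (L.length - 1 - i) := by
        unfold fc
        refine Finset.card_bij (fun x _ => ofDual x) ?_ ?_ ?_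
        · intro a ha
          rw [Finset.mem_filter] at ha ⊢
          have h2 := lt_of_hasContent f.2.2 (ofDual a)
          rw [List.length_reverse] at h2
          have h3 := ha.2
          beta_reduce at h3
          exact ⟨Finset.mem_univ _, by omega⟩
        · intro a _ b _ h
          exact h
        · intro b hb
          rw [Finset.mem_filter] at hb
          refine ⟨toDual b, ?_, rfl⟩
          rw [Finset.mem_filter]
          refine ⟨Finset.mem_univ _, ?_⟩
          have := lt_of_hasContent f.2.2 b
          rw [List.length_reverse] at this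
          simp only [ofDual_toDual]
          omega
      rw [h1, f.2.2]
      simp only [List.getD_eq_getElem?_getD]
      rw [List.getElem?_reverse (by omega)]
      congr 2
      omega
    · rw [List.getD_eq_default _ _ (by omega), fc, Finset.card_eq_zero,
        Finset.filter_eq_empty_iff]
      intro x _
      have := lt_of_hasContent f.2.2 (ofDual x)
      rw [List.length_reverse] at this
      omega

theorem sym_dn {ω : P → α} (hs : Sym ω) : Sym (dn ω) := by
  intro L L' hL
  rw [N_dn, N_dn]
  exact hs _ _ (((List.reverse_perm L).trans hL).trans (List.reverse_perm L').symm)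

/-- the restriction of a labelling to the complement of a finite set -/
def res (ω : P → α) (S : Finset P) : {x : P // x ∉ S} → α := fun x => ω x.1

/-- first block of size `|J|` -/
theorem N_cons_J (ω : P → α) (L : List ℕ) :
    N ω ((J ω).card :: L) = N (res ω (J ω)) L := by
  unfold N
  have hJ0 : ∀ f : P → ℕ, IsPPartition ω f → HasContent f ((J ω).card :: L) →
      ∀ x, f x = 0 ↔ x ∈ J ω := by
    intro f hf hc
    have h1 : univ.filter (fun x => f x = 0) ⊆ J ω := by
      intro x hx
      rw [Finset.mem_filter] at hx
      exact zero_fibre hf hx.2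
    have h2 : univ.filter (fun x => f x = 0) = J ω := by
      apply Finset.eq_of_subset_of_card_le h1
      have := hc 0
      rw [List.getD_cons_zero] at this
      exact this.ge
    intro x
    rw [← h2]
    simp
  refine Nat.card_congr
    { toFun := fun f => ⟨fun x => f.1 x.1 - 1, ?_, ?_⟩
      invFun := fun g => ⟨fun x => if h : x ∈ J ω then 0 else g.1 ⟨x, h⟩ + 1, ?_, ?_⟩
      left_inv := fun f => by
        apply Subtype.ext
        funext x
        have h1 := hJ0 f.1 f.2.1 f.2.2 x
        by_cases hx : x ∈ J ω
        · simp only [hx, dif_pos]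
          exact (h1.2 hx).symm
        · simp only [hx, dif_neg, not_false_eq_true]
          have : f.1 x ≠ 0 := fun h => hx (h1.1 h)
          omega
      right_inv := fun g => by
        apply Subtype.ext
        funext x
        simp only [dif_neg x.2, Nat.add_sub_cancel] }
  · intro x y hxy
    have h1 := f.2.1 x.1 y.1 hxy
    have h2 : f.1 x.1 ≠ 0 := fun h => x.2 ((hJ0 f.1 f.2.1 f.2.2 x.1).1 h)
    beta_reduce
    refine ⟨by omega, fun h3 => ?_⟩
    have := h1.2 h3
    omega
  · intro i
    have h1 := f.2.2 (i + 1)
    rw [List.getD_cons_succ] at h1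
    rw [← h1]
    unfold fc
    refine Finset.card_bij (fun x _ => x.1) ?_ ?_ ?_
    · intro a ha
      rw [Finset.mem_filter] at ha ⊢
      have h2 : f.1 a.1 ≠ 0 := fun h => a.2 ((hJ0 f.1 f.2.1 f.2.2 a.1).1 h)
      have h3 := ha.2
      beta_reduce at h3
      exact ⟨Finset.mem_univ _, by omega⟩
    · intro a _ b _ h
      exact Subtype.ext h
    · intro b hb
      rw [Finset.mem_filter] at hb
      have h2 : b ∉ J ω := fun h => by
        have := (hJ0 f.1 f.2.1 f.2.2 b).2 h
        omega
      exact ⟨⟨b, h2⟩, by rw [Finset.mem_filter]; exact ⟨Finset.mem_univ _, by simp [hb.2]⟩, rfl⟩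
  · intro x y hxy
    by_cases hy : y ∈ J ω
    · have hx := J_low ω y hy x hxy.le
      simp only [hx, hy, dif_pos]
      refine ⟨le_rfl, fun h => ?_⟩
      rw [mem_J] at hy
      exact absurd ⟨x, y, le_rfl, hxy, le_rfl, h⟩ (hy x)
    · by_cases hx : x ∈ J ω
      · simp only [hx, hy, dif_pos, dif_neg, not_false_eq_true]
        exact ⟨by omega, fun _ => by omega⟩
      · simp only [hx, hy, dif_neg, not_false_eq_true]
        have h1 := g.2.1 ⟨x, hx⟩ ⟨y, hy⟩ hxy
        refine ⟨by omega, fun h3 => ?_⟩
        have := h1.2 h3
        omega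
  · intro i
    rcases i with _ | i
    · rw [List.getD_cons_zero, fc]
      congr 1
      ext x
      simp only [Finset.mem_filter, Finset.mem_univ, true_and]
      split_ifs with h
      · simp [h]
      · simp [h]
    · rw [List.getD_cons_succ, ← g.2.2 i]
      unfold fc
      symm
      refine Finset.card_bij (fun x _ => x.1) ?_ ?_ ?_
      · intro a ha
        rw [Finset.mem_filter] at ha ⊢
        refine ⟨Finset.mem_univ _, ?_⟩
        beta_reduce
        rw [dif_neg a.2, ha.2]
      · intro a _ b _ h
        exact Subtype.ext h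
      · intro b hb
        rw [Finset.mem_filter] at hb
        have hb2 := hb.2
        beta_reduce at hb2
        split_ifs at hb2 with h
        exact ⟨⟨b, h⟩, by
          rw [Finset.mem_filter]
          exact ⟨Finset.mem_univ _, by omega⟩, rfl⟩

theorem sym_res_J {ω : P → α} (hs : Sym ω) : Sym (res ω (J ω)) := by
  intro L L' hL
  rw [← N_cons_J, ← N_cons_J]
  exact hs _ _ (hL.cons _)

/-- the elements that are `≺` nothing -/
noncomputable def U (ω : P → α) : Finset P := univ.filter (fun x => ∀ a, ¬ Prec ω x a)

theorem mem_U {ω : P → α} {x : P} : x ∈ U ω ↔ ∀ a, ¬ Prec ω x a := by simp [U]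

theorem mem_J_dn {ω : P → α} {x : P} : toDual x ∈ J (dn ω) ↔ x ∈ U ω := by
  rw [mem_J, mem_U]
  constructor
  · intro h a ha
    exact h (toDual a) (dn_prec.2 ha)
  · intro h a ha
    exact h (ofDual a) (dn_prec.1 ha)

theorem sym_res_U {ω : P → α} (hs : Sym ω) : Sym (res ω (U ω)) := by
  have h1 := sym_dn (sym_res_J (sym_dn hs))
  let e : ({x : Pᵒᵈ // x ∉ J (dn ω)})ᵒᵈ ≃o {x : P // x ∉ U ω} :=
    { toFun := fun x => ⟨ofDual (ofDual x).1, fun h => (ofDual x).2 (mem_J_dn.2 h)⟩
      invFun := fun x => toDual ⟨toDual x.1, fun h => x.2 (mem_J_dn.1 h)⟩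
      left_inv := fun x => rfl
      right_inv := fun x => rfl
      map_rel_iff' := Iff.rfl }
  exact h1.congr e (fun x y _ => Iff.rfl)

end Pool.PPart
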