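import Pool.Agent.Lib.PPart.Count

/-!
# Linear extensions and P-partitions built from them
-/

namespace Pool.PPart

open Finset Classical

variable {P : Type*} {α : Type*}

theorem exists_linext [PartialOrder P] [Fintype P] (g : P → ℕ) (hg : Monotone g) :
    ∃ e : P ≃ Fin (Fintype.card P), (∀ x y, g x < g y → e x < e y) ∧
      (∀ x y, x < y → e x < e y) := by
  let key : P → ℕ ×ₗ LinearExtension P := fun x => toLex (g x, toLinearExtension x)
  have hinj : Function.Injective key := by
    intro x y hxy
    have h1 : (ofLex (key x)).2 = (ofLex (key y)).2 := by rw [hxy]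
    exact h1
  have hmono : ∀ x y, x < y → key x < key y := by
    intro x y hxy
    rw [Prod.Lex.lt_iff]
    rcases (hg hxy.le).lt_or_eq with h | h
    · exact Or.inl h
    · refine Or.inr ⟨h, ?_⟩
      have h1 : toLinearExtension x ≤ toLinearExtension y := toLinearExtension.monotone hxy.le
      refine lt_of_le_of_ne h1 ?_
      intro h2
      exact hxy.ne h2
  have hkey : ∀ x y, g x < g y → key x < key y := by
    intro x y hxy
    rw [Prod.Lex.lt_iff]
    exact Or.inl hxy
  set s : Finset (ℕ ×ₗ LinearExtension P) := univ.image key with hs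
  have hcard : s.card = Fintype.card P := by
    rw [hs, Finset.card_image_of_injective _ hinj, Finset.card_univ]
  have hmem : ∀ x, key x ∈ s := fun x => Finset.mem_image_of_mem _ (Finset.mem_univ x)
  let o := s.orderIsoOfFin hcard
  let e0 : P → Fin (Fintype.card P) := fun x => o.symm ⟨key x, hmem x⟩
  have he0 : Function.Injective e0 := by
    intro x y hxy
    have := o.symm.injective hxy
    exact hinj (by simpa using this)
  have hbij : Function.Bijective e0 := by
    rw [Fintype.bijective_iff_injective_and_card]
    exact ⟨he0, by simp⟩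
  refine ⟨Equiv.ofBijective e0 hbij, ?_, ?_⟩
  · intro x y hxy
    exact o.symm.strictMono (show (⟨key x, hmem x⟩ : s) < ⟨key y, hmem y⟩ from hkey x y hxy)
  · intro x y hxy
    exact o.symm.strictMono (show (⟨key x, hmem x⟩ : s) < ⟨key y, hmem y⟩ from hmono x y hxy)

theorem hasContent_blk [Fintype P] (e : P ≃ Fin (Fintype.card P)) (L : List ℕ)
    (h : L.sum = Fintype.card P) : HasContent (fun x => blk L (e x : ℕ)) L := by
  intro i
  rw [← card_blk L i, fc, h]
  refine Finset.card_bij (fun x _ => (e x : ℕ)) ?_ ?_ ?_
  · intro x hx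
    rw [Finset.mem_filter] at hx ⊢
    exact ⟨Finset.mem_range.2 (e x).2, hx.2⟩
  · intro x _ y _ hxy
    exact e.injective (Fin.ext hxy)
  · intro t ht
    rw [Finset.mem_filter, Finset.mem_range] at ht
    refine ⟨e.symm ⟨t, ht.1⟩, ?_, ?_⟩
    · rw [Finset.mem_filter]
      refine ⟨Finset.mem_univ _, ?_⟩
      simpa using ht.2
    · simp

theorem mem_iff_lt [Fintype P] (e : P ≃ Fin (Fintype.card P)) (S : Finset P)
    (h : ∀ x ∈ S, ∀ y, y ∉ S → e x < e y) (x : P) : x ∈ S ↔ (e x : ℕ) < S.card := by
  constructor
  · intro hx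
    have h1 : ((range ((e x : ℕ) + 1)).card ≤ (S.map e.toEmbedding |>.map Fin.valEmbedding).card) := by
      apply Finset.card_le_card
      intro t ht
      rw [Finset.mem_range] at ht
      have ht' : t < Fintype.card P := lt_of_lt_of_le ht (e x).2
      rw [Finset.mem_map]
      refine ⟨⟨t, ht'⟩, ?_, rfl⟩
      rw [Finset.mem_map]
      refine ⟨e.symm ⟨t, ht'⟩, ?_, by simp⟩
      by_contra hc
      have := h x hx _ hc
      rw [Equiv.apply_symm_apply, Fin.lt_def] at this
      simp only at this
      omega
    rw [Finset.card_range, Finset.card_map, Finset.card_map] at h1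
    omega
  · intro hx
    by_contra hc
    have h1 : (S.map e.toEmbedding |>.map Fin.valEmbedding).card ≤ (range (e x : ℕ)).card := by
      apply Finset.card_le_card
      intro t ht
      rw [Finset.mem_map] at ht
      obtain ⟨a, ha, rfl⟩ := ht
      rw [Finset.mem_map] at ha
      obtain ⟨b, hb, rfl⟩ := ha
      rw [Finset.mem_range]
      exact h b hb x hc
    rw [Finset.card_range, Finset.card_map, Finset.card_map] at h1
    omega

/-- A block function of a linear extension is a P-partition as soon as every pair `x < y` in one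
block is weak. -/
theorem isPPartition_blk [PartialOrder P] [Fintype P] [LinearOrder α] {ω : P → α}
    (e : P ≃ Fin (Fintype.card P)) (he : ∀ x y, x < y → e x < e y) (L : List ℕ)
    (hw : ∀ x y, x < y → blk L (e x : ℕ) = blk L (e y : ℕ) → ¬ ω y < ω x) :
    IsPPartition ω (fun x => blk L (e x : ℕ)) := by
  intro x y hxy
  have h1 : blk L (e x : ℕ) ≤ blk L (e y : ℕ) := blk_mono L (he x y hxy).le
  refine ⟨h1, fun h2 => ?_⟩
  rcases h1.lt_or_eq with h | h
  · exact h
  · exact absurd h2 (hw x y hxy h)

end Pool.PPart
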