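import Pool.Agent.Lib.PPart.Star2

/-!
# The omega lemma: symmetry is preserved by reversing the labels
-/

namespace Pool.PPart

open Finset Classical OrderDual

section Transfer

variable (P : Type*) [PartialOrder P] [Fintype P]

/-- lower sets of `P` -/
abbrev LL := {A : Finset P // IsLow A}

variable {P}
variable {α : Type*} [LinearOrder α]

/-- no pair with decreasing labels in `A ∖ I` -/
def WO (ω : P → α) (I A : Finset P) : Prop :=
  ∀ x y, x < y → x ∉ I → y ∈ A → ¬ ω y < ω x

/-- weak-only steps of size `k` -/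
noncomputable def wmat (ω : P → α) (k : ℕ) : Matrix (LL P) (LL P) ℤ :=
  fun I A => if I.1 ⊆ A.1 ∧ A.1.card = I.1.card + k ∧ WO ω I.1 A.1 then 1 else 0

/-- P-partitions above the lower set `I` with contents `L` -/
def CondI (ω : P → α) (I : Finset P) (L : List ℕ) (f : P → ℕ) : Prop :=
  (∀ x ∈ I, f x = 0) ∧
  (∀ x y, x < y → x ∉ I → f x ≤ f y ∧ (ω y < ω x → f x < f y)) ∧
  (∀ i, (univ.filter (fun x => x ∉ I ∧ f x = i)).card = L.getD i 0)

theorem condI_lt {ω : P → α} {I : Finset P} {L : List ℕ} {f : P → ℕ} (h : CondI ω I L f) (x : P)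
    (hx : x ∉ I) : f x < L.length := by
  by_contra hc
  push Not at hc
  have h1 := h.2.2 (f x)
  rw [List.getD_eq_default _ _ hc, Finset.card_eq_zero] at h1
  have : x ∈ univ.filter (fun y => y ∉ I ∧ f y = f x) := by simp [hx]
  rw [h1] at this
  simp at this

instance finite_condI (ω : P → α) (I : Finset P) (L : List ℕ) :
    Finite {f : P → ℕ // CondI ω I L f} := by
  have : Finite (P → Fin (L.length + 1)) := inferInstance
  have hlt : ∀ f : {f : P → ℕ // CondI ω I L f}, ∀ x, f.1 x < L.length + 1 := by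
    intro f x
    by_cases hx : x ∈ I
    · rw [f.2.1 x hx]; omega
    · have := condI_lt f.2 x hx
      omega
  refine Finite.of_injective (fun f : {f : P → ℕ // CondI ω I L f} =>
    (fun x => (⟨f.1 x, hlt f x⟩ : Fin (L.length + 1)))) ?_
  intro f g hfg
  apply Subtype.ext
  funext x
  have := congrFun hfg x
  simpa using this

/-- admissible first steps -/
def Adm (ω : P → α) (I : LL P) (c : ℕ) (A : LL P) : Prop :=
  I.1 ⊆ A.1 ∧ A.1.card = I.1.card + c ∧ WO ω I.1 A.1

/-- gluing map -/
noncomputable def glue (ω : P → α) (I : LL P) (c : ℕ) (L : List ℕ) :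
    (Σ A : {A : LL P // Adm ω I c A}, {g : P → ℕ // CondI ω A.1.1 L g}) →
      {f : P → ℕ // CondI ω I.1 (c :: L) f} := fun p =>
  ⟨fun x => if x ∈ p.1.1.1 then 0 else p.2.1 x + 1, by
    obtain ⟨⟨A, hIA, hc, hwo⟩, ⟨g, hg1, hg2, hg3⟩⟩ := p
    refine ⟨?_, ?_, ?_⟩
    · intro x hx
      simp only [hIA hx, if_true]
    · intro x y hxy hx
      simp only
      by_cases hyA : y ∈ A.1
      · have hxA := A.2 y hyA x hxy.le
        simp only [hyA, hxA, if_true]
        exact ⟨le_rfl, fun h => absurd h (hwo x y hxy hx hyA)⟩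
      · by_cases hxA : x ∈ A.1
        · simp only [hyA, hxA, if_true, if_false]
          exact ⟨by omega, fun _ => by omega⟩
        · simp only [hyA, hxA, if_false]
          have := hg2 x y hxy hxA
          exact ⟨by omega, fun h => by have := this.2 h; omega⟩
    · intro i
      rcases i with _ | i
      · rw [List.getD_cons_zero]
        have h1 : univ.filter (fun x => x ∉ I.1 ∧ (if x ∈ A.1 then 0 else g x + 1) = 0) =
            A.1 \ I.1 := by
          ext x
          simp only [Finset.mem_filter, Finset.mem_univ, true_and, Finset.mem_sdiff]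
          constructor
          · rintro ⟨h2, h3⟩
            split_ifs at h3 with h4
            exact ⟨h4, h2⟩
          · rintro ⟨h2, h3⟩
            exact ⟨h3, by rw [if_pos h2]⟩
        rw [h1, Finset.card_sdiff_of_subset hIA]
        omega
      · rw [List.getD_cons_succ, ← hg3 i]
        congr 1
        ext x
        simp only [Finset.mem_filter, Finset.mem_univ, true_and]
        constructor
        · rintro ⟨h2, h3⟩
          split_ifs at h3 with h4
          exact ⟨h4, by omega⟩
        · rintro ⟨h2, h3⟩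
          refine ⟨fun h => h2 (hIA h), ?_⟩
          rw [if_neg h2]; omega⟩

theorem glue_apply (ω : P → α) (I : LL P) (c : ℕ) (L : List ℕ)
    (p : Σ A : {A : LL P // Adm ω I c A}, {g : P → ℕ // CondI ω A.1.1 L g}) (x : P) :
    (glue ω I c L p).1 x = if x ∈ p.1.1.1 then 0 else p.2.1 x + 1 := rfl

theorem glue_bij (ω : P → α) (I : LL P) (c : ℕ) (L : List ℕ) :
    Function.Bijective (glue ω I c L) := by
  constructor
  · rintro ⟨⟨A, hA⟩, ⟨g, hg⟩⟩ ⟨⟨B, hB⟩, ⟨h, hh⟩⟩ heq
    have h1 : ∀ x, (if x ∈ A.1 then 0 else g x + 1) = (if x ∈ B.1 then 0 else h x + 1) := by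
      intro x
      have := congrFun (congrArg Subtype.val heq) x
      exact this
    have hAB : A = B := by
      apply Subtype.ext
      ext x
      have := h1 x
      constructor
      · intro hx
        rw [if_pos hx] at this
        by_contra hx'
        rw [if_neg hx'] at this
        omega
      · intro hx
        rw [if_pos hx] at this
        by_contra hx'
        rw [if_neg hx'] at this
        omega
    subst hAB
    have hgh : g = h := by
      funext x
      by_cases hx : x ∈ A.1
      · rw [hg.1 x hx, hh.1 x hx]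
      · have := h1 x
        rw [if_neg hx, if_neg hx] at this
        omega
    subst hgh
    rfl
  · rintro ⟨f, hf1, hf2, hf3⟩
    set A0 : Finset P := univ.filter (fun x => f x = 0) with hA0
    have hmem : ∀ x, x ∈ A0 ↔ f x = 0 := by intro x; simp [hA0]
    have hlow : IsLow A0 := by
      intro x hx y hy
      rw [hmem] at hx ⊢
      rcases hy.eq_or_lt with h | h
      · rw [h]; exact hx
      · by_cases hyI : y ∈ I.1
        · exact hf1 y hyI
        · have := (hf2 y x h hyI).1
          omega
    have hIA : I.1 ⊆ A0 := by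
      intro x hx
      rw [hmem]
      exact hf1 x hx
    have hadm : Adm ω I c ⟨A0, hlow⟩ := by
      refine ⟨hIA, ?_, ?_⟩
      · have h1 := hf3 0
        rw [List.getD_cons_zero] at h1
        have h2 : univ.filter (fun x => x ∉ I.1 ∧ f x = 0) = A0 \ I.1 := by
          ext x
          simp [hA0, and_comm]
        rw [h2, Finset.card_sdiff_of_subset hIA] at h1
        have := Finset.card_le_card hIA
        simp only
        omega
      · intro x y hxy hx hy h
        have h3 := (hf2 x y hxy hx).2 h
        rw [hmem] at hy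
        omega
    refine ⟨⟨⟨⟨A0, hlow⟩, hadm⟩, ⟨fun x => f x - 1, ?_, ?_, ?_⟩⟩, ?_⟩
    · intro x hx
      have : f x = 0 := (hmem x).1 hx
      simp only
      omega
    · intro x y hxy hx
      have h1 : f x ≠ 0 := fun h => hx ((hmem x).2 h)
      have h2 := hf2 x y hxy (fun h => hx (hIA h))
      simp only
      exact ⟨by omega, fun h => by have := h2.2 h; omega⟩
    · intro i
      have h1 := hf3 (i + 1)
      rw [List.getD_cons_succ] at h1
      rw [← h1]
      congr 1
      ext x
      simp only [Finset.mem_filter, Finset.mem_univ, true_and, hmem]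
      constructor
      · rintro ⟨h2, h3⟩
        exact ⟨fun h => h2 (hf1 x h), by omega⟩
      · rintro ⟨h2, h3⟩
        exact ⟨by omega, by omega⟩
    · apply Subtype.ext
      funext x
      rw [glue_apply]
      by_cases hx : x ∈ A0
      · have : f x = 0 := (hmem x).1 hx
        simp only [hx, if_true, this]
      · have : f x ≠ 0 := fun h => hx ((hmem x).2 h)
        simp only [hx, if_false]
        omega

theorem card_condI (ω : P → α) (L : List ℕ) : ∀ I : LL P,
    (Nat.card {f : P → ℕ // CondI ω I.1 L f} : ℤ) =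
      (L.map (wmat ω)).prod I ⟨univ, fun _ _ _ _ => Finset.mem_univ _⟩ := by
  induction L with
  | nil =>
    intro I
    rw [List.map_nil, List.prod_nil, Matrix.one_apply]
    by_cases hI : I = ⟨univ, fun _ _ _ _ => Finset.mem_univ _⟩
    · rw [if_pos hI]
      have : Unique {f : P → ℕ // CondI ω I.1 [] f} :=
        { default := ⟨fun _ => 0, fun _ _ => rfl, fun x y _ hx => by
              subst hI; exact absurd (Finset.mem_univ x) hx, fun i => by
              subst hI; simp⟩
          uniq := fun f => by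
            apply Subtype.ext
            funext x
            have : x ∈ I.1 := by subst hI; exact Finset.mem_univ x
            exact f.2.1 x this }
      rw [Nat.card_unique]
      rfl
    · rw [if_neg hI]
      have : IsEmpty {f : P → ℕ // CondI ω I.1 [] f} := by
        refine ⟨fun f => hI ?_⟩
        apply Subtype.ext
        ext x
        simp only [Finset.mem_univ, iff_true]
        by_contra hx
        have := condI_lt f.2 x hx
        simp at this
      rw [Nat.card_of_isEmpty]
      rfl
  | cons c L ih =>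
    intro I
    rw [List.map_cons, List.prod_cons, Matrix.mul_apply,
      ← Nat.card_congr (Equiv.ofBijective _ (glue_bij ω I c L)), Nat.card_sigma]
    push_cast
    have h1 : ∀ A : {A : LL P // Adm ω I c A},
        (Nat.card {g : P → ℕ // CondI ω A.1.1 L g} : ℤ) =
        (L.map (wmat ω)).prod A.1 ⟨univ, fun _ _ _ _ => Finset.mem_univ _⟩ := fun A => ih A.1
    rw [Finset.sum_congr rfl (fun A _ => h1 A)]
    rw [← Finset.sum_subtype (p := Adm ω I c) (univ.filter (Adm ω I c)) (by simp)
      (fun A => (L.map (wmat ω)).prod A ⟨univ, fun _ _ _ _ => Finset.mem_univ _⟩)]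
    rw [Finset.sum_filter]
    apply Finset.sum_congr rfl
    intro A _
    unfold wmat Adm
    split_ifs with h
    · rw [one_mul]
    · rw [zero_mul]

/-- the lower set `∅` -/
def botL (P : Type*) [PartialOrder P] [Fintype P] : LL P := ⟨∅, fun x hx => by simp at hx⟩

/-- the lower set `P` -/
def topL (P : Type*) [PartialOrder P] [Fintype P] : LL P :=
  ⟨univ, fun _ _ _ _ => Finset.mem_univ _⟩

theorem N_eq_entry (ω : P → α) (L : List ℕ) :
    (N ω L : ℤ) = (L.map (wmat ω)).prod (botL P) (topL P) := by
  have h := card_condI ω L (botL P)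
  rw [show (L.map (wmat ω)).prod (botL P) (topL P) =
    (L.map (wmat ω)).prod (botL P) ⟨univ, fun _ _ _ _ => Finset.mem_univ _⟩ from rfl, ← h]
  unfold N
  congr 1
  apply Nat.card_congr
  refine Equiv.subtypeEquivRight fun f => ?_
  simp only [CondI, botL, IsPPartition, HasContent, fc, Finset.notMem_empty, not_false_eq_true,
    true_and, IsEmpty.forall_iff, implies_true, forall_const]

end Transfer

section Inversion

variable {P : Type*} [PartialOrder P] [Fintype P] {α : Type*} [LinearOrder α]

/-- strict-only steps -/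
noncomputable def smat (ω : P → α) (k : ℕ) : Matrix (LL P) (LL P) ℤ :=
  wmat (fun x => toDual (ω x)) k

theorem wmat_zero (ω : P → α) : wmat ω 0 = 1 := by
  ext I A
  unfold wmat
  rw [Matrix.one_apply]
  by_cases h : I = A
  · subst h
    rw [if_pos rfl, if_pos]
    refine ⟨Finset.Subset.refl _, rfl, ?_⟩
    intro x y hxy hx hy _
    exact hx (I.2 y hy x hxy.le)
  · rw [if_neg h, if_neg]
    rintro ⟨h1, h2, _⟩
    exact h (Subtype.ext (Finset.eq_of_subset_of_card_le h1 (by omega)))

/-- the sign-reversing sum -/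
theorem toggle_sum {ω : P → α} (hω : Function.Injective ω) (I A : LL P) (hIA : I.1 ⊆ A.1)
    (hne : I.1 ≠ A.1) :
    ∑ B ∈ univ.filter (fun B : LL P => I.1 ⊆ B.1 ∧ B.1 ⊆ A.1 ∧ WO ω I.1 B.1 ∧
      WO (fun x => toDual (ω x)) B.1 A.1), (-1 : ℤ) ^ (A.1.card - B.1.card) = 0 := by
  have hnonempty : (A.1 \ I.1).Nonempty := by
    rw [Finset.sdiff_nonempty]
    intro h
    exact hne (Finset.Subset.antisymm hIA h)
  obtain ⟨m, hm, hmax⟩ := Finset.exists_max_image (A.1 \ I.1) ω hnonempty
  rw [Finset.mem_sdiff] at hm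
  have hmax' : ∀ x, x ∈ A.1 → x ∉ I.1 → ω x ≤ ω m := fun x hx hx' =>
    hmax x (Finset.mem_sdiff.2 ⟨hx, hx'⟩)
  have hmax'' : ∀ x, x ∈ A.1 → x ∉ I.1 → x ≠ m → ω x < ω m := fun x hx hx' hxm =>
    lt_of_le_of_ne (hmax' x hx hx') (fun h => hxm (hω h))
  -- erase
  have herase : ∀ B : LL P, I.1 ⊆ B.1 → B.1 ⊆ A.1 → WO ω I.1 B.1 →
      WO (fun x => toDual (ω x)) B.1 A.1 → m ∈ B.1 →
      IsLow (B.1.erase m) ∧ I.1 ⊆ B.1.erase m ∧ WO ω I.1 (B.1.erase m) ∧
        WO (fun x => toDual (ω x)) (B.1.erase m) A.1 := by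
    intro B h1 h2 h3 h4 hmB
    refine ⟨?_, ?_, ?_, ?_⟩
    · intro x hx y hy
      rw [Finset.mem_erase] at hx ⊢
      refine ⟨?_, B.2 x hx.2 y hy⟩
      rintro rfl
      have hlt : y < x := lt_of_le_of_ne hy (fun h => hx.1 h.symm)
      have hxI : x ∉ I.1 := fun h => hm.2 (I.2 x h y hy)
      exact h3 y x hlt hm.2 hx.2 (hmax'' x (h2 hx.2) hxI hx.1)
    · intro x hx
      rw [Finset.mem_erase]
      refine ⟨?_, h1 hx⟩
      rintro rfl
      exact hm.2 hx
    · intro x y hxy hx hy
      exact h3 x y hxy hx (Finset.mem_of_mem_erase hy)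
    · intro x y hxy hx hy hlt
      rw [toDual_lt_toDual] at hlt
      rw [Finset.mem_erase, not_and_or, not_not] at hx
      by_cases hxB : x ∈ B.1
      · have hxm : x = m := by
          rcases hx with hx | hx
          · exact hx
          · exact absurd hxB hx
        subst hxm
        have hyI : y ∉ I.1 := fun h => hm.2 (I.2 y h x hxy.le)
        exact absurd hlt (not_lt.2 (hmax' y hy hyI))
      · exact h4 x y hxy hxB hy (toDual_lt_toDual.2 hlt)
  -- insert
  have hinsert : ∀ B : LL P, I.1 ⊆ B.1 → B.1 ⊆ A.1 → WO ω I.1 B.1 →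
      WO (fun x => toDual (ω x)) B.1 A.1 → m ∉ B.1 →
      IsLow (insert m B.1) ∧ insert m B.1 ⊆ A.1 ∧ WO ω I.1 (insert m B.1) ∧
        WO (fun x => toDual (ω x)) (insert m B.1) A.1 := by
    intro B h1 h2 h3 h4 hmB
    refine ⟨?_, ?_, ?_, ?_⟩
    · intro x hx y hy
      rw [Finset.mem_insert] at hx ⊢
      rcases hx with rfl | hx
      · by_contra hc
        push Not at hc
        have hlt : y < x := lt_of_le_of_ne hy hc.1
        have hyA : y ∈ A.1 := A.2 x hm.1 y hy
        have hyI : y ∉ I.1 := fun h => hc.2 (h1 h)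
        exact h4 y x hlt hc.2 hm.1 (toDual_lt_toDual.2 (hmax'' y hyA hyI hc.1))
      · exact Or.inr (B.2 x hx y hy)
    · intro x hx
      rw [Finset.mem_insert] at hx
      rcases hx with rfl | hx
      · exact hm.1
      · exact h2 hx
    · intro x y hxy hx hy
      rw [Finset.mem_insert] at hy
      rcases hy with rfl | hy
      · exact not_lt.2 (hmax' x (A.2 y hm.1 x hxy.le) hx)
      · exact h3 x y hxy hx hy
    · intro x y hxy hx hy
      exact h4 x y hxy (fun h => hx (Finset.mem_insert_of_mem h)) hy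
  refine Finset.sum_involution (fun B hB => if h : m ∈ B.1 then
      ⟨B.1.erase m, (herase B (by simp at hB; exact hB.1) (by simp at hB; exact hB.2.1)
        (by simp at hB; exact hB.2.2.1) (by simp at hB; exact hB.2.2.2) h).1⟩
    else ⟨insert m B.1, (hinsert B (by simp at hB; exact hB.1) (by simp at hB; exact hB.2.1)
        (by simp at hB; exact hB.2.2.1) (by simp at hB; exact hB.2.2.2) h).1⟩) ?_ ?_ ?_ ?_
  · intro B hB
    rw [Finset.mem_filter] at hB
    obtain ⟨_, h1, h2, h3, h4⟩ := hB
    have hcB := Finset.card_le_card h2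
    by_cases h : m ∈ B.1
    · rw [dif_pos h]
      have hpos : 0 < B.1.card := Finset.card_pos.2 ⟨m, h⟩
      simp only [Finset.card_erase_of_mem h]
      rw [show A.1.card - (B.1.card - 1) = A.1.card - B.1.card + 1 by omega, pow_succ]
      ring
    · rw [dif_neg h]
      have h5 := Finset.card_le_card (hinsert B h1 h2 h3 h4 h).2.1
      rw [Finset.card_insert_of_notMem h] at h5
      simp only [Finset.card_insert_of_notMem h]
      rw [show A.1.card - B.1.card = A.1.card - (B.1.card + 1) + 1 by omega, pow_succ]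
      ring
  · intro B hB _
    by_cases h : m ∈ B.1
    · rw [dif_pos h]
      intro heq
      have := congrArg Subtype.val heq
      simp only at this
      rw [← this] at h
      simp at h
    · rw [dif_neg h]
      intro heq
      have := congrArg Subtype.val heq
      simp only at this
      rw [← this] at h
      simp at h
  · intro B hB
    rw [Finset.mem_filter] at hB
    obtain ⟨_, h1, h2, h3, h4⟩ := hB
    by_cases h : m ∈ B.1
    · rw [dif_pos h, Finset.mem_filter]
      have h5 := herase B h1 h2 h3 h4 h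
      exact ⟨Finset.mem_univ _, h5.2.1, (Finset.erase_subset _ _).trans h2, h5.2.2.1, h5.2.2.2⟩
    · rw [dif_neg h, Finset.mem_filter]
      have h5 := hinsert B h1 h2 h3 h4 h
      exact ⟨Finset.mem_univ _, h1.trans (Finset.subset_insert _ _), h5.2.1, h5.2.2.1,
        h5.2.2.2⟩
  · intro B hB
    by_cases h : m ∈ B.1
    · simp only [dif_pos h]
      rw [dif_neg (by simp)]
      apply Subtype.ext
      exact Finset.insert_erase h
    · simp only [dif_neg h]
      rw [dif_pos (by simp)]
      apply Subtype.ext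
      exact Finset.erase_insert h

theorem antidiagonal_zero {ω : P → α} (hω : Function.Injective ω) (k : ℕ) (hk : 0 < k) :
    ∑ p ∈ antidiagonal k, (-1 : ℤ) ^ p.2 • (wmat ω p.1 * smat ω p.2) = 0 := by
  ext I A
  rw [Matrix.sum_apply]
  simp only [Matrix.smul_apply, Matrix.mul_apply, Matrix.zero_apply, smul_eq_mul, Finset.mul_sum]
  rw [Finset.sum_comm]
  by_cases hIA : I.1 ⊆ A.1 ∧ A.1.card = I.1.card + k
  · obtain ⟨hIA, hcard⟩ := hIA
    have hne : I.1 ≠ A.1 := by
      intro h
      rw [h] at hcard
      omega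
    rw [← toggle_sum hω I A hIA hne, Finset.sum_filter]
    apply Finset.sum_congr rfl
    intro B _
    by_cases hB : I.1 ⊆ B.1 ∧ B.1 ⊆ A.1 ∧ WO ω I.1 B.1 ∧ WO (fun x => toDual (ω x)) B.1 A.1
    · rw [if_pos hB]
      obtain ⟨h1, h2, h3, h4⟩ := hB
      have hc1 := Finset.card_le_card h1
      have hc2 := Finset.card_le_card h2
      rw [Finset.sum_eq_single (B.1.card - I.1.card, A.1.card - B.1.card)]
      · simp only [wmat, smat]
        rw [if_pos ⟨h1, by omega, h3⟩, if_pos ⟨h2, by omega, h4⟩]
        ring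
      · rintro ⟨i, j⟩ hij hne'
        rw [Finset.HasAntidiagonal.mem_antidiagonal] at hij
        simp only at hij
        by_cases hi : B.1.card = I.1.card + i
        · exfalso
          apply hne'
          ext
          · simp only; omega
          · simp only; omega
        · simp only [wmat]
          rw [if_neg (fun h => hi h.2.1)]
          ring
      · intro h
        exfalso
        apply h
        rw [Finset.HasAntidiagonal.mem_antidiagonal]
        simp only
        omega
    · rw [if_neg hB]
      apply Finset.sum_eq_zero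
      rintro ⟨i, j⟩ _
      simp only [wmat, smat]
      by_cases h1 : I.1 ⊆ B.1 ∧ B.1.card = I.1.card + i ∧ WO ω I.1 B.1
      · by_cases h2 : B.1 ⊆ A.1 ∧ A.1.card = B.1.card + j ∧ WO (fun x => toDual (ω x)) B.1 A.1
        · exact absurd ⟨h1.1, h2.1, h1.2.2, h2.2.2⟩ hB
        · rw [if_neg h2]; ring
      · rw [if_neg h1]; ring
  · apply Finset.sum_eq_zero
    intro B _
    apply Finset.sum_eq_zero
    rintro ⟨i, j⟩ hij
    rw [Finset.HasAntidiagonal.mem_antidiagonal] at hij
    simp only at hij
    simp only [wmat, smat]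
    by_cases h1 : I.1 ⊆ B.1 ∧ B.1.card = I.1.card + i ∧ WO ω I.1 B.1
    · by_cases h2 : B.1 ⊆ A.1 ∧ A.1.card = B.1.card + j ∧ WO (fun x => toDual (ω x)) B.1 A.1
      · exact absurd ⟨h1.1.trans h2.1, by omega⟩ hIA
      · rw [if_neg h2]; ring
    · rw [if_neg h1]; ring

/-- the algebra generated by the weak-only steps -/
noncomputable def Walg (ω : P → α) : Subalgebra ℤ (Matrix (LL P) (LL P) ℤ) :=
  Algebra.adjoin ℤ (Set.range (wmat ω))

theorem wmat_mem (ω : P → α) (k : ℕ) : wmat ω k ∈ Walg ω :=
  Algebra.subset_adjoin ⟨k, rfl⟩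

theorem smat_mem {ω : P → α} (hω : Function.Injective ω) (k : ℕ) : smat ω k ∈ Walg ω := by
  induction k using Nat.strong_induction_on with
  | _ k ih =>
  rcases Nat.eq_zero_or_pos k with hk | hk
  · subst hk
    rw [smat, wmat_zero]
    exact Subalgebra.one_mem _
  · have h := antidiagonal_zero hω k hk
    have hmem : ((0, k) : ℕ × ℕ) ∈ antidiagonal k := by simp
    rw [← Finset.add_sum_erase _ _ hmem] at h
    simp only [wmat_zero, one_mul] at h
    have h2 : (-1 : ℤ) ^ k • smat ω k =
        - ∑ p ∈ (antidiagonal k).erase (0, k), (-1 : ℤ) ^ p.2 • (wmat ω p.1 * smat ω p.2) :=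
      eq_neg_of_add_eq_zero_left h
    have h3 : (-1 : ℤ) ^ k • smat ω k ∈ Walg ω := by
      rw [h2]
      apply Subalgebra.neg_mem
      apply Subalgebra.sum_mem
      rintro ⟨i, j⟩ hij
      rw [Finset.mem_erase, Finset.HasAntidiagonal.mem_antidiagonal] at hij
      apply Subalgebra.smul_mem
      apply Subalgebra.mul_mem _ (wmat_mem ω i)
      apply ih
      have : i ≠ 0 := by
        rintro rfl
        apply hij.1
        simp only at hij
        rw [zero_add] at hij
        rw [hij.2]
      simp only at hij ⊢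
      omega
    have h4 : smat ω k = (-1 : ℤ) ^ k • ((-1 : ℤ) ^ k • smat ω k) := by
      rw [smul_smul, ← mul_pow]
      simp
    rw [h4]
    exact Subalgebra.smul_mem _ h3 _

/-- the functional: entry `(∅, P)` -/
noncomputable def phi (M : Matrix (LL P) (LL P) ℤ) : ℤ := M (botL P) (topL P)

theorem phi_add (M M' : Matrix (LL P) (LL P) ℤ) : phi (M + M') = phi M + phi M' := rfl

theorem phi_smul (r : ℤ) (M : Matrix (LL P) (LL P) ℤ) : phi (r • M) = r * phi M := rfl

theorem exists_list {ω : P → α} {X : Matrix (LL P) (LL P) ℤ}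
    (hX : X ∈ Submonoid.closure (Set.range (wmat ω))) :
    ∃ L : List ℕ, X = (L.map (wmat ω)).prod := by
  induction hX using Submonoid.closure_induction with
  | mem x hx =>
    obtain ⟨k, rfl⟩ := hx
    exact ⟨[k], by simp⟩
  | one => exact ⟨[], by simp⟩
  | mul x y _ _ hx hy =>
    obtain ⟨L1, rfl⟩ := hx
    obtain ⟨L2, rfl⟩ := hy
    exact ⟨L1 ++ L2, by simp⟩

theorem mem_Walg_of_span {ω : P → α} {X : Matrix (LL P) (LL P) ℤ}
    (h : X ∈ Submodule.span ℤ
      (Submonoid.closure (Set.range (wmat ω)) : Set (Matrix (LL P) (LL P) ℤ))) : X ∈ Walg ω := by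
  rw [← Algebra.adjoin_eq_span] at h
  exact h

theorem phi_swap_w {ω : P → α} (hs : Sym ω) (i j : ℕ) {X Y : Matrix (LL P) (LL P) ℤ}
    (hX : X ∈ Walg ω) (hY : Y ∈ Walg ω) :
    phi (X * (wmat ω i * wmat ω j) * Y) = phi (X * (wmat ω j * wmat ω i) * Y) := by
  have hX' : X ∈ Submodule.span ℤ
      (Submonoid.closure (Set.range (wmat ω)) : Set (Matrix (LL P) (LL P) ℤ)) := by
    rw [← Algebra.adjoin_eq_span]; exact hX
  have hY' : Y ∈ Submodule.span ℤ
      (Submonoid.closure (Set.range (wmat ω)) : Set (Matrix (LL P) (LL P) ℤ)) := by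
    rw [← Algebra.adjoin_eq_span]; exact hY
  induction hX' using Submodule.span_induction with
  | mem X hX1 =>
    obtain ⟨L1, rfl⟩ := exists_list hX1
    induction hY' using Submodule.span_induction with
    | mem Y hY1 =>
      obtain ⟨L2, rfl⟩ := exists_list hY1
      have h1 : (L1.map (wmat ω)).prod * (wmat ω i * wmat ω j) * (L2.map (wmat ω)).prod =
          ((L1 ++ i :: j :: L2).map (wmat ω)).prod := by
        simp [mul_assoc]
      have h2 : (L1.map (wmat ω)).prod * (wmat ω j * wmat ω i) * (L2.map (wmat ω)).prod =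
          ((L1 ++ j :: i :: L2).map (wmat ω)).prod := by
        simp [mul_assoc]
      rw [h1, h2, phi, phi, ← N_eq_entry, ← N_eq_entry]
      rw [hs _ _ ((List.Perm.swap j i L2).append_left L1)]
    | zero => simp [phi]
    | add Y Y' h1 h2 ih1 ih2 =>
      have h1' : Y ∈ Walg ω := mem_Walg_of_span h1
      have h2' : Y' ∈ Walg ω := mem_Walg_of_span h2
      rw [mul_add, mul_add, phi_add, phi_add, ih1 h1', ih2 h2']
    | smul r Y h1 ih1 =>
      have h1' : Y ∈ Walg ω := mem_Walg_of_span h1
      rw [mul_smul_comm, mul_smul_comm, phi_smul, phi_smul, ih1 h1']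
  | zero => simp [phi]
  | add X X' h1 h2 ih1 ih2 =>
    have h1' : X ∈ Walg ω := mem_Walg_of_span h1
    have h2' : X' ∈ Walg ω := mem_Walg_of_span h2
    rw [add_mul, add_mul, add_mul, add_mul, phi_add, phi_add, ih1 h1', ih2 h2']
  | smul r X h1 ih1 =>
    have h1' : X ∈ Walg ω := mem_Walg_of_span h1
    rw [smul_mul_assoc, smul_mul_assoc, smul_mul_assoc, smul_mul_assoc, phi_smul, phi_smul,
      ih1 h1']

theorem phi_swap_aw {ω : P → α} (hs : Sym ω) (j : ℕ) {a : Matrix (LL P) (LL P) ℤ}
    (ha : a ∈ Walg ω) : ∀ {X Y : Matrix (LL P) (LL P) ℤ}, X ∈ Walg ω → Y ∈ Walg ω →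
    phi (X * (a * wmat ω j) * Y) = phi (X * (wmat ω j * a) * Y) := by
  unfold Walg at ha
  induction ha using Algebra.adjoin_induction with
  | mem a ha =>
    intro X Y hX hY
    obtain ⟨i, rfl⟩ := ha
    exact phi_swap_w hs i j hX hY
  | algebraMap r =>
    intro X Y hX hY
    rw [Algebra.commutes]
  | add a b _ _ iha ihb =>
    intro X Y hX hY
    rw [add_mul, mul_add, mul_add, mul_add, add_mul, add_mul, phi_add, phi_add, iha hX hY,
      ihb hX hY]
  | mul a b ha hb iha ihb =>
    intro X Y hX hY
    have h1 : X * (a * b * wmat ω j) * Y = (X * a) * (b * wmat ω j) * Y := by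
      simp only [mul_assoc]
    have h2 : (X * a) * (wmat ω j * b) * Y = X * (a * wmat ω j) * (b * Y) := by
      simp only [mul_assoc]
    have h3 : X * (wmat ω j * a) * (b * Y) = X * (wmat ω j * (a * b)) * Y := by
      simp only [mul_assoc]
    rw [h1, ihb (Subalgebra.mul_mem _ hX ha) hY, h2, iha hX (Subalgebra.mul_mem _ hb hY), h3]

theorem phi_swap {ω : P → α} (hs : Sym ω) {a b : Matrix (LL P) (LL P) ℤ}
    (ha : a ∈ Walg ω) (hb : b ∈ Walg ω) : ∀ {X Y : Matrix (LL P) (LL P) ℤ},
    X ∈ Walg ω → Y ∈ Walg ω → phi (X * (a * b) * Y) = phi (X * (b * a) * Y) := by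
  unfold Walg at hb
  induction hb using Algebra.adjoin_induction with
  | mem b hb =>
    intro X Y hX hY
    obtain ⟨i, rfl⟩ := hb
    exact phi_swap_aw hs i ha hX hY
  | algebraMap r =>
    intro X Y hX hY
    rw [Algebra.commutes]
  | add b c _ _ ihb ihc =>
    intro X Y hX hY
    rw [add_mul, mul_add, mul_add, mul_add, add_mul, add_mul, phi_add, phi_add, ihb hX hY,
      ihc hX hY]
  | mul b c hb hc ihb ihc =>
    intro X Y hX hY
    have h1 : X * (a * (b * c)) * Y = X * (a * b) * (c * Y) := by simp only [mul_assoc]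
    have h2 : X * (b * a) * (c * Y) = (X * b) * (a * c) * Y := by simp only [mul_assoc]
    have h3 : (X * b) * (c * a) * Y = X * (b * c * a) * Y := by simp only [mul_assoc]
    rw [h1, ihb hX (Subalgebra.mul_mem _ hc hY), h2, ihc (Subalgebra.mul_mem _ hX hb) hY, h3]

theorem prod_smat_mem {ω : P → α} (hω : Function.Injective ω) (L : List ℕ) :
    (L.map (smat ω)).prod ∈ Walg ω := by
  induction L with
  | nil => simpa using Subalgebra.one_mem _
  | cons c L ih =>
    rw [List.map_cons, List.prod_cons]
    exact Subalgebra.mul_mem _ (smat_mem hω c) ih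

theorem phi_perm {ω : P → α} (hω : Function.Injective ω) (hs : Sym ω) {L L' : List ℕ}
    (h : L.Perm L') : ∀ {X : Matrix (LL P) (LL P) ℤ}, X ∈ Walg ω →
    phi (X * (L.map (smat ω)).prod) = phi (X * (L'.map (smat ω)).prod) := by
  induction h with
  | nil => intro X _; rfl
  | cons c _ ih =>
    intro X hX
    rw [List.map_cons, List.prod_cons, List.map_cons, List.prod_cons, ← mul_assoc, ← mul_assoc]
    exact ih (Subalgebra.mul_mem _ hX (smat_mem hω c))
  | swap c d L =>
    intro X hX
    simp only [List.map_cons, List.prod_cons]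
    have h1 := phi_swap hs (smat_mem hω d) (smat_mem hω c) hX (prod_smat_mem hω L)
    simp only [mul_assoc] at h1 ⊢
    exact h1
  | trans _ _ ih1 ih2 =>
    intro X hX
    exact (ih1 hX).trans (ih2 hX)

/-- **Omega lemma** -/
theorem sym_neg {ω : P → α} (hω : Function.Injective ω) (hs : Sym ω) :
    Sym (fun x => OrderDual.toDual (ω x)) := by
  intro L L' hL
  have h := phi_perm hω hs hL (Subalgebra.one_mem (Walg ω))
  rw [one_mul, one_mul, phi, phi] at h
  have h1 := N_eq_entry (fun x => OrderDual.toDual (ω x)) L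
  have h2 := N_eq_entry (fun x => OrderDual.toDual (ω x)) L'
  have h3 : (smat ω) = wmat (fun x => OrderDual.toDual (ω x)) := rfl
  rw [h3] at h
  have h4 : (N (fun x => OrderDual.toDual (ω x)) L : ℤ) =
      N (fun x => OrderDual.toDual (ω x)) L' := by rw [h1, h2, h]
  exact_mod_cast h4

end Inversion

end Pool.PPart
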