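import Pool.Agent.Lib.PPart.Potential

/-!
# Connected pieces: any two elements are related
-/

namespace Pool.PPart

open Finset Classical Relation

variable {P : Type*} {α : Type*} [PartialOrder P] [LinearOrder α] [Finite P]

/-- one step to the right or up -/
def NE (ω : P → α) (a b : P) : Prop := WeakCover ω a b ∨ StrictCover ω b a

/-- coordinates -/
structure Pot (ω : P → α) (r c : P → ℤ) : Prop where
  weak : ∀ x y, WeakCover ω x y → r y = r x ∧ c y = c x + 1
  strict : ∀ x y, StrictCover ω x y → r y = r x + 1 ∧ c y = c x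

variable {ω : P → α} {r c : P → ℤ}

theorem Pot.mono (hω : Function.Injective ω) (hp : Pot ω r c) {x y : P} (h : x ≤ y) :
    r x ≤ r y ∧ c x ≤ c y := by
  induction y using WellFoundedLT.induction with
  | ind y ih =>
    rcases h.eq_or_lt with h | h
    · subst h; exact ⟨le_rfl, le_rfl⟩
    · obtain ⟨y', h1, h2⟩ := exists_le_covBy_of_lt h
      obtain ⟨h3, h4⟩ := ih y' h2.lt h1
      rcases strict_or_weak hω h2 with h5 | h5
      · obtain ⟨h6, h7⟩ := hp.strict _ _ h5
        constructor <;> omega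
      · obtain ⟨h6, h7⟩ := hp.weak _ _ h5
        constructor <;> omega

omit [Finite P] in
theorem Pot.ne (hp : Pot ω r c) {x y : P} (h : ReflTransGen (NE ω) x y) :
    c x ≤ c y ∧ r y ≤ r x := by
  induction h with
  | refl => exact ⟨le_rfl, le_rfl⟩
  | tail _ h2 ih =>
    rcases h2 with h2 | h2
    · obtain ⟨h6, h7⟩ := hp.weak _ _ h2
      constructor <;> omega
    · obtain ⟨h6, h7⟩ := hp.strict _ _ h2
      constructor <;> omega

theorem Pot.A1 (hω : Function.Injective ω) (hg : Good ω) (hp : Pot ω r c) {x y : P} (h : x ≤ y)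
    (hc : c x < c y) : ∃ x', WeakCover ω x x' ∧ x' ≤ y := by
  induction x using WellFoundedGT.induction with
  | ind x ih =>
    rcases h.eq_or_lt with h | h
    · subst h; omega
    · obtain ⟨x₁, h1, h2⟩ := exists_covBy_le_of_lt h
      rcases strict_or_weak hω h1 with h3 | h3
      · obtain ⟨x', h4, h5⟩ := ih x₁ h1.lt h2 (by rw [(hp.strict _ _ h3).2]; exact hc)
        obtain ⟨z, h6, h7⟩ := hg.sw _ _ _ h3 h4
        exact ⟨z, h6, h7.1.le.trans h5⟩
      · exact ⟨x₁, h3, h2⟩

theorem Pot.A2 (hω : Function.Injective ω) (hg : Good ω) (hp : Pot ω r c) {x y : P} (h : x ≤ y)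
    (hc : r x < r y) : ∃ x', StrictCover ω x x' ∧ x' ≤ y := by
  induction x using WellFoundedGT.induction with
  | ind x ih =>
    rcases h.eq_or_lt with h | h
    · subst h; omega
    · obtain ⟨x₁, h1, h2⟩ := exists_covBy_le_of_lt h
      rcases strict_or_weak hω h1 with h3 | h3
      · exact ⟨x₁, h3, h2⟩
      · obtain ⟨x', h4, h5⟩ := ih x₁ h1.lt h2 (by rw [(hp.weak _ _ h3).1]; exact hc)
        obtain ⟨z, h6, h7⟩ := hg.ws _ _ _ h3 h4
        exact ⟨z, h6, h7.1.le.trans h5⟩

theorem Pot.B1 (hω : Function.Injective ω) (hg : Good ω) (hp : Pot ω r c) {x y : P} (h : x ≤ y)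
    (hc : c x < c y) : ∃ y', WeakCover ω y' y ∧ x ≤ y' := by
  induction y using WellFoundedLT.induction with
  | ind y ih =>
    rcases h.eq_or_lt with h | h
    · subst h; omega
    · obtain ⟨y₁, h1, h2⟩ := exists_le_covBy_of_lt h
      rcases strict_or_weak hω h2 with h3 | h3
      · obtain ⟨y', h4, h5⟩ := ih y₁ h2.lt h1 (by rw [← (hp.strict _ _ h3).2]; exact hc)
        obtain ⟨z, h6, h7⟩ := hg.ws _ _ _ h4 h3
        exact ⟨z, h7, h5.trans h6.1.le⟩
      · exact ⟨y₁, h3, h1⟩

theorem Pot.B2 (hω : Function.Injective ω) (hg : Good ω) (hp : Pot ω r c) {x y : P} (h : x ≤ y)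
    (hc : r x < r y) : ∃ y', StrictCover ω y' y ∧ x ≤ y' := by
  induction y using WellFoundedLT.induction with
  | ind y ih =>
    rcases h.eq_or_lt with h | h
    · subst h; omega
    · obtain ⟨y₁, h1, h2⟩ := exists_le_covBy_of_lt h
      rcases strict_or_weak hω h2 with h3 | h3
      · exact ⟨y₁, h3, h1⟩
      · obtain ⟨y', h4, h5⟩ := ih y₁ h2.lt h1 (by rw [← (hp.weak _ _ h3).1]; exact hc)
        obtain ⟨z, h6, h7⟩ := hg.sw _ _ _ h4 h3
        exact ⟨z, h7, h5.trans h6.1.le⟩

omit [Finite P] in
theorem Pot.C1 (hg : Good ω) (hp : Pot ω r c) {x y : P}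
    (h : ReflTransGen (NE ω) x y) : ∀ y', c x < c y → WeakCover ω y' y →
    ReflTransGen (NE ω) x y' := by
  induction h with
  | refl => intro y' h1; omega
  | @tail z y h1 h2 ih =>
    intro y' hc hy
    rcases h2 with h2 | h2
    · rw [hg.lw y' z y hy h2]; exact h1
    · obtain ⟨v, hv1, hv2⟩ := hg.ws _ _ _ hy h2
      have := ih v (by rw [(hp.strict _ _ h2).2]; exact hc) hv2
      exact this.tail (Or.inr hv1)

omit [Finite P] in
theorem Pot.C2 (hg : Good ω) (hp : Pot ω r c) {x y : P}
    (h : ReflTransGen (NE ω) x y) : ∀ y', r y < r x → StrictCover ω y y' →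
    ReflTransGen (NE ω) x y' := by
  induction h with
  | refl => intro y' h1; omega
  | @tail z y h1 h2 ih =>
    intro y' hc hy
    rcases h2 with h2 | h2
    · obtain ⟨v, hv1, hv2⟩ := hg.ws _ _ _ h2 hy
      have := ih v (by rw [← (hp.weak _ _ h2).1]; exact hc) hv1
      exact this.tail (Or.inl hv2)
    · rw [hg.us y y' z hy h2]; exact h1

omit [Finite P] in
theorem Pot.C3 (hg : Good ω) (hp : Pot ω r c) {x y : P}
    (h : ReflTransGen (NE ω) y x) : ∀ y', c y < c x → WeakCover ω y y' →
    ReflTransGen (NE ω) y' x := by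
  induction h using ReflTransGen.head_induction_on with
  | refl => intro y' h1; omega
  | @head y z h2 h1 ih =>
    intro y' hc hy
    rcases h2 with h2 | h2
    · rw [hg.uw y y' z hy h2]; exact h1
    · obtain ⟨v, hv1, hv2⟩ := hg.sw _ _ _ h2 hy
      have := ih v (by rw [← (hp.strict _ _ h2).2]; exact hc) hv1
      exact this.head (Or.inr hv2)

omit [Finite P] in
theorem Pot.C4 (hg : Good ω) (hp : Pot ω r c) {x y : P}
    (h : ReflTransGen (NE ω) y x) : ∀ y', r x < r y → StrictCover ω y' y →
    ReflTransGen (NE ω) y' x := by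
  induction h using ReflTransGen.head_induction_on with
  | refl => intro y' h1; omega
  | @head y z h2 h1 ih =>
    intro y' hc hy
    rcases h2 with h2 | h2
    · obtain ⟨v, hv1, hv2⟩ := hg.sw _ _ _ hy h2
      have := ih v (by rw [(hp.weak _ _ h2).1]; exact hc) hv2
      exact this.head (Or.inl hv1)
    · rw [hg.ls y' z y hy h2]; exact h1

omit [Finite P] in
theorem Pot.D1 (hp : Pot ω r c) {x y : P}
    (h : ReflTransGen (NE ω) x y) : c x = c y → y ≤ x := by
  induction h with
  | refl => intro _; exact le_rfl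
  | @tail z y h1 h2 ih =>
    intro hc
    have h3 := hp.ne h1
    have h4 := hp.ne (ReflTransGen.single h2)
    rcases h2 with h2 | h2
    · have := (hp.weak _ _ h2).2
      omega
    · exact h2.1.le.trans (ih (by omega))

omit [Finite P] in
theorem Pot.D2 (hp : Pot ω r c) {x y : P}
    (h : ReflTransGen (NE ω) x y) : r x = r y → x ≤ y := by
  induction h with
  | refl => intro _; exact le_rfl
  | @tail z y h1 h2 ih =>
    intro hc
    have h3 := hp.ne h1
    have h4 := hp.ne (ReflTransGen.single h2)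
    rcases h2 with h2 | h2
    · exact (ih (by omega)).trans h2.1.le
    · have := (hp.strict _ _ h2).1
      omega

theorem Pot.D3 (hω : Function.Injective ω) (hp : Pot ω r c) {x y : P} (h : x ≤ y)
    (hc : c x = c y) : ReflTransGen (NE ω) y x := by
  induction y using WellFoundedLT.induction with
  | ind y ih =>
    rcases h.eq_or_lt with h | h
    · subst h; exact ReflTransGen.refl
    · obtain ⟨y₁, h1, h2⟩ := exists_le_covBy_of_lt h
      have h3 := hp.mono hω h1
      have h4 := hp.mono hω h2.le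
      rcases strict_or_weak hω h2 with h5 | h5
      · exact (ih y₁ h2.lt h1 (by omega)).head (Or.inr h5)
      · have := (hp.weak _ _ h5).2
        omega

theorem Pot.D4 (hω : Function.Injective ω) (hp : Pot ω r c) {x y : P} (h : x ≤ y)
    (hc : r x = r y) : ReflTransGen (NE ω) x y := by
  induction y using WellFoundedLT.induction with
  | ind y ih =>
    rcases h.eq_or_lt with h | h
    · subst h; exact ReflTransGen.refl
    · obtain ⟨y₁, h1, h2⟩ := exists_le_covBy_of_lt h
      have h3 := hp.mono hω h1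
      have h4 := hp.mono hω h2.le
      rcases strict_or_weak hω h2 with h5 | h5
      · have := (hp.strict _ _ h5).1
        omega
      · exact (ih y₁ h2.lt h1 (by omega)).tail (Or.inl h5)

/-- related elements -/
def Rel4 (ω : P → α) (x y : P) : Prop :=
  x ≤ y ∨ y ≤ x ∨ ReflTransGen (NE ω) x y ∨ ReflTransGen (NE ω) y x

theorem Pot.step (hω : Function.Injective ω) (hg : Good ω) (hp : Pot ω r c) {x y y' : P}
    (h : Rel4 ω x y) (hy : y ⋖ y' ∨ y' ⋖ y) : Rel4 ω x y' := by
  rcases h with h | h | h | h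
  · -- x ≤ y
    have hm := hp.mono hω h
    rcases hy with hy | hy
    · exact Or.inl (h.trans hy.le)
    · rcases strict_or_weak hω hy with hy | hy
      · rcases hm.1.lt_or_eq with h1 | h1
        · obtain ⟨y'', h2, h3⟩ := hp.B2 hω hg h h1
          rw [hg.ls y' y'' y hy h2]
          exact Or.inl h3
        · exact Or.inr (Or.inr (Or.inl ((hp.D4 hω h h1).tail (Or.inr hy))))
      · rcases hm.2.lt_or_eq with h1 | h1
        · obtain ⟨y'', h2, h3⟩ := hp.B1 hω hg h h1
          rw [hg.lw y' y'' y hy h2]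
          exact Or.inl h3
        · exact Or.inr (Or.inr (Or.inr ((hp.D3 hω h h1).head (Or.inl hy))))
  · -- y ≤ x
    have hm := hp.mono hω h
    rcases hy with hy | hy
    · rcases strict_or_weak hω hy with hy | hy
      · rcases hm.1.lt_or_eq with h1 | h1
        · obtain ⟨y'', h2, h3⟩ := hp.A2 hω hg h h1
          rw [hg.us y y' y'' hy h2]
          exact Or.inr (Or.inl h3)
        · exact Or.inr (Or.inr (Or.inr ((hp.D4 hω h h1).head (Or.inr hy))))
      · rcases hm.2.lt_or_eq with h1 | h1
        · obtain ⟨y'', h2, h3⟩ := hp.A1 hω hg h h1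
          rw [hg.uw y y' y'' hy h2]
          exact Or.inr (Or.inl h3)
        · exact Or.inr (Or.inr (Or.inl ((hp.D3 hω h h1).tail (Or.inl hy))))
    · exact Or.inr (Or.inl (hy.le.trans h))
  · -- x ⇝ y
    have hm := hp.ne h
    rcases hy with hy | hy
    · rcases strict_or_weak hω hy with hy | hy
      · rcases hm.2.lt_or_eq with h1 | h1
        · exact Or.inr (Or.inr (Or.inl (hp.C2 hg h y' h1 hy)))
        · exact Or.inl ((hp.D2 h h1.symm).trans hy.1.le)
      · exact Or.inr (Or.inr (Or.inl (h.tail (Or.inl hy))))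
    · rcases strict_or_weak hω hy with hy | hy
      · exact Or.inr (Or.inr (Or.inl (h.tail (Or.inr hy))))
      · rcases hm.1.lt_or_eq with h1 | h1
        · exact Or.inr (Or.inr (Or.inl (hp.C1 hg h y' h1 hy)))
        · exact Or.inr (Or.inl (hy.1.le.trans (hp.D1 h h1)))
  · -- y ⇝ x
    have hm := hp.ne h
    rcases hy with hy | hy
    · rcases strict_or_weak hω hy with hy | hy
      · exact Or.inr (Or.inr (Or.inr (h.head (Or.inr hy))))
      · rcases hm.1.lt_or_eq with h1 | h1
        · exact Or.inr (Or.inr (Or.inr (hp.C3 hg h y' h1 hy)))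
        · exact Or.inl ((hp.D1 h h1).trans hy.1.le)
    · rcases strict_or_weak hω hy with hy | hy
      · rcases hm.2.lt_or_eq with h1 | h1
        · exact Or.inr (Or.inr (Or.inr (hp.C4 hg h y' h1 hy)))
        · exact Or.inr (Or.inl (hy.1.le.trans (hp.D2 h h1.symm)))
      · exact Or.inr (Or.inr (Or.inr (h.head (Or.inl hy))))

/-- connected elements are related -/
theorem Pot.rel_of_conn (hω : Function.Injective ω) (hg : Good ω) (hp : Pot ω r c) {x y : P}
    (h : ReflTransGen (fun a b : P => a ⋖ b ∨ b ⋖ a) x y) : Rel4 ω x y := by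
  induction h with
  | refl => exact Or.inl le_rfl
  | tail _ h2 ih => exact hp.step hω hg ih h2

theorem Pot.le_of_rel (hω : Function.Injective ω) (hp : Pot ω r c) {x y : P} (h : Rel4 ω x y)
    (h1 : r x ≤ r y) (h2 : c x ≤ c y) : x ≤ y := by
  rcases h with h | h | h | h
  · exact h
  · have hm := hp.mono hω h
    rcases h.eq_or_lt with h3 | h3
    · exact h3.ge
    · exfalso
      obtain ⟨z, h4, h5⟩ := exists_covBy_le_of_lt h3
      have hm' := hp.mono hω h5
      rcases strict_or_weak hω h4 with h6 | h6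
      · have := hp.strict _ _ h6
        omega
      · have := hp.weak _ _ h6
        omega
  · have hm := hp.ne h
    exact hp.D2 h (by omega)
  · have hm := hp.ne h
    exact hp.D1 h (by omega)

/-- convexity -/
theorem Pot.convex (hω : Function.Injective ω) (hg : Good ω) (hp : Pot ω r c) {x y : P}
    (h : x ≤ y) (a b : ℤ) (ha : r x ≤ a) (ha' : a ≤ r y) (hb : c x ≤ b) (hb' : b ≤ c y) :
    ∃ z, x ≤ z ∧ z ≤ y ∧ r z = a ∧ c z = b := by
  induction x using WellFoundedGT.induction with
  | ind x ih =>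
    rcases ha.lt_or_eq with h1 | h1
    · obtain ⟨x', h2, h3⟩ := hp.A2 hω hg h (by omega)
      have h4 := hp.strict _ _ h2
      obtain ⟨z, h5, h6, h7, h8⟩ := ih x' h2.1.lt h3 (by omega) (by omega)
      exact ⟨z, h2.1.le.trans h5, h6, h7, h8⟩
    · rcases hb.lt_or_eq with h1' | h1'
      · obtain ⟨x', h2, h3⟩ := hp.A1 hω hg h (by omega)
        have h4 := hp.weak _ _ h2
        obtain ⟨z, h5, h6, h7, h8⟩ := ih x' h2.1.lt h3 (by omega) (by omega)
        exact ⟨z, h2.1.le.trans h5, h6, h7, h8⟩
      · exact ⟨x, le_rfl, h, h1, h1'⟩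

omit [Finite P] in
theorem ne_label {x y : P} (h : ReflTransGen (NE ω) x y) : ω x ≤ ω y := by
  induction h with
  | refl => exact le_rfl
  | tail _ h2 ih =>
    rcases h2 with h2 | h2
    · exact ih.trans h2.2.le
    · exact ih.trans h2.2.le

end Pool.PPart
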