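import Pool.Agent.Lib.PPart.Local

/-!
# Existence of row and column coordinates
-/

namespace Pool.PPart

open Finset Classical

variable {P : Type*} {α : Type*} [PartialOrder P] [LinearOrder α]

/-- `r`, `c` are row and column coordinates on `A` -/
def IsPot (ω : P → α) (A : Finset P) (r c : P → ℤ) : Prop :=
  (∀ x ∈ A, ∀ y ∈ A, WeakCover ω x y → r y = r x ∧ c y = c x + 1) ∧
  (∀ x ∈ A, ∀ y ∈ A, StrictCover ω x y → r y = r x + 1 ∧ c y = c x)

theorem exists_pot_aux [Fintype P] {ω : P → α} (hω : Function.Injective ω) (hg : Good ω) :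
    ∀ (n : ℕ) (A : Finset P), A.card = n → IsLow A → ∃ r c : P → ℤ, IsPot ω A r c := by
  intro n
  induction n using Nat.strong_induction_on with
  | _ n ih =>
  intro A hn hA
  rcases A.eq_empty_or_nonempty with hemp | hne
  · refine ⟨fun _ => 0, fun _ => 0, ?_, ?_⟩
    · intro x hx; rw [hemp] at hx; simp at hx
    · intro x hx; rw [hemp] at hx; simp at hx
  obtain ⟨e, heA, hemin⟩ := Finset.exists_min_image A ω hne
  set A' : Finset P := A.filter (fun y => ¬ e ≤ y) with hA'
  have hA'low : IsLow A' := by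
    intro x hx y hy
    rw [hA', Finset.mem_filter] at hx ⊢
    exact ⟨hA x hx.1 y hy, fun h => hx.2 (h.trans hy)⟩
  have hcard : A'.card < A.card := by
    apply Finset.card_lt_card
    rw [Finset.ssubset_iff_of_subset (Finset.filter_subset _ _)]
    exact ⟨e, heA, by simp [hA']⟩
  obtain ⟨r, c, hr1, hr2⟩ := ih A'.card (by omega) A' rfl hA'low
  -- no strict upper covers in `E`
  have hnoS : ∀ x, x ∈ A → e ≤ x → ∀ y ∈ A, ¬ StrictCover ω x y := by
    intro x
    induction x using WellFoundedLT.induction with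
    | ind x ihx =>
      intro hxA hex y hyA hxy
      rcases hex.eq_or_lt with h | h
      · subst h
        exact absurd hxy.2 (not_lt.2 (hemin y hyA))
      · obtain ⟨x', hx1, hx2⟩ := exists_le_covBy_of_lt h
        have hx'A : x' ∈ A := hA x hxA x' hx2.le
        rcases strict_or_weak hω hx2 with h3 | h3
        · exact ihx x' hx2.lt hx'A hx1 x hxA h3
        · obtain ⟨z, hz1, hz2⟩ := hg.ws x' x y h3 hxy
          exact ihx x' hx2.lt hx'A hx1 z (hA y hyA z hz2.1.le) hz1
  -- predecessors in `E`
  have hpred : ∀ x, x ∈ A → e < x → ∃ x', e ≤ x' ∧ WeakCover ω x' x := by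
    intro x hxA hex
    obtain ⟨x', hx1, hx2⟩ := exists_le_covBy_of_lt hex
    refine ⟨x', hx1, ?_⟩
    rcases strict_or_weak hω hx2 with h3 | h3
    · exact absurd h3 (hnoS x' (hA x hxA x' hx2.le) hx1 x hxA)
    · exact h3
  -- weak covers do not enter `E`
  have hWin : ∀ x y, x ∈ A → y ∈ A → e ≤ y → WeakCover ω x y → e ≤ x := by
    intro x y hxA hyA hey hxy
    rcases hey.eq_or_lt with h | h
    · subst h
      exact absurd hxy.2 (not_lt.2 (hemin x hxA))
    · obtain ⟨y', hy1, hy2⟩ := hpred y hyA h
      rw [hg.lw x y' y hxy hy2]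
      exact hy1
  -- total
  have htot : ∀ x, x ∈ A → e ≤ x → ∀ y, y ∈ A → e ≤ y → x ≤ y ∨ y ≤ x := by
    intro x
    induction x using WellFoundedLT.induction with
    | ind x ihx =>
      intro hxA hex y hyA hey
      rcases hex.eq_or_lt with h | h
      · subst h; exact Or.inl hey
      · obtain ⟨x', hx1, hx2⟩ := hpred x hxA h
        have hx'A : x' ∈ A := hA x hxA x' hx2.1.le
        rcases ihx x' hx2.1.lt hx'A hx1 y hyA hey with h3 | h3
        · rcases h3.eq_or_lt with h4 | h4
          · subst h4
            exact Or.inr hx2.1.le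
          · obtain ⟨y', hy1, hy2⟩ := exists_covBy_le_of_lt h4
            have hy'A : y' ∈ A := hA y hyA y' hy2
            rcases strict_or_weak hω hy1 with h5 | h5
            · exact absurd h5 (hnoS x' hx'A hx1 y' hy'A)
            · rw [hg.uw x' x y' hx2 h5]
              exact Or.inl hy2
        · exact Or.inr (h3.trans hx2.1.le)
  -- positions
  let pos : P → ℤ := fun x => ((A.filter (fun z => e ≤ z ∧ z < x)).card : ℤ)
  have hpos : ∀ x y, x ∈ A → y ∈ A → e ≤ x → WeakCover ω x y → pos y = pos x + 1 := by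
    intro x y hxA hyA hex hxy
    have h1 : A.filter (fun z => e ≤ z ∧ z < y) = insert x (A.filter (fun z => e ≤ z ∧ z < x)) := by
      ext z
      simp only [Finset.mem_filter, Finset.mem_insert]
      constructor
      · rintro ⟨hzA, hez, hzy⟩
        obtain ⟨z', hz1, hz2⟩ := exists_le_covBy_of_lt hzy
        have hez' : e ≤ z' := hez.trans hz1
        have hz'A : z' ∈ A := hA y hyA z' hz2.le
        have h3 : WeakCover ω z' y := by
          rcases strict_or_weak hω hz2 with h3 | h3
          · exact absurd h3 (hnoS z' hz'A hez' y hyA)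
          · exact h3
        have h4 := hg.lw z' x y h3 hxy
        subst h4
        rcases hz1.eq_or_lt with h5 | h5
        · exact Or.inl h5
        · exact Or.inr ⟨hzA, hez, h5⟩
      · rintro (rfl | ⟨hzA, hez, hzx⟩)
        · exact ⟨hxA, hex, hxy.1.lt⟩
        · exact ⟨hzA, hez, hzx.trans hxy.1.lt⟩
    simp only [pos]
    rw [h1, Finset.card_insert_of_notMem (by simp)]
    push_cast
    ring
  have hnotE : ∀ x, x ∈ A → ¬ e ≤ x → x ∈ A' := by
    intro x hx h
    rw [hA', Finset.mem_filter]
    exact ⟨hx, h⟩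
  by_cases hcase : ∃ g x, g ∈ A ∧ x ∈ A ∧ e ≤ x ∧ StrictCover ω g x
  · obtain ⟨g₀, x₀, hg0A, hx0A, hex0, hgx0⟩ := hcase
    -- comparison along the row
    have hcomp : ∀ x', x' ∈ A → ∀ x g, e ≤ x → x ≤ x' → StrictCover ω g x →
        ∃ g', StrictCover ω g' x' ∧ r g' = r g ∧ c g' = c g + (pos x' - pos x) := by
      intro x'
      induction x' using WellFoundedLT.induction with
      | ind x' ihx =>
        intro hx'A x g hex hxx' hgx
        rcases hxx'.eq_or_lt with h | h
        · subst h
          exact ⟨g, hgx, rfl, by ring⟩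
        · obtain ⟨x'', hx1, hx2⟩ := exists_le_covBy_of_lt h
          have hx''A : x'' ∈ A := hA x' hx'A x'' hx2.le
          have hex'' : e ≤ x'' := hex.trans hx1
          have hx2' : WeakCover ω x'' x' := by
            rcases strict_or_weak hω hx2 with h3 | h3
            · exact absurd h3 (hnoS x'' hx''A hex'' x' hx'A)
            · exact h3
          obtain ⟨g'', h1, h2, h3⟩ := ihx x'' hx2.lt hx''A x g hex hx1 hgx
          obtain ⟨z, hz1, hz2⟩ := hg.sw g'' x'' x' h1 hx2'
          have hzA : z ∈ A := hA x' hx'A z hz2.1.le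
          have hg''A : g'' ∈ A := hA z hzA g'' hz1.1.le
          have hz' : z ∈ A' := hnotE z hzA (fun h => hnoS z hzA h x' hx'A hz2)
          have hg' : g'' ∈ A' := hnotE g'' hg''A (fun h => hnoS g'' hg''A h x'' hx''A h1)
          obtain ⟨h4, h5⟩ := hr1 g'' hg' z hz' hz1
          have h6 := hpos x'' x' hx''A hx'A hex'' hx2'
          exact ⟨z, hz2, by rw [h4, h2], by rw [h5, h3, h6]; ring⟩
    refine ⟨fun x => if e ≤ x then r g₀ + 1 else r x,
      fun x => if e ≤ x then c g₀ + (pos x - pos x₀) else c x, ?_, ?_⟩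
    · intro x hxA y hyA hxy
      by_cases hex : e ≤ x
      · have hey : e ≤ y := hex.trans hxy.1.le
        simp only [hex, hey, if_true]
        have := hpos x y hxA hyA hex hxy
        exact ⟨trivial, by rw [this]; ring⟩
      · have hey : ¬ e ≤ y := fun h => hex (hWin x y hxA hyA h hxy)
        simp only [hex, hey, if_false]
        exact hr1 x (hnotE x hxA hex) y (hnotE y hyA hey) hxy
    · intro x hxA y hyA hxy
      have hex : ¬ e ≤ x := fun h => hnoS x hxA h y hyA hxy
      by_cases hey : e ≤ y
      · simp only [hex, hey, if_true, if_false]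
        rcases htot x₀ hx0A hex0 y hyA hey with h | h
        · obtain ⟨g', h1, h2, h3⟩ := hcomp y hyA x₀ g₀ hex0 h hgx0
          have h4 := hg.ls g' x y h1 hxy
          subst h4
          exact ⟨by rw [h2], by rw [h3]⟩
        · obtain ⟨g', h1, h2, h3⟩ := hcomp x₀ hx0A y x hey h hxy
          have h4 := hg.ls g' g₀ x₀ h1 hgx0
          subst h4
          exact ⟨by rw [h2], by rw [h3]; ring⟩
      · simp only [hex, hey, if_false]
        exact hr2 x (hnotE x hxA hex) y (hnotE y hyA hey) hxy
  · push Not at hcase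
    refine ⟨fun x => if e ≤ x then 0 else r x, fun x => if e ≤ x then pos x else c x, ?_, ?_⟩
    · intro x hxA y hyA hxy
      by_cases hex : e ≤ x
      · have hey : e ≤ y := hex.trans hxy.1.le
        simp only [hex, hey, if_true]
        exact ⟨trivial, hpos x y hxA hyA hex hxy⟩
      · have hey : ¬ e ≤ y := fun h => hex (hWin x y hxA hyA h hxy)
        simp only [hex, hey, if_false]
        exact hr1 x (hnotE x hxA hex) y (hnotE y hyA hey) hxy
    · intro x hxA y hyA hxy
      have hey : ¬ e ≤ y := fun h => hcase x y hxA hyA h hxy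
      have hex : ¬ e ≤ x := fun h => hey (h.trans hxy.1.le)
      simp only [hex, hey, if_false]
      exact hr2 x (hnotE x hxA hex) y (hnotE y hyA hey) hxy

theorem exists_pot [Fintype P] {ω : P → α} (hω : Function.Injective ω) (hg : Good ω) :
    ∃ r c : P → ℤ, (∀ x y, WeakCover ω x y → r y = r x ∧ c y = c x + 1) ∧
      (∀ x y, StrictCover ω x y → r y = r x + 1 ∧ c y = c x) := by
  obtain ⟨r, c, h1, h2⟩ := exists_pot_aux hω hg _ (univ : Finset P) rfl
    (fun _ _ _ _ => Finset.mem_univ _)
  exact ⟨r, c, fun x y => h1 x (Finset.mem_univ _) y (Finset.mem_univ _),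
    fun x y => h2 x (Finset.mem_univ _) y (Finset.mem_univ _)⟩

end Pool.PPart
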