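import Pool.Agent.Lib.PPart.LinExt

/-!
# The relation `≺`, the sets `J`, `D(A)` and the size lemma
-/

namespace Pool.PPart

open Finset Classical

variable {P : Type*} {α : Type*} [PartialOrder P] [LinearOrder α]

/-- `a ≺ b`: there is a strict pair inside `[a, b]`. -/
def Prec (ω : P → α) (a b : P) : Prop := ∃ u v, a ≤ u ∧ u < v ∧ v ≤ b ∧ ω v < ω u

theorem Prec.lt {ω : P → α} {a b : P} (h : Prec ω a b) : a < b := by
  obtain ⟨u, v, h1, h2, h3, _⟩ := h
  exact lt_of_le_of_lt h1 (lt_of_lt_of_le h2 h3)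

theorem Prec.mono {ω : P → α} {a b a' b' : P} (h : Prec ω a b) (ha : a' ≤ a) (hb : b ≤ b') :
    Prec ω a' b' := by
  obtain ⟨u, v, h1, h2, h3, h4⟩ := h
  exact ⟨u, v, ha.trans h1, h2, h3.trans hb, h4⟩

theorem StrictCover.prec {ω : P → α} {a b : P} (h : StrictCover ω a b) : Prec ω a b :=
  ⟨a, b, le_rfl, h.1.lt, le_rfl, h.2⟩

variable [Fintype P]

/-- the elements with nothing `≺` them -/
noncomputable def J (ω : P → α) : Finset P := univ.filter (fun x => ∀ a, ¬ Prec ω a x)

/-- the elements `≺` some element of `A` -/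
noncomputable def Dn (ω : P → α) (A : Finset P) : Finset P :=
  univ.filter (fun a => ∃ b ∈ A, Prec ω a b)

/-- lower sets -/
def IsLow (A : Finset P) : Prop := ∀ x ∈ A, ∀ y, y ≤ x → y ∈ A

theorem mem_J {ω : P → α} {x : P} : x ∈ J ω ↔ ∀ a, ¬ Prec ω a x := by simp [J]

theorem mem_Dn {ω : P → α} {A : Finset P} {a : P} : a ∈ Dn ω A ↔ ∃ b ∈ A, Prec ω a b := by
  simp [Dn]

theorem J_low (ω : P → α) : IsLow (J ω) := by
  intro x hx y hy
  rw [mem_J] at hx ⊢
  intro a ha
  exact hx a (ha.mono le_rfl hy)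

theorem Dn_low (ω : P → α) (A : Finset P) : IsLow (Dn ω A) := by
  intro x hx y hy
  rw [mem_Dn] at hx ⊢
  obtain ⟨b, hb, h⟩ := hx
  exact ⟨b, hb, h.mono hy le_rfl⟩

theorem Dn_subset {ω : P → α} {A : Finset P} (hA : IsLow A) : Dn ω A ⊆ A := by
  intro x hx
  rw [mem_Dn] at hx
  obtain ⟨b, hb, h⟩ := hx
  exact hA b hb x h.lt.le

theorem Dn_mono {ω : P → α} {A B : Finset P} (h : A ⊆ B) : Dn ω A ⊆ Dn ω B := by
  intro x hx
  rw [mem_Dn] at hx ⊢
  obtain ⟨b, hb, h'⟩ := hx
  exact ⟨b, h hb, h'⟩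

theorem Dn_union_J (ω : P → α) (A : Finset P) : Dn ω (A ∪ J ω) = Dn ω A := by
  apply Finset.Subset.antisymm
  · intro x hx
    rw [mem_Dn] at hx ⊢
    obtain ⟨b, hb, h'⟩ := hx
    rw [Finset.mem_union] at hb
    rcases hb with hb | hb
    · exact ⟨b, hb, h'⟩
    · rw [mem_J] at hb
      exact absurd h' (hb x)
  · exact Dn_mono Finset.subset_union_left

/-- in a linear extension refining `g`, lower level sets are initial segments -/
theorem low_iff (e : P ≃ Fin (Fintype.card P)) {g : P → ℕ}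
    (hg : ∀ x y, g x < g y → e x < e y) (A : Finset P) (m : ℕ) (hA : ∀ x, x ∈ A ↔ g x < m) (x : P) :
    x ∈ A ↔ (e x : ℕ) < A.card := by
  apply mem_iff_lt
  intro x hx y hy
  apply hg
  rw [hA] at hx hy
  omega

/-- existence of P-partitions with content `1^a, c, 1^b` for given lower sets `A₁ ⊆ A₂` with
weak difference -/
theorem exists_block {ω : P → α} (A₁ A₂ : Finset P) (h1 : IsLow A₁) (h2 : IsLow A₂)
    (h12 : A₁ ⊆ A₂) (hw : ∀ x y, x < y → x ∉ A₁ → y ∈ A₂ → ¬ ω y < ω x) :
    ∃ f : P → ℕ, IsPPartition ω f ∧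
      HasContent f (List.replicate A₁.card 1 ++
        ((A₂.card - A₁.card) :: List.replicate (Fintype.card P - A₂.card) 1)) ∧
      (∀ x, x ∈ A₁ ↔ f x < A₁.card) ∧ (∀ x, x ∈ A₂ ↔ f x ≤ A₁.card) := by
  have hc12 : A₁.card ≤ A₂.card := Finset.card_le_card h12
  have hc2 : A₂.card ≤ Fintype.card P := Finset.card_le_univ _
  let g : P → ℕ := fun x => if x ∈ A₁ then 0 else if x ∈ A₂ then 1 else 2
  have hg : Monotone g := by
    intro x y hxy
    simp only [g]
    by_cases hy1 : y ∈ A₁
    · simp [hy1, h1 y hy1 x hxy]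
    · by_cases hy2 : y ∈ A₂
      · have := h2 y hy2 x hxy
        simp only [hy1, hy2, this, if_true, if_false]
        split_ifs <;> omega
      · simp only [hy1, hy2, if_false]
        split_ifs <;> omega
  obtain ⟨e, he1, he2⟩ := exists_linext g hg
  have hA1 : ∀ x, x ∈ A₁ ↔ (e x : ℕ) < A₁.card := by
    apply low_iff e he1 A₁ 1
    intro x
    simp only [g]
    split_ifs with h h' <;> simp_all
  have hA2 : ∀ x, x ∈ A₂ ↔ (e x : ℕ) < A₂.card := by
    apply low_iff e he1 A₂ 2
    intro x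
    simp only [g]
    split_ifs with h h'
    · simp [h12 h]
    · simp [h']
    · simp [h']
  set L := List.replicate A₁.card 1 ++
        ((A₂.card - A₁.card) :: List.replicate (Fintype.card P - A₂.card) 1) with hL
  have hsum : L.sum = Fintype.card P := by
    simp [hL]
    omega
  have hblk : ∀ t, t < Fintype.card P → blk L t =
      if t < A₁.card then t else if t < A₂.card then A₁.card
        else t - A₂.card + 1 + A₁.card := by
    intro t ht
    rw [hL, blk_append]
    simp only [List.sum_replicate, smul_eq_mul, mul_one, List.length_replicate, blk]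
    split_ifs with h h' h'' h'''
    · rw [blk_ones _ _ h]
    · omega
    · omega
    · omega
    · rw [blk_ones _ _ (by omega)]
      omega
  refine ⟨fun x => blk L (e x : ℕ), ?_, hasContent_blk e L hsum, ?_, ?_⟩
  · apply isPPartition_blk e he2
    intro x y hxy hb
    rw [hblk _ (e x).2, hblk _ (e y).2] at hb
    have hlt : (e x : ℕ) < (e y : ℕ) := he2 x y hxy
    have h3 := (e y).2
    apply hw x y hxy
    · rw [hA1]
      split_ifs at hb <;> omega
    · rw [hA2]
      split_ifs at hb <;> omega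
  · intro x
    have h3 := (e x).2
    simp only
    rw [hA1, hblk _ (e x).2]
    split_ifs <;> omega
  · intro x
    have h3 := (e x).2
    simp only
    rw [hA2, hblk _ (e x).2]
    split_ifs <;> omega

/-- the zero fibre of a P-partition lies in `J` -/
theorem zero_fibre {ω : P → α} {f : P → ℕ} (hf : IsPPartition ω f) {x : P} (hx : f x = 0) :
    x ∈ J ω := by
  rw [mem_J]
  rintro a ⟨u, v, h1, h2, h3, h4⟩
  have h5 : f v ≤ f x := by
    rcases h3.eq_or_lt with h | h
    · rw [h]
    · exact (hf v x h).1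
  have h6 := (hf u v h2).2 h4
  omega

theorem fc_zero_le {ω : P → α} {f : P → ℕ} (hf : IsPPartition ω f) : fc f 0 ≤ (J ω).card := by
  apply Finset.card_le_card
  intro x hx
  rw [Finset.mem_filter] at hx
  exact zero_fibre hf hx.2

/-- existence transfers along permutations of the content -/
theorem exists_perm_content {ω : P → α} (hs : Sym ω) {L L' : List ℕ} (hL : L.Perm L')
    (h : ∃ f : P → ℕ, IsPPartition ω f ∧ HasContent f L) :
    ∃ f : P → ℕ, IsPPartition ω f ∧ HasContent f L' := by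
  obtain ⟨f, hf⟩ := h
  have h1 : 0 < N ω L := by
    have : Nonempty {f : P → ℕ // IsPPartition ω f ∧ HasContent f L} := ⟨⟨f, hf⟩⟩
    exact Nat.card_pos
  rw [hs L L' hL] at h1
  obtain ⟨⟨g, hg⟩⟩ := (Nat.card_pos_iff.1 h1).1
  exact ⟨g, hg⟩

/-- **Size lemma** -/
theorem card_le {ω : P → α} (hs : Sym ω) (A : Finset P) (hA : IsLow A) :
    A.card ≤ (Dn ω A).card + (J ω).card := by
  obtain ⟨f, hf1, hf2, _, _⟩ := exists_block (ω := ω) (Dn ω A) A (Dn_low ω A) hA (Dn_subset hA) (by
    intro x y hxy hx hy h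
    exact hx (mem_Dn.2 ⟨y, hy, ⟨x, y, le_rfl, hxy, le_rfl, h⟩⟩))
  obtain ⟨g, hg1, hg2⟩ := exists_perm_content hs
    (L' := (A.card - (Dn ω A).card) :: (List.replicate (Dn ω A).card 1 ++
      List.replicate (Fintype.card P - A.card) 1)) (by
      exact List.perm_middle) ⟨f, hf1, hf2⟩
  have h1 := hg2 0
  have h2 := fc_zero_le hg1
  simp only [List.getD_cons_zero] at h1
  omega

/-- `A` is attained -/
def Att (ω : P → α) (A : Finset P) : Prop := A.card = (Dn ω A).card + (J ω).card

theorem Att.J_subset {ω : P → α} (hs : Sym ω) {A : Finset P} (hA : IsLow A) (h : Att ω A) :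
    J ω ⊆ A := by
  have h1 : IsLow (A ∪ J ω) := by
    intro x hx y hy
    rw [Finset.mem_union] at hx ⊢
    rcases hx with hx | hx
    · exact Or.inl (hA x hx y hy)
    · exact Or.inr (J_low ω x hx y hy)
  have h2 := card_le hs _ h1
  rw [Dn_union_J, ← h] at h2
  have h3 : A = A ∪ J ω := Finset.eq_of_subset_of_card_le Finset.subset_union_left h2
  rw [h3]
  exact Finset.subset_union_right

end Pool.PPart
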