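import Pool.Agent.Lib.PPart.Size

/-!
# The star argument: (sw)-completion implies that all lower sets containing `J` are attained
-/

namespace Pool.PPart

open Finset Classical

variable {P : Type*} {α : Type*} [PartialOrder P] [LinearOrder α]

/-- `a` is a new element below `y` -/
def Pr (ω : P → α) (a y : P) : Prop := Prec ω a y ∧ ∀ v, v < y → ¬ Prec ω a v

/-- every square `x ⋖ₛ y ⋖_w w` can be completed to `x ⋖_w z ⋖ₛ w` -/
def SW (ω : P → α) : Prop := ∀ x y w : P, StrictCover ω x y → WeakCover ω y w →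
  ∃ z, WeakCover ω x z ∧ StrictCover ω z w

/-- every square `x ⋖_w y ⋖ₛ w` can be completed to `x ⋖ₛ z ⋖_w w` -/
def WS (ω : P → α) : Prop := ∀ x y w : P, WeakCover ω x y → StrictCover ω y w →
  ∃ z, StrictCover ω x z ∧ WeakCover ω z w

theorem StrictCover.pr {ω : P → α} {a b : P} (h : StrictCover ω a b) : Pr ω a b :=
  ⟨h.prec, fun _ hv h' => h.1.2 h'.lt hv⟩

theorem exists_strictCover_or [Finite P] (ω : P → α) (u v : P) (h : u < v) :
    (∃ p q, u ≤ p ∧ StrictCover ω p q ∧ q ≤ v) ∨ ω u ≤ ω v := by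
  induction v using WellFoundedLT.induction with
  | ind v ih =>
    obtain ⟨v', h1, h2⟩ := exists_le_covBy_of_lt h
    rcases h1.eq_or_lt with h3 | h3
    · subst h3
      by_cases h4 : ω v < ω u
      · exact Or.inl ⟨u, v, le_rfl, ⟨h2, h4⟩, le_rfl⟩
      · exact Or.inr (not_lt.1 h4)
    · rcases ih v' h2.lt h3 with ⟨p, q, hp, hpq, hq⟩ | h4
      · exact Or.inl ⟨p, q, hp, hpq, hq.trans h2.le⟩
      · by_cases h5 : ω v < ω v'
        · exact Or.inl ⟨v', v, h1, ⟨h2, h5⟩, le_rfl⟩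
        · exact Or.inr (h4.trans (not_lt.1 h5))

theorem Prec.exists_cover [Finite P] {ω : P → α} {a b : P} (h : Prec ω a b) :
    ∃ u v, a ≤ u ∧ StrictCover ω u v ∧ v ≤ b := by
  obtain ⟨u, v, h1, h2, h3, h4⟩ := h
  rcases exists_strictCover_or ω u v h2 with ⟨p, q, hp, hpq, hq⟩ | h5
  · exact ⟨p, q, h1.trans hp, hpq, hq.trans h3⟩
  · exact absurd h4 (not_lt.2 h5)

theorem Prec.exists_pr [Finite P] {ω : P → α} {a b : P} (h : Prec ω a b) :
    ∃ c, c ≤ b ∧ Pr ω a c := by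
  induction b using WellFoundedLT.induction with
  | ind b ih =>
    by_cases h1 : ∃ v, v < b ∧ Prec ω a v
    · obtain ⟨v, hv, hav⟩ := h1
      obtain ⟨c, hc, hac⟩ := ih v hv hav
      exact ⟨c, hc.trans hv.le, hac⟩
    · push Not at h1
      exact ⟨b, le_rfl, h, h1⟩

variable [Fintype P]

/-- the lower set `A` and all its lower subsets containing `J` are attained -/
def FullAtt (ω : P → α) (A : Finset P) : Prop :=
  IsLow A ∧ J ω ⊆ A ∧ ∀ B, B ⊆ A → IsLow B → J ω ⊆ B → Att ω B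

/-- the element `y⁻` -/
noncomputable def mi (ω : P → α) (y : P) : P := if h : ∃ a, Pr ω a y then h.choose else y

theorem Pr.not_mem_J {ω : P → α} {a y : P} (h : Pr ω a y) : y ∉ J ω := by
  intro hy
  rw [mem_J] at hy
  exact hy a h.1

theorem FullAtt.existsUnique {ω : P → α} {A : Finset P} (hF : FullAtt ω A) {y : P} (hy : y ∈ A)
    (hyJ : y ∉ J ω) : ∃! a, Pr ω a y := by
  obtain ⟨hlow, hJ, hatt⟩ := hF
  set B : Finset P := J ω ∪ univ.filter (fun x => x ≤ y) with hB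
  have hBlow : IsLow B := by
    intro x hx z hz
    simp only [hB, Finset.mem_union, Finset.mem_filter, Finset.mem_univ, true_and] at hx ⊢
    rcases hx with hx | hx
    · exact Or.inl (J_low ω x hx z hz)
    · exact Or.inr (hz.trans hx)
  have hyB : y ∈ B := by simp [hB]
  have hBA : B ⊆ A := by
    intro x hx
    simp only [hB, Finset.mem_union, Finset.mem_filter, Finset.mem_univ, true_and] at hx
    rcases hx with hx | hx
    · exact hJ hx
    · exact hlow y hy x hx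
  have hJB : J ω ⊆ B := Finset.subset_union_left
  have hmax : ∀ x ∈ B, y ≤ x → x = y := by
    intro x hx hyx
    simp only [hB, Finset.mem_union, Finset.mem_filter, Finset.mem_univ, true_and] at hx
    rcases hx with hx | hx
    · exact absurd (J_low ω x hx y hyx) hyJ
    · exact le_antisymm hx hyx
  have hB'low : IsLow (B.erase y) := by
    intro x hx z hz
    rw [Finset.mem_erase] at hx ⊢
    refine ⟨?_, hBlow x hx.2 z hz⟩
    rintro rfl
    exact hx.1 (hmax x hx.2 hz)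
  have hJB' : J ω ⊆ B.erase y := by
    intro x hx
    rw [Finset.mem_erase]
    refine ⟨?_, hJB hx⟩
    rintro rfl
    exact hyJ hx
  have h1 := hatt B hBA hBlow hJB
  have h2 := hatt (B.erase y) ((Finset.erase_subset _ _).trans hBA) hB'low hJB'
  have h3 : Dn ω (B.erase y) ⊆ Dn ω B := Dn_mono (Finset.erase_subset _ _)
  have h4 : (Dn ω B \ Dn ω (B.erase y)).card = 1 := by
    rw [Finset.card_sdiff_of_subset h3]
    unfold Att at h1 h2
    rw [Finset.card_erase_of_mem hyB] at h2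
    have : 0 < B.card := Finset.card_pos.2 ⟨y, hyB⟩
    omega
  obtain ⟨a, ha⟩ := Finset.card_eq_one.1 h4
  have key : ∀ b, b ∈ Dn ω B \ Dn ω (B.erase y) ↔ Pr ω b y := by
    intro b
    rw [Finset.mem_sdiff, mem_Dn, mem_Dn]
    constructor
    · rintro ⟨⟨c, hc, hbc⟩, hn⟩
      have hcy : c = y := by
        by_contra hne
        exact hn ⟨c, Finset.mem_erase.2 ⟨hne, hc⟩, hbc⟩
      subst hcy
      refine ⟨hbc, fun v hv hbv => hn ⟨v, ?_, hbv⟩⟩
      rw [Finset.mem_erase]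
      exact ⟨hv.ne, hBlow c hyB v hv.le⟩
    · rintro ⟨h5, h6⟩
      refine ⟨⟨y, hyB, h5⟩, ?_⟩
      rintro ⟨c, hc, hbc⟩
      rw [Finset.mem_erase] at hc
      simp only [hB, Finset.mem_union, Finset.mem_filter, Finset.mem_univ, true_and] at hc
      rcases hc.2 with h7 | h7
      · rw [mem_J] at h7
        exact h7 b hbc
      · exact h6 c (lt_of_le_of_ne h7 hc.1) hbc
  refine ⟨a, (key a).1 (by rw [ha]; simp), ?_⟩
  intro b hb
  have := (key b).2 hb
  rw [ha] at this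
  simpa using this

theorem FullAtt.pr_mi {ω : P → α} {A : Finset P} (hF : FullAtt ω A) {y : P} (hy : y ∈ A)
    (hyJ : y ∉ J ω) : Pr ω (mi ω y) y := by
  have h : ∃ a, Pr ω a y := (hF.existsUnique hy hyJ).exists
  unfold mi
  rw [dif_pos h]
  exact h.choose_spec

theorem FullAtt.eq_mi {ω : P → α} {A : Finset P} (hF : FullAtt ω A) {y : P} (hy : y ∈ A)
    {a : P} (ha : Pr ω a y) : a = mi ω y :=
  (hF.existsUnique hy ha.not_mem_J).unique ha (hF.pr_mi hy ha.not_mem_J)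

theorem FullAtt.strictCover_mi {ω : P → α} {A : Finset P} (hF : FullAtt ω A) {y : P} (hy : y ∈ A)
    (hyJ : y ∉ J ω) : StrictCover ω (mi ω y) y := by
  have h := hF.pr_mi hy hyJ
  obtain ⟨u, v, h1, h2, h3⟩ := h.1.exists_cover
  rcases h3.eq_or_lt with h4 | h4
  · subst h4
    have := hF.eq_mi hy h2.pr
    rw [← this]
    exact h2
  · exact absurd (h2.prec.mono h1 le_rfl) (h.2 v h4)

theorem FullAtt.mi_lt_cover {ω : P → α} (hω : Function.Injective ω) (hsw : SW ω)
    {A : Finset P} (hF : FullAtt ω A)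
    {y₁ y₂ : P} (hy₂ : y₂ ∈ A) (hJ : y₁ ∉ J ω) (h : y₁ ⋖ y₂) : mi ω y₁ < mi ω y₂ := by
  have hy₁ : y₁ ∈ A := hF.1 y₂ hy₂ y₁ h.le
  have h1 := hF.strictCover_mi hy₁ hJ
  rcases lt_or_gt_of_ne (hω.ne h.ne) with h2 | h2
  · obtain ⟨z, hz1, hz2⟩ := hsw _ _ _ h1 ⟨h, h2⟩
    rw [← hF.eq_mi hy₂ hz2.pr]
    exact hz1.1.lt
  · have h3 : StrictCover ω y₁ y₂ := ⟨h, h2⟩
    rw [← hF.eq_mi hy₂ h3.pr]
    exact h1.1.lt

theorem FullAtt.mi_lt {ω : P → α} (hω : Function.Injective ω) (hsw : SW ω)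
    {A : Finset P} (hF : FullAtt ω A) {y₁ y₂ : P} (hy₂ : y₂ ∈ A) (hJ : y₁ ∉ J ω) (h : y₁ < y₂) :
    mi ω y₁ < mi ω y₂ := by
  induction y₂ using WellFoundedLT.induction with
  | ind y₂ ih =>
    obtain ⟨y', h1, h2⟩ := exists_le_covBy_of_lt h
    have hJ' : y' ∉ J ω := fun h' => hJ (J_low ω y' h' y₁ h1)
    have h3 := hF.mi_lt_cover hω hsw hy₂ hJ' h2
    rcases h1.eq_or_lt with h4 | h4
    · subst h4
      exact h3
    · exact (ih y' h2.lt (hF.1 y₂ hy₂ y' h2.le) h4).trans h3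

theorem FullAtt.image_mi {ω : P → α} {A : Finset P} (hF : FullAtt ω A) :
    (A \ J ω).image (mi ω) = Dn ω A := by
  ext a
  rw [Finset.mem_image, mem_Dn]
  constructor
  · rintro ⟨y, hy, rfl⟩
    rw [Finset.mem_sdiff] at hy
    exact ⟨y, hy.1, (hF.pr_mi hy.1 hy.2).1⟩
  · rintro ⟨b, hb, hab⟩
    obtain ⟨c, hc, hac⟩ := hab.exists_pr
    have hcA := hF.1 b hb c hc
    exact ⟨c, Finset.mem_sdiff.2 ⟨hcA, hac.not_mem_J⟩, (hF.eq_mi hcA hac).symm⟩

theorem FullAtt.injOn_mi {ω : P → α} {A : Finset P} (hF : FullAtt ω A) :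
    Set.InjOn (mi ω) (A \ J ω : Finset P) := by
  apply Finset.injOn_of_card_image_eq
  rw [hF.image_mi, Finset.card_sdiff_of_subset hF.2.1]
  have := hF.2.2 A (Finset.Subset.refl _) hF.1 hF.2.1
  unfold Att at this
  omega

end Pool.PPart
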