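import Pool.Agent.Lib.PPart.Star

/-!
# The star argument: the counting step
-/

namespace Pool.PPart

open Finset Classical

variable {P : Type*} {α : Type*}

theorem card_filter_lt [Fintype P] (f : P → ℕ) (m : ℕ) :
    (univ.filter (fun x => f x < m)).card = ∑ i ∈ range m, fc f i := by
  rw [Finset.card_eq_sum_card_fiberwise (f := f) (t := range m)]
  · apply Finset.sum_congr rfl
    intro i hi
    rw [Finset.mem_range] at hi
    unfold fc
    congr 1
    ext x
    simp only [Finset.mem_filter, Finset.mem_univ, true_and]
    constructor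
    · rintro ⟨_, h⟩; exact h
    · intro h; exact ⟨by omega, h⟩
  · intro x hx
    simpa using hx

/-- content `1^k, j, 1^l` -/
theorem getD_L1 (k j l i : ℕ) :
    (List.replicate k 1 ++ (j :: List.replicate l 1)).getD i 0 =
      if i < k then 1 else if i = k then j else if i ≤ k + l then 1 else 0 := by
  simp only [List.getD_eq_getElem?_getD]
  rcases lt_trichotomy i k with h | h | h
  · rw [List.getElem?_append_left (by simpa using h)]
    simp [List.getElem?_replicate, h]
  · subst h
    rw [List.getElem?_append_right (by simp)]
    simp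
  · rw [List.getElem?_append_right (by simp; omega)]
    simp only [List.length_replicate]
    obtain ⟨m, rfl⟩ : ∃ m, i = k + 1 + m := ⟨i - (k + 1), by omega⟩
    rw [show k + 1 + m - k = m + 1 by omega, List.getElem?_cons_succ]
    rw [List.getElem?_replicate, if_neg (show ¬ (k + 1 + m < k) by omega),
      if_neg (show ¬ (k + 1 + m = k) by omega)]
    by_cases hm : m < l
    · rw [if_pos hm, if_pos (by omega)]; rfl
    · rw [if_neg hm, if_neg (by omega)]; rfl

/-- content `j, 1^k, 1^l` -/
theorem getD_L2 (k j l i : ℕ) :
    (j :: (List.replicate k 1 ++ List.replicate l 1)).getD i 0 =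
      if i = 0 then j else if i ≤ k + l then 1 else 0 := by
  rw [← List.replicate_add]
  rcases i with _ | i
  · simp
  · simp only [List.getD_eq_getElem?_getD, List.getElem?_cons_succ, List.getElem?_replicate]
    rw [if_neg (show ¬ (i + 1 = 0) by omega)]
    by_cases hm : i < k + l
    · rw [if_pos hm, if_pos (by omega)]; rfl
    · rw [if_neg hm, if_neg (by omega)]; rfl

variable [PartialOrder P] [LinearOrder α] [Fintype P]

/-- existence of P-partitions with content `j, 1^k, 1^l` with a given lower set `A ⊇ J` -/
theorem exists_jA {ω : P → α} (A : Finset P) (hA : IsLow A) (hJ : J ω ⊆ A) (k l : ℕ)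
    (hk : A.card = (J ω).card + k) (hl : Fintype.card P = (J ω).card + k + l) :
    ∃ f : P → ℕ, IsPPartition ω f ∧
      HasContent f ((J ω).card :: (List.replicate k 1 ++ List.replicate l 1)) ∧
      (∀ x, x ∈ A ↔ f x ≤ k) := by
  let g : P → ℕ := fun x => if x ∈ J ω then 0 else if x ∈ A then 1 else 2
  have hg : Monotone g := by
    intro x y hxy
    simp only [g]
    by_cases hy1 : y ∈ J ω
    · simp [hy1, J_low ω y hy1 x hxy]
    · by_cases hy2 : y ∈ A
      · have := hA y hy2 x hxy
        simp only [hy1, hy2, this, if_true, if_false]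
        split_ifs <;> omega
      · simp only [hy1, hy2, if_false]
        split_ifs <;> omega
  obtain ⟨e, he1, he2⟩ := exists_linext g hg
  have hA1 : ∀ x, x ∈ J ω ↔ (e x : ℕ) < (J ω).card := by
    apply low_iff e he1 (J ω) 1
    intro x
    simp only [g]
    split_ifs with h h' <;> simp_all
  have hA2 : ∀ x, x ∈ A ↔ (e x : ℕ) < A.card := by
    apply low_iff e he1 A 2
    intro x
    simp only [g]
    split_ifs with h h'
    · simp [hJ h]
    · simp [h']
    · simp [h']
  set L := ((J ω).card :: (List.replicate k 1 ++ List.replicate l 1)) with hL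
  have hsum : L.sum = Fintype.card P := by
    simp [hL]
    omega
  have hblk : ∀ t, t < Fintype.card P → blk L t =
      if t < (J ω).card then 0 else t - (J ω).card + 1 := by
    intro t ht
    rw [hL, ← List.replicate_add]
    simp only [blk]
    split_ifs with h
    · rfl
    · rw [blk_ones _ _ (by omega)]
  refine ⟨fun x => blk L (e x : ℕ), ?_, hasContent_blk e L hsum, ?_⟩
  · apply isPPartition_blk e he2
    intro x y hxy hb
    rw [hblk _ (e x).2, hblk _ (e y).2] at hb
    have hlt : (e x : ℕ) < (e y : ℕ) := he2 x y hxy
    have h3 := (e y).2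
    have h4 : y ∈ J ω := by
      rw [hA1]
      split_ifs at hb <;> omega
    intro h5
    rw [mem_J] at h4
    exact h4 x ⟨x, y, le_rfl, hxy, le_rfl, h5⟩
  · intro x
    have h3 := (e x).2
    simp only
    rw [hA2, hblk _ (e x).2]
    split_ifs <;> omega

omit [Fintype P] in
theorem IsPPartition.mono {ω : P → α} {f : P → ℕ} (hf : IsPPartition ω f) {x y : P} (h : x ≤ y) :
    f x ≤ f y := by
  rcases h.eq_or_lt with h | h
  · rw [h]
  · exact (hf x y h).1

omit [Fintype P] in
theorem Prec.lt_val {ω : P → α} {f : P → ℕ} (hf : IsPPartition ω f) {x y : P}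
    (h : Prec ω x y) : f x < f y := by
  obtain ⟨u, v, h1, h2, h3, h4⟩ := h
  have h5 := hf.mono h1
  have h6 := hf.mono h3
  have h7 := (hf u v h2).2 h4
  omega

/-- facts about a P-partition with content `1^k, j, 1^l` -/
theorem facts_L1 {ω : P → α} (hs : Sym ω) {k l : ℕ} {f : P → ℕ} (hf : IsPPartition ω f)
    (hc : HasContent f (List.replicate k 1 ++ ((J ω).card :: List.replicate l 1))) :
    IsLow (univ.filter (fun x => f x ≤ k)) ∧
    (univ.filter (fun x => f x ≤ k)).card = (J ω).card + k ∧
    Dn ω (univ.filter (fun x => f x ≤ k)) = univ.filter (fun x => f x < k) ∧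
    Att ω (univ.filter (fun x => f x ≤ k)) ∧ J ω ⊆ univ.filter (fun x => f x ≤ k) := by
  have h1 : IsLow (univ.filter (fun x => f x ≤ k)) := by
    intro x hx y hy
    simp only [Finset.mem_filter, Finset.mem_univ, true_and] at hx ⊢
    exact (hf.mono hy).trans hx
  have hlt : (univ.filter (fun x => f x < k)).card = k := by
    rw [card_filter_lt, Finset.sum_congr rfl (g := fun _ => 1)]
    · simp
    · intro i hi
      rw [Finset.mem_range] at hi
      rw [hc i, getD_L1, if_pos hi]
  have hle : (univ.filter (fun x => f x ≤ k)).card = (J ω).card + k := by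
    have : (univ.filter (fun x => f x ≤ k)) = univ.filter (fun x => f x < k + 1) := by
      ext x; simp [Nat.lt_succ_iff]
    rw [this, card_filter_lt, Finset.sum_range_succ, ← card_filter_lt, hlt, hc k, getD_L1]
    simp only [lt_self_iff_false, if_false, if_true]
    omega
  have h3 : Dn ω (univ.filter (fun x => f x ≤ k)) ⊆ univ.filter (fun x => f x < k) := by
    intro a ha
    rw [mem_Dn] at ha
    obtain ⟨b, hb, hab⟩ := ha
    simp only [Finset.mem_filter, Finset.mem_univ, true_and] at hb ⊢
    have := hab.lt_val hf
    omega
  have h4 := card_le hs _ h1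
  have h5 : Dn ω (univ.filter (fun x => f x ≤ k)) = univ.filter (fun x => f x < k) :=
    Finset.eq_of_subset_of_card_le h3 (by rw [hlt]; omega)
  have h6 : Att ω (univ.filter (fun x => f x ≤ k)) := by
    unfold Att
    rw [h5, hlt, hle]
    omega
  exact ⟨h1, hle, h5, h6, h6.J_subset hs h1⟩

/-- **Star theorem** -/
theorem star {ω : P → α} (hω : Function.Injective ω) (hs : Sym ω) (hsw : SW ω) :
    ∀ (k : ℕ) (A : Finset P), IsLow A → J ω ⊆ A → A.card = (J ω).card + k → Att ω A := by
  intro k
  induction k using Nat.strong_induction_on with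
  | _ k ih =>
  intro A hA hJA hcard
  have hle : A.card ≤ Fintype.card P := Finset.card_le_univ _
  obtain ⟨l, hl⟩ : ∃ l, Fintype.card P = (J ω).card + k + l :=
    ⟨Fintype.card P - ((J ω).card + k), by omega⟩
  set j := (J ω).card with hj
  set L1 := List.replicate k 1 ++ (j :: List.replicate l 1) with hL1
  set L2 := j :: (List.replicate k 1 ++ List.replicate l 1) with hL2
  have hperm : L1.Perm L2 := List.perm_middle
  have hN : N ω L1 = N ω L2 := hs L1 L2 hperm
  -- full attainedness of `{f ≤ k}`
  have hfull : ∀ f : P → ℕ, IsPPartition ω f → HasContent f L1 →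
      FullAtt ω (univ.filter (fun x => f x ≤ k)) := by
    intro f hf hc
    obtain ⟨h1, h2, h3, h4, h5⟩ := facts_L1 hs hf hc
    refine ⟨h1, h5, ?_⟩
    intro B hB hBl hJB
    by_cases hBA : B = univ.filter (fun x => f x ≤ k)
    · rw [hBA]; exact h4
    · have h6 : B.card < (univ.filter (fun x => f x ≤ k)).card :=
        Finset.card_lt_card (lt_of_le_of_ne hB hBA)
      have h7 : (J ω).card ≤ B.card := Finset.card_le_card hJB
      exact ih (B.card - j) (by omega) B hBl hJB (by omega)
  let Φ : (P → ℕ) → (P → ℕ) := fun f y => if y ∈ J ω then 0 else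
    if f y ≤ k then f (mi ω y) + 1 else f y
  have hΦ : ∀ f : P → ℕ, IsPPartition ω f → HasContent f L1 →
      IsPPartition ω (Φ f) ∧ HasContent (Φ f) L2 ∧ (∀ y, Φ f y ≤ k ↔ f y ≤ k) := by
    intro f hf hc
    obtain ⟨h1, h2, h3, h4, h5⟩ := facts_L1 hs hf hc
    have hF := hfull f hf hc
    have hmemA : ∀ y, y ∈ univ.filter (fun x => f x ≤ k) ↔ f y ≤ k := by intro y; simp
    have hmi : ∀ y, f y ≤ k → y ∉ J ω → f (mi ω y) < k := by
      intro y hy hyJ
      have h6 : mi ω y ∈ Dn ω (univ.filter (fun x => f x ≤ k)) := by
        rw [← hF.image_mi]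
        exact Finset.mem_image_of_mem _ (Finset.mem_sdiff.2 ⟨(hmemA y).2 hy, hyJ⟩)
      rw [h3] at h6
      simpa using h6
    have hJk : ∀ y, y ∈ J ω → f y ≤ k := fun y hy => (hmemA y).1 (h5 hy)
    refine ⟨?_, ?_, ?_⟩
    · intro x y hxy
      simp only [Φ]
      by_cases hyJ : y ∈ J ω
      · have hxJ := J_low ω y hyJ x hxy.le
        simp only [hyJ, hxJ, if_true]
        refine ⟨le_rfl, fun h6 => ?_⟩
        rw [mem_J] at hyJ
        exact absurd ⟨x, y, le_rfl, hxy, le_rfl, h6⟩ (hyJ x)
      · by_cases hxJ : x ∈ J ω
        · simp only [hyJ, hxJ, if_true, if_false]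
          split_ifs with h6
          · exact ⟨by omega, fun _ => by omega⟩
          · exact ⟨by omega, fun _ => by omega⟩
        · simp only [hyJ, hxJ, if_false]
          by_cases hyk : f y ≤ k
          · have hxk : f x ≤ k := (hf.mono hxy.le).trans hyk
            simp only [hyk, hxk, if_true]
            have h7 : mi ω x < mi ω y := hF.mi_lt hω hsw ((hmemA y).2 hyk) hxJ hxy
            have h8 := hmi y hyk hyJ
            have h9 := hf.mono h7.le
            have h10 : f (mi ω x) ≠ f (mi ω y) := by
              intro h11
              have h12 := hc (f (mi ω y))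
              rw [getD_L1, if_pos h8, fc, Finset.card_eq_one] at h12
              obtain ⟨a, ha⟩ := h12
              have ha1 : mi ω x ∈ ({a} : Finset P) := by rw [← ha]; simp [h11]
              have ha2 : mi ω y ∈ ({a} : Finset P) := by rw [← ha]; simp
              rw [Finset.mem_singleton] at ha1 ha2
              exact h7.ne (ha1.trans ha2.symm)
            constructor
            · omega
            · intro _; omega
          · by_cases hxk : f x ≤ k
            · have h8 := hmi x hxk hxJ
              simp only [hyk, hxk, if_true, if_false]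
              exact ⟨by omega, fun _ => by omega⟩
            · simp only [hyk, hxk, if_false]
              exact hf x y hxy
    · intro i
      rw [getD_L2]
      rcases i with _ | i
      · simp only [if_true]
        rw [fc, hj]
        congr 1
        ext y
        simp only [Finset.mem_filter, Finset.mem_univ, true_and, Φ]
        split_ifs with h6 h7
        · simp [h6]
        · simp [h6]
        · simp only [h6, iff_false]
          omega
      · rw [if_neg (by omega)]
        by_cases hik : i < k
        · rw [if_pos (by omega)]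
          have h6 : fc f i = 1 := by rw [hc i, getD_L1, if_pos hik]
          suffices h66 : fc f i = fc (Φ f) (i + 1) by rw [← h66, h6]
          rw [fc, fc]
          refine Finset.card_bij' (fun a _ => if h : ∃ y ∈ (univ.filter (fun x => f x ≤ k)) \ J ω,
            mi ω y = a then h.choose else a) (fun y _ => mi ω y) ?_ ?_ ?_ ?_
          · intro a ha
            simp only [Finset.mem_filter, Finset.mem_univ, true_and] at ha
            have h7 : a ∈ Dn ω (univ.filter (fun x => f x ≤ k)) := by
              rw [h3]; simp [ha, hik]
            rw [← hF.image_mi, Finset.mem_image] at h7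
            rw [dif_pos h7]
            have h8 := h7.choose_spec
            have h9 := Finset.mem_sdiff.1 h8.1
            simp only [Finset.mem_filter, Finset.mem_univ, true_and, Φ]
            rw [if_neg h9.2, if_pos ((hmemA _).1 h9.1), h8.2, ha]
          · intro y hy
            simp only [Finset.mem_filter, Finset.mem_univ, true_and, Φ] at hy ⊢
            split_ifs at hy with h7 h8
            · omega
            · omega
          · intro a ha
            simp only [Finset.mem_filter, Finset.mem_univ, true_and] at ha
            have h7 : a ∈ Dn ω (univ.filter (fun x => f x ≤ k)) := by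
              rw [h3]; simp [ha, hik]
            rw [← hF.image_mi, Finset.mem_image] at h7
            rw [dif_pos h7]
            exact h7.choose_spec.2
          · intro y hy
            simp only [Finset.mem_filter, Finset.mem_univ, true_and, Φ] at hy
            split_ifs at hy with h7 h8
            · have h9 : ∃ z ∈ (univ.filter (fun x => f x ≤ k)) \ J ω, mi ω z = mi ω y :=
                ⟨y, Finset.mem_sdiff.2 ⟨(hmemA y).2 h8, h7⟩, rfl⟩
              rw [dif_pos h9]
              exact hF.injOn_mi h9.choose_spec.1
                (Finset.mem_coe.2 (Finset.mem_sdiff.2 ⟨(hmemA y).2 h8, h7⟩)) h9.choose_spec.2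
            · omega
        · have h6 : fc (Φ f) (i + 1) = fc f (i + 1) := by
            rw [fc, fc]
            congr 1
            ext y
            simp only [Finset.mem_filter, Finset.mem_univ, true_and, Φ]
            split_ifs with h7 h8
            · have h10 := hJk y h7
              refine ⟨fun h11 => ?_, fun h11 => ?_⟩
              · exact h11.elim
              · exfalso; omega
            · have := hmi y h8 h7
              constructor <;> intro <;> omega
            · rfl
          rw [h6, hc (i + 1), getD_L1, if_neg (by omega), if_neg (by omega)]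
    · intro y
      simp only [Φ]
      split_ifs with h6 h7
      · simp [hJk y h6]
      · have := hmi y h7 h6
        constructor <;> intro <;> omega
      · rfl
  -- injectivity
  have hinj : ∀ f g : P → ℕ, IsPPartition ω f → HasContent f L1 → IsPPartition ω g →
      HasContent g L1 → Φ f = Φ g → f = g := by
    intro f g hf hcf hg hcg hfg
    obtain ⟨h1, h2, h3, h4, h5⟩ := facts_L1 hs hf hcf
    obtain ⟨h1', h2', h3', h4', h5'⟩ := facts_L1 hs hg hcg
    have hF := hfull f hf hcf
    have hle1 : ∀ y, f y ≤ k ↔ g y ≤ k := by
      intro y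
      rw [← (hΦ f hf hcf).2.2 y, ← (hΦ g hg hcg).2.2 y, hfg]
    have hset : univ.filter (fun x => f x ≤ k) = univ.filter (fun x => g x ≤ k) := by
      ext y; simp [hle1 y]
    funext x
    by_cases hx : f x ≤ k
    · have hx' := (hle1 x).1 hx
      by_cases hD : x ∈ Dn ω (univ.filter (fun x => f x ≤ k))
      · have hD' := hD
        rw [← hF.image_mi, Finset.mem_image] at hD'
        obtain ⟨y, hy, rfl⟩ := hD'
        rw [Finset.mem_sdiff] at hy
        have hyk : f y ≤ k := by simpa using hy.1
        have hyk' := (hle1 y).1 hyk
        have h6 := congrFun hfg y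
        simp only [Φ] at h6
        rw [if_neg hy.2, if_neg hy.2, if_pos hyk, if_pos hyk'] at h6
        omega
      · have h6 : ¬ f x < k := by
          intro h7
          apply hD
          rw [h3]
          simp [h7]
        have h7 : ¬ g x < k := by
          intro h7
          apply hD
          rw [hset, h3']
          simp [h7]
        omega
    · have hx' : ¬ g x ≤ k := fun h => hx ((hle1 x).2 h)
      have hxJ : x ∉ J ω := by
        intro h6
        have := h5 h6
        simp at this
        exact hx this
      have h6 := congrFun hfg x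
      simp only [Φ] at h6
      rw [if_neg hxJ, if_neg hxJ, if_neg hx, if_neg hx'] at h6
      exact h6
  -- surjectivity
  let Ψ : {f : P → ℕ // IsPPartition ω f ∧ HasContent f L1} →
      {f : P → ℕ // IsPPartition ω f ∧ HasContent f L2} :=
    fun f => ⟨Φ f.1, (hΦ f.1 f.2.1 f.2.2).1, (hΦ f.1 f.2.1 f.2.2).2.1⟩
  have hΨ : Function.Bijective Ψ := by
    apply Function.Injective.bijective_of_nat_card_le
    · intro f g hfg
      apply Subtype.ext
      apply hinj f.1 g.1 f.2.1 f.2.2 g.2.1 g.2.2
      exact congrArg Subtype.val hfg
    · exact hN.ge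
  obtain ⟨f', hf1, hf2, hf3⟩ := exists_jA (ω := ω) A hA hJA k l hcard hl
  obtain ⟨⟨f, hfp, hfc⟩, hfΨ⟩ := hΨ.2 ⟨f', hf1, hf2⟩
  have h6 : Φ f = f' := congrArg Subtype.val hfΨ
  have h7 : A = univ.filter (fun x => f x ≤ k) := by
    ext x
    rw [hf3 x, ← h6, (hΦ f hfp hfc).2.2 x]
    simp
  rw [h7]
  exact (facts_L1 hs hfp hfc).2.2.2.1

end Pool.PPart
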