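import Pool.Agent.Lib.PPart.Star2

/-!
# The level two star: weak-only lower sets of `P ∖ J` are attained
-/

namespace Pool.PPart

open Finset Classical

variable {P : Type*} {α : Type*} [PartialOrder P] [LinearOrder α] [Fintype P]

/-- content `a, b, 1^l` -/
theorem getD_ab (a b l i : ℕ) :
    (a :: b :: List.replicate l 1).getD i 0 =
      if i = 0 then a else if i = 1 then b else if i < l + 2 then 1 else 0 := by
  rcases i with _ | _ | i
  · simp
  · simp
  · simp only [List.getD_eq_getElem?_getD, List.getElem?_cons_succ, List.getElem?_replicate]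
    rw [if_neg (show ¬ (i + 1 + 1 = 0) by omega), if_neg (show ¬ (i + 1 + 1 = 1) by omega)]
    by_cases hm : i < l
    · rw [if_pos hm, if_pos (by omega)]; rfl
    · rw [if_neg hm, if_neg (by omega)]; rfl

/-- existence of P-partitions with content `j, k, 1^l` with a given lower set `A ⊇ J` -/
theorem exists_jk {ω : P → α} (A : Finset P) (hA : IsLow A) (hJ : J ω ⊆ A)
    (hw : ∀ x ∈ A, ∀ y ∈ A, x ∉ J ω → ¬ Prec ω x y) (k l : ℕ)
    (hk : A.card = (J ω).card + k) (hl : Fintype.card P = (J ω).card + k + l) :
    ∃ f : P → ℕ, IsPPartition ω f ∧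
      HasContent f ((J ω).card :: k :: List.replicate l 1) ∧
      (∀ x, x ∈ A ↔ f x ≤ 1) := by
  let g : P → ℕ := fun x => if x ∈ J ω then 0 else if x ∈ A then 1 else 2
  have hg : Monotone g := by
    intro x y hxy
    simp only [g]
    by_cases hy1 : y ∈ J ω
    · simp [hy1, J_low ω y hy1 x hxy]
    · by_cases hy2 : y ∈ A
      · have := hA y hy2 x hxy
        simp only [hy1, hy2, this, if_true, if_false]
        split_ifs <;> omega
      · simp only [hy1, hy2, if_false]
        split_ifs <;> omega
  obtain ⟨e, he1, he2⟩ := exists_linext g hg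
  have hA1 : ∀ x, x ∈ J ω ↔ (e x : ℕ) < (J ω).card := by
    apply low_iff e he1 (J ω) 1
    intro x
    simp only [g]
    split_ifs with h h' <;> simp_all
  have hA2 : ∀ x, x ∈ A ↔ (e x : ℕ) < A.card := by
    apply low_iff e he1 A 2
    intro x
    simp only [g]
    split_ifs with h h'
    · simp [hJ h]
    · simp [h']
    · simp [h']
  set L := ((J ω).card :: k :: List.replicate l 1) with hL
  have hsum : L.sum = Fintype.card P := by
    simp [hL]
    omega
  have hblk : ∀ t, t < Fintype.card P → blk L t =
      if t < (J ω).card then 0 else if t < A.card then 1 else t - A.card + 2 := by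
    intro t ht
    rw [hL]
    simp only [blk]
    split_ifs with h h' h'' h'''
    · rfl
    · rfl
    · omega
    · omega
    · rw [blk_ones _ _ (by omega)]
      omega
  refine ⟨fun x => blk L (e x : ℕ), ?_, hasContent_blk e L hsum, ?_⟩
  · apply isPPartition_blk e he2
    intro x y hxy hb
    rw [hblk _ (e x).2, hblk _ (e y).2] at hb
    have hlt : (e x : ℕ) < (e y : ℕ) := he2 x y hxy
    have h3 := (e y).2
    intro h5
    have h6 : Prec ω x y := ⟨x, y, le_rfl, hxy, le_rfl, h5⟩
    by_cases h4 : y ∈ J ω
    · rw [mem_J] at h4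
      exact h4 x h6
    · have hyJ : ¬ (e y : ℕ) < (J ω).card := by rw [← hA1]; exact h4
      have hxJ : ¬ (e x : ℕ) < (J ω).card := by
        intro h7
        rw [if_pos h7, if_neg hyJ] at hb
        split_ifs at hb
      have hyA : y ∈ A := by
        rw [hA2]
        by_contra h7
        rw [if_neg hxJ, if_neg hyJ, if_neg h7] at hb
        split_ifs at hb <;> omega
      exact hw x (hA y hyA x hxy.le) y hyA (by rw [hA1]; exact hxJ) h6
  · intro x
    have h3 := (e x).2
    simp only
    rw [hA2, hblk _ (e x).2]
    split_ifs <;> omega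

/-- facts about a P-partition with content `k, j, 1^l` -/
theorem facts_ab {ω : P → α} (hs : Sym ω) {k l : ℕ} {f : P → ℕ} (hf : IsPPartition ω f)
    (hc : HasContent f (k :: (J ω).card :: List.replicate l 1)) :
    IsLow (univ.filter (fun x => f x ≤ 1)) ∧
    (univ.filter (fun x => f x ≤ 1)).card = (J ω).card + k ∧
    Dn ω (univ.filter (fun x => f x ≤ 1)) = univ.filter (fun x => f x = 0) ∧
    Att ω (univ.filter (fun x => f x ≤ 1)) ∧ J ω ⊆ univ.filter (fun x => f x ≤ 1) := by
  have h1 : IsLow (univ.filter (fun x => f x ≤ 1)) := by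
    intro x hx y hy
    simp only [Finset.mem_filter, Finset.mem_univ, true_and] at hx ⊢
    exact (hf.mono hy).trans hx
  have hlt : (univ.filter (fun x => f x = 0)).card = k := by
    have := hc 0
    rwa [getD_ab, if_pos rfl] at this
  have hle : (univ.filter (fun x => f x ≤ 1)).card = (J ω).card + k := by
    have : (univ.filter (fun x => f x ≤ 1)) = univ.filter (fun x => f x < 2) := by
      ext x
      simp only [Finset.mem_filter, Finset.mem_univ, true_and]
      omega
    rw [this, card_filter_lt, Finset.sum_range_succ, Finset.sum_range_one, hc 0, hc 1,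
      getD_ab, getD_ab]
    simp
    omega
  have h3 : Dn ω (univ.filter (fun x => f x ≤ 1)) ⊆ univ.filter (fun x => f x = 0) := by
    intro a ha
    rw [mem_Dn] at ha
    obtain ⟨b, hb, hab⟩ := ha
    simp only [Finset.mem_filter, Finset.mem_univ, true_and] at hb ⊢
    have := hab.lt_val hf
    omega
  have h4 := card_le hs _ h1
  have h5 : Dn ω (univ.filter (fun x => f x ≤ 1)) = univ.filter (fun x => f x = 0) :=
    Finset.eq_of_subset_of_card_le h3 (by rw [hlt]; omega)
  have h6 : Att ω (univ.filter (fun x => f x ≤ 1)) := by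
    unfold Att
    rw [h5, hlt, hle]
    omega
  exact ⟨h1, hle, h5, h6, h6.J_subset hs h1⟩

/-- **Level two star** -/
theorem star_two {ω : P → α} (hs : Sym ω) (A : Finset P) (hA : IsLow A) (hJA : J ω ⊆ A)
    (hw : ∀ x ∈ A, ∀ y ∈ A, x ∉ J ω → ¬ Prec ω x y) : Att ω A := by
  have hle : A.card ≤ Fintype.card P := Finset.card_le_univ _
  have hJc := Finset.card_le_card hJA
  obtain ⟨k, hk⟩ : ∃ k, A.card = (J ω).card + k := ⟨A.card - (J ω).card, by omega⟩
  obtain ⟨l, hl⟩ : ∃ l, Fintype.card P = (J ω).card + k + l :=
    ⟨Fintype.card P - ((J ω).card + k), by omega⟩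
  set j := (J ω).card with hj
  set L1 := k :: j :: List.replicate l 1 with hL1
  set L2 := j :: k :: List.replicate l 1 with hL2
  have hperm : L1.Perm L2 := List.Perm.swap _ _ _
  have hN : N ω L1 = N ω L2 := hs L1 L2 hperm
  let Φ : (P → ℕ) → (P → ℕ) := fun f y => if y ∈ J ω then 0 else
    if f y ≤ 1 then 1 else f y
  have hΦ : ∀ f : P → ℕ, IsPPartition ω f → HasContent f L1 →
      IsPPartition ω (Φ f) ∧ HasContent (Φ f) L2 ∧ (∀ y, Φ f y ≤ 1 ↔ f y ≤ 1) := by
    intro f hf hc
    obtain ⟨h1, h2, h3, h4, h5⟩ := facts_ab hs hf hc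
    have hJk : ∀ y, y ∈ J ω → f y ≤ 1 := by
      intro y hy
      have := h5 hy
      simpa using this
    refine ⟨?_, ?_, ?_⟩
    · intro x y hxy
      simp only [Φ]
      by_cases hyJ : y ∈ J ω
      · have hxJ := J_low ω y hyJ x hxy.le
        simp only [hyJ, hxJ, if_true]
        refine ⟨le_rfl, fun h6 => ?_⟩
        rw [mem_J] at hyJ
        exact absurd ⟨x, y, le_rfl, hxy, le_rfl, h6⟩ (hyJ x)
      · by_cases hxJ : x ∈ J ω
        · simp only [hyJ, hxJ, if_true, if_false]
          split_ifs with h6
          · exact ⟨by omega, fun _ => by omega⟩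
          · exact ⟨by omega, fun _ => by omega⟩
        · simp only [hyJ, hxJ, if_false]
          by_cases hyk : f y ≤ 1
          · have hxk : f x ≤ 1 := (hf.mono hxy.le).trans hyk
            simp only [hyk, hxk, if_true]
            refine ⟨le_rfl, fun h6 => ?_⟩
            exfalso
            have h7 := (hf x y hxy).2 h6
            rw [mem_J] at hxJ
            push Not at hxJ
            obtain ⟨a, ha⟩ := hxJ
            have h8 := ha.lt_val hf
            omega
          · by_cases hxk : f x ≤ 1
            · simp only [hyk, hxk, if_true, if_false]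
              exact ⟨by omega, fun _ => by omega⟩
            · simp only [hyk, hxk, if_false]
              exact hf x y hxy
    · intro i
      rw [getD_ab]
      rcases i with _ | _ | i
      · simp only [if_true]
        rw [fc, hj]
        congr 1
        ext y
        simp only [Finset.mem_filter, Finset.mem_univ, true_and, Φ]
        split_ifs with h6 h7
        · simp [h6]
        · simp [h6]
        · simp only [h6, iff_false]
          omega
      · rw [if_neg (by omega), if_pos rfl]
        have h6 : univ.filter (fun y => Φ f y = 0 + 1) =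
            (univ.filter (fun x => f x ≤ 1)) \ J ω := by
          ext y
          simp only [Finset.mem_filter, Finset.mem_univ, true_and, Φ, Finset.mem_sdiff]
          split_ifs with h6 h7
          · simp [h6]
          · simp [h6, h7]
          · simp only [h6, h7, false_and, iff_false]
            omega
        rw [fc, h6, Finset.card_sdiff_of_subset h5, h2]
        omega
      · have h6 : fc (Φ f) (i + 1 + 1) = fc f (i + 1 + 1) := by
          rw [fc, fc]
          congr 1
          ext y
          simp only [Finset.mem_filter, Finset.mem_univ, true_and, Φ]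
          split_ifs with h7 h8
          · have := hJk y h7
            constructor
            · intro h; simp at h
            · intro h; omega
          · constructor
            · intro h; omega
            · intro h; omega
          · rfl
        rw [h6, hc (i + 1 + 1), getD_ab]
        simp
    · intro y
      simp only [Φ]
      split_ifs with h6 h7
      · simp [hJk y h6]
      · simp [h7]
      · rfl
  -- injectivity
  have hinj : ∀ f g : P → ℕ, IsPPartition ω f → HasContent f L1 → IsPPartition ω g →
      HasContent g L1 → Φ f = Φ g → f = g := by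
    intro f g hf hcf hg hcg hfg
    obtain ⟨h1, h2, h3, h4, h5⟩ := facts_ab hs hf hcf
    obtain ⟨h1', h2', h3', h4', h5'⟩ := facts_ab hs hg hcg
    have hle1 : ∀ y, f y ≤ 1 ↔ g y ≤ 1 := by
      intro y
      rw [← (hΦ f hf hcf).2.2 y, ← (hΦ g hg hcg).2.2 y, hfg]
    have hset : univ.filter (fun x => f x ≤ 1) = univ.filter (fun x => g x ≤ 1) := by
      ext y; simp [hle1 y]
    have h0 : ∀ x, f x = 0 ↔ g x = 0 := by
      intro x
      have h6 : x ∈ univ.filter (fun x => f x = 0) ↔ x ∈ univ.filter (fun x => g x = 0) := by
        rw [← h3, ← h3', hset]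
      simpa using h6
    funext x
    by_cases hx : f x ≤ 1
    · have hx' := (hle1 x).1 hx
      have := h0 x
      by_cases hx0 : f x = 0
      · rw [hx0, this.1 hx0]
      · have : ¬ g x = 0 := fun h => hx0 (this.2 h)
        omega
    · have hx' : ¬ g x ≤ 1 := fun h => hx ((hle1 x).2 h)
      have hxJ : x ∉ J ω := by
        intro h6
        have := h5 h6
        simp at this
        omega
      have h6 := congrFun hfg x
      simp only [Φ] at h6
      rw [if_neg hxJ, if_neg hxJ, if_neg hx, if_neg hx'] at h6
      exact h6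
  -- surjectivity
  let Ψ : {f : P → ℕ // IsPPartition ω f ∧ HasContent f L1} →
      {f : P → ℕ // IsPPartition ω f ∧ HasContent f L2} :=
    fun f => ⟨Φ f.1, (hΦ f.1 f.2.1 f.2.2).1, (hΦ f.1 f.2.1 f.2.2).2.1⟩
  have hΨ : Function.Bijective Ψ := by
    apply Function.Injective.bijective_of_nat_card_le
    · intro f g hfg
      apply Subtype.ext
      apply hinj f.1 g.1 f.2.1 f.2.2 g.2.1 g.2.2
      exact congrArg Subtype.val hfg
    · exact hN.ge
  obtain ⟨f', hf1, hf2, hf3⟩ := exists_jk (ω := ω) A hA hJA hw k l hk hl
  obtain ⟨⟨f, hfp, hfc⟩, hfΨ⟩ := hΨ.2 ⟨f', hf1, hf2⟩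
  have h6 : Φ f = f' := congrArg Subtype.val hfΨ
  have h7 : A = univ.filter (fun x => f x ≤ 1) := by
    ext x
    rw [hf3 x, ← h6, (hΦ f hfp hfc).2.2 x]
    simp
  rw [h7]
  exact (facts_ab hs hfp hfc).2.2.2.1

end Pool.PPart
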